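import Pool.Agent.H8.Sel.Lanes

/-!
# Soundness of the checker with the profile pass
-/

set_option linter.unusedSectionVars false

namespace Pool.Agent.Sel

open Finset

theorem relOK_of {e : EN} (hS : SoE e) : RelOK e.m e.U := ⟨hS.m14, hS.lt, hS.irr, hS.tr⟩

theorem ok_leaf {T : Tr} {N : ℕ} {r : AS} (hbig : Big r) (hl : Leaf r) : Ok (tset T N) r :=
  ⟨hbig, fun _ _ _ _ h => absurd h (leaf hl)⟩

/-- the threshold -/
def thr0 (e : EN) : ℕ :=
  Nat.succ (Nat.shiftLeft 1 (Nat.sub (Nat.add (Nat.add e.b e.t) 1) 64))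

/-- the threshold for the budget plus one -/
def thr1 (e : EN) : ℕ :=
  Nat.succ (Nat.shiftLeft 1 (Nat.sub (Nat.add (Nat.add e.b e.t) 2) 64))

theorem thr0_eq (e : EN) : thr0 e = 2 ^ (e.b + e.t + 1 - 64) + 1 := by
  have h : thr0 e = (1 <<< (e.b + e.t + 1 - 64)) + 1 := rfl
  rw [h, Nat.one_shiftLeft]

theorem thr1_eq (e : EN) : thr1 e = 2 ^ (e.b + e.t + 2 - 64) + 1 := by
  have h : thr1 e = (1 <<< (e.b + e.t + 2 - 64)) + 1 := rfl
  rw [h, Nat.one_shiftLeft]

theorem leaf0 {e : EN} {r : AS} (hb : r.b = (e.b : ℤ) - 64) (ht : r.t = e.t) (h64 : 64 ≤ e.b)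
    (h : thr0 e ≤ leafSum r.t r.S r.rel r.w r.F) : Leaf r := by
  unfold Leaf
  have h1 : (r.b + r.t + 1).toNat = e.b + e.t + 1 - 64 := by
    rw [hb, ht]
    omega
  rw [h1]
  rw [thr0_eq] at h
  omega

theorem leaf1 {e : EN} {r : AS} (hb : r.b = (e.b : ℤ) - 64 - 1) (ht : r.t = e.t)
    (h64 : 64 ≤ e.b) (h : thr0 e ≤ 2 * leafSum r.t r.S r.rel r.w r.F) : Leaf r := by
  unfold Leaf
  have h1 : (r.b + r.t + 1).toNat = e.b + e.t - 64 := by
    rw [hb, ht]
    omega
  rw [h1]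
  rw [thr0_eq] at h
  have h2 : e.b + e.t + 1 - 64 = (e.b + e.t - 64) + 1 := by omega
  rw [h2, pow_succ] at h
  omega

theorem leaf2 {e : EN} {r : AS} (hb : r.b = (e.b : ℤ) - 64 + 1) (ht : r.t = e.t)
    (h64 : 64 ≤ e.b) (h : thr1 e ≤ leafSum r.t r.S r.rel r.w r.F) : Leaf r := by
  unfold Leaf
  have h1 : (r.b + r.t + 1).toNat = e.b + e.t + 2 - 64 := by
    rw [hb, ht]
    omega
  rw [h1]
  rw [thr1_eq] at h
  omega

section bet

variable {S : Finset ℕ} {rel : ℕ → ℕ → Prop} {Q : Finset ℕ} {x y : ℕ}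

theorem bet_xy (hx : x < 14) (hy : y < 14) :
    bet S rel Q x y = (2 * ind Q x + ind (rt S rel Q) x) * ind Q y := by simp [bet, hx, hy]

theorem bet_x14 (hx : x < 14) : bet S rel Q x 14 = vf S rel Q x := by simp [bet, hx]

theorem bet_x15 (hx : x < 14) : bet S rel Q x 15 = ind Q x := by simp [bet, hx]

theorem bet_one : bet S rel Q 14 0 = 1 := by simp [bet]

end bet

/-- Context. -/
structure Ctx (e : EN) (A : Finset (Finset ℕ)) (G : ℕ) : Prop where
  hS : SoE e
  big : Big e.dec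
  b64 : 64 ≤ e.b
  t2 : 2 ≤ e.t
  t4 : e.t ≤ 4
  prf : Prf e.m e.U e.W e.t (sumK e.F e.t) A G

section

variable {T : Tr} {N : ℕ} {e : EN} {A : Finset (Finset ℕ)} {G : ℕ}

theorem Ctx.ok_q (h : Ctx e A G) {a b : ℕ} (ha : a < e.m) (hb : b < e.m)
    (hq : qLeaf (cmbK G e.F e.t) (thr0 e) a b = true) : Ok (tset T N) (e.dec.rq a b) := by
  have hm := h.hS.m14
  refine ok_leaf h.big (leaf1 (e := e) rfl rfl h.b64 ?_)
  unfold qLeaf at hq
  rw [ble_iff] at hq
  have hq' : thr0 e ≤ lane (cmbK G e.F e.t) (16 * a + b) + lane (cmbK G e.F e.t) (16 * a + 14) := hq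
  rw [lane_K h.prf h.t2 h.t4 le_rfl (by omega) (by omega),
    lane_K h.prf h.t2 h.t4 le_rfl (by omega) (by omega), ← sum_add_distrib] at hq'
  refine hq'.trans (le_trans (le_of_eq ?_) (child_rq (w := cw e.W) (F := e.F) h.prf.hA
    (mem_range.2 ha) (mem_range.2 hb)))
  refine sum_congr rfl fun Q _ => ?_
  rw [bet_xy (by omega) (by omega), bet_x14 (by omega)]
  ring

theorem Ctx.ok_n (h : Ctx e A G) {q : ℕ} (hq : q < e.m)
    (hl : nLeaf (cmbK G (Nat.sub e.F 2) e.t) (cmbK1 G (Nat.sub e.F 2) e.t) (thr0 e) q = true) :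
    Ok (tset T N) (e.dec.n1 e.m q) ∨ Ok (tset T N) (e.dec.n2 e.m q) := by
  have hm := h.hS.m14
  have hF : e.F - 2 ≤ e.F := Nat.sub_le _ _
  have hbig := h.big
  unfold nLeaf at hl
  rcases r3 hl with ⟨hl, -⟩ | ⟨-, hl⟩
  · left
    refine ok_leaf ?_ (leaf0 (e := e) rfl rfl h.b64 ?_)
    · unfold Big at hbig ⊢
      show e.t ≤ (insert e.m (range e.m)).card + (e.F - 2 + 1) / 2
      change e.t ≤ (range e.m).card + (e.F + 1) / 2 at hbig
      rw [card_insert_of_notMem (by simp)]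
      omega
    · rw [ble_iff] at hl
      have hl' : thr0 e ≤ lane (cmbK G (e.F - 2) e.t) (16 * 14 + 0) +
        (lane (cmbK G (e.F - 2) e.t) (16 * q + 15) +
          lane (cmbK1 G (e.F - 2) e.t) (16 * q + 15)) := hl
      rw [lane_K h.prf h.t2 h.t4 hF (by omega) (by omega),
        lane_K h.prf h.t2 h.t4 hF (by omega) (by omega),
        lane_K1 h.prf h.t2 h.t4 hF (by omega) (by omega), ← sum_add_distrib,
        ← sum_add_distrib] at hl'
      refine hl'.trans (le_trans (le_of_eq ?_) (child_n1 (w := cw e.W) (F := e.F - 2) h.prf.hA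
        (q := q) (k := e.m) (mem_range.2 hq) (by simp)))
      refine sum_congr rfl fun Q _ => ?_
      rw [bet_one, bet_x15 (by omega)]
      ring
  · right
    refine ok_leaf ?_ (leaf0 (e := e) rfl rfl h.b64 ?_)
    · unfold Big at hbig ⊢
      show e.t ≤ (insert e.m (range e.m)).card + (e.F - 2 + 1) / 2
      change e.t ≤ (range e.m).card + (e.F + 1) / 2 at hbig
      rw [card_insert_of_notMem (by simp)]
      omega
    · rw [ble_iff] at hl
      have hl' : thr0 e ≤ lane (cmbK G (e.F - 2) e.t) (16 * q + 14) +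
          lane (cmbK1 G (e.F - 2) e.t) (16 * 14 + 0) := hl
      rw [lane_K h.prf h.t2 h.t4 hF (by omega) (by omega),
        lane_K1 h.prf h.t2 h.t4 hF (by omega) (by omega), ← sum_add_distrib] at hl'
      refine hl'.trans (le_trans (le_of_eq ?_) (child_n2 (w := cw e.W) (F := e.F - 2) h.prf.hA
        (q := q) (k := e.m) (mem_range.2 hq) (by simp)))
      refine sum_congr rfl fun Q _ => ?_
      rw [bet_one, bet_x14 (by omega)]
      ring

theorem card_l2 (hS : SoE e) {q : ℕ} (hq : q < e.m) :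
    (e.dec.l2 q).S.card + (1 + colU e.U q % 65535) = e.m := by
  classical
  have hm := hS.m14
  have hi0 : (e.dec.l2 q).S = (range e.m).filter (fun i => ¬ (i = q ∨ crel e.U i q = true)) := by
    unfold AS.l2
    ext i
    simp only [mem_filter]
    exact Iff.rfl
  have h3 : ∑ a ∈ range 16, ((colU e.U q).testBit (16 * a)).toNat =
      ((range 16).filter (fun a => crel e.U a q = true)).card := by
    rw [card_filter]
    refine sum_congr rfl fun a ha => ?_
    rw [mem_range] at ha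
    rw [colU_testBit16 ha]
    cases crel e.U a q <;> rfl
  have h4 : (range 16).filter (fun a => crel e.U a q = true) =
      (range e.m).filter (fun a => crel e.U a q = true) := by
    ext x
    rw [mem_filter, mem_range, mem_filter, mem_range]
    constructor
    · rintro ⟨hx, h5⟩
      exact ⟨(hS.lt x q (by omega) h5).1, h5⟩
    · rintro ⟨hx, h5⟩
      exact ⟨by omega, h5⟩
  have hqn : q ∉ (range e.m).filter (fun a => crel e.U a q = true) := by
    rw [mem_filter, hS.irr q (by omega)]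
    simp
  have h5 : (range e.m).filter (fun i => i = q ∨ crel e.U i q = true) =
      insert q ((range e.m).filter (fun a => crel e.U a q = true)) := by
    ext x
    rw [mem_filter, mem_insert, mem_filter]
    constructor
    · rintro ⟨h6, h7 | h7⟩
      · exact Or.inl h7
      · exact Or.inr ⟨h6, h7⟩
    · rintro (h6 | ⟨h6, h7⟩)
      · subst h6
        exact ⟨mem_range.2 hq, Or.inl rfl⟩
      · exact ⟨h6, Or.inr h7⟩
  have h6 := card_filter_add_card_filter_not (s := range e.m)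
    (fun i => i = q ∨ crel e.U i q = true)
  rw [h5, card_insert_of_notMem hqn, card_range] at h6
  have hc : ((range e.m).filter (fun a => crel e.U a q = true)).card ≤ e.m := by
    calc _ ≤ (range e.m).card := card_le_card (filter_subset _ _)
      _ = e.m := card_range _
  rw [hi0, mod_blk 16 (colU e.U q) (fun i hi => ⟨colU_mod hi, by
    have := colU_lt256 hi
    omega⟩), h3, h4, Nat.mod_eq_of_lt (by omega)]
  omega

theorem Ctx.ok_l (h : Ctx e A G) (hF0 : e.F ≠ 0) {q : ℕ} (hq : q < e.m)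
    (hl : lLeaf (cmbK G e.F e.t) (cmbK G (Nat.sub e.F 1) e.t) (thr0 e) e.U e.m e.F e.t q
      (Nat.ble e.t (Nat.add e.m (Nat.div e.F 2))) = true) :
    Ok (tset T N) (e.dec.l1 q) ∨ Ok (tset T N) (e.dec.l2 q) := by
  classical
  have hm := h.hS.m14
  have hF : e.F - 1 ≤ e.F := Nat.sub_le _ _
  unfold lLeaf at hl
  rcases r3 hl with ⟨hl, -⟩ | ⟨-, hl⟩
  · left
    obtain ⟨hb, hl⟩ := r1 hl
    refine ok_leaf ?_ (leaf0 (e := e) rfl rfl h.b64 ?_)
    · rw [ble_iff] at hb
      have hb' : e.t ≤ e.m + e.F / 2 := hb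
      unfold Big
      show e.t ≤ (range e.m).card + (e.F - 1 + 1) / 2
      rw [card_range]
      have : e.F - 1 + 1 = e.F := by omega
      rw [this]
      exact hb'
    · rw [ble_iff] at hl
      have hl' : thr0 e ≤ lane (cmbK G (e.F - 1) e.t) (16 * 14 + 0) +
        lane (cmbK G (e.F - 1) e.t) (16 * q + 15) := hl
      rw [lane_K h.prf h.t2 h.t4 hF (by omega) (by omega),
        lane_K h.prf h.t2 h.t4 hF (by omega) (by omega), ← sum_add_distrib] at hl'
      refine hl'.trans (le_trans (le_of_eq ?_) (child_l1 (w := cw e.W) (F := e.F - 1) h.prf.hA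
        (q := q)))
      refine sum_congr rfl fun Q _ => ?_
      rw [bet_one, bet_x15 (by omega)]
      ring
  · right
    obtain ⟨hl, hb⟩ := r1 hl
    refine ok_leaf ?_ (leaf1 (e := e) rfl rfl h.b64 ?_)
    · rw [ble_iff] at hb
      have hb' : e.t + (colU e.U q % 65535 + 1) ≤ e.m + (e.F + 1) / 2 := hb
      have hc := card_l2 h.hS hq
      unfold Big
      show e.t ≤ (e.dec.l2 q).S.card + (e.F + 1) / 2
      omega
    · rw [ble_iff] at hl
      have hl' : thr0 e ≤ lane (cmbK G e.F e.t) (16 * q + 14) := hl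
      rw [lane_K h.prf h.t2 h.t4 le_rfl (by omega) (by omega)] at hl'
      have hi0 : ∀ a, a ∈ (e.dec.l2 q).S ↔ a ∈ range e.m ∧ ¬ (a = q ∨ rl0 e.U a q) := by
        intro a
        unfold AS.l2
        exact mem_filter
      refine hl'.trans (le_trans (le_of_eq ?_) (child_l2 (w := cw e.W) (F := e.F) h.prf.hA
        (mem_range.2 hq) (e.dec.l2 q).S hi0))
      refine sum_congr rfl fun Q _ => ?_
      rw [bet_x14 (by omega)]

theorem Ctx.ok_nn' (h : Ctx e A G) (hl : Nat.ble (thr1 e)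
      (Nat.add (Nat.mul 2 (Nat.add (lane (cmbK G (Nat.sub e.F 4) e.t) 224)
        (lane (cmbK1 G (Nat.sub e.F 4) e.t) 224)))
        (lane (cmbK2 G (Nat.sub e.F 4) e.t) 224)) = true) :
    Ok (tset T N) (e.dec.nn e.m (e.m + 1)) := by
  have hm := h.hS.m14
  have hF : e.F - 4 ≤ e.F := Nat.sub_le _ _
  have hbig := h.big
  refine ok_leaf ?_ (leaf2 (e := e) rfl rfl h.b64 ?_)
  · unfold Big at hbig ⊢
    show e.t ≤ (insert (e.m + 1) (insert e.m (range e.m))).card + (e.F - 4 + 1) / 2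
    change e.t ≤ (range e.m).card + (e.F + 1) / 2 at hbig
    rw [card_insert_of_notMem (by simp), card_insert_of_notMem (by simp)]
    omega
  · rw [ble_iff] at hl
    have hl' : thr1 e ≤ 2 * (lane (cmbK G (e.F - 4) e.t) (16 * 14 + 0) +
        lane (cmbK1 G (e.F - 4) e.t) (16 * 14 + 0)) +
          lane (cmbK2 G (e.F - 4) e.t) (16 * 14 + 0) := hl
    rw [lane_K h.prf h.t2 h.t4 hF (by omega) (by omega),
      lane_K1 h.prf h.t2 h.t4 hF (by omega) (by omega),
      lane_K2 h.prf h.t2 h.t4 hF (by omega) (by omega), ← sum_add_distrib, mul_sum,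
      ← sum_add_distrib] at hl'
    refine hl'.trans (le_trans (le_of_eq ?_) (child_nn (w := cw e.W) (F := e.F - 4) h.prf.hA
      (k := e.m) (k' := e.m + 1) (by simp) (by simp) (by omega)))
    refine sum_congr rfl fun Q _ => ?_
    rw [bet_one]
    ring

theorem Ctx.ok_ln' (h : Ctx e A G)
    (hb : bigB (Nat.lor e.cs.S (Nat.shiftLeft 1 e.m)) (Nat.sub e.cs.F 3) e.cs.t = true)
    (hl : Nat.ble (thr1 e)
      (Nat.mul 2 (Nat.add (lane (cmbK G (Nat.sub e.F 3) e.t) 224)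
        (lane (cmbK1 G (Nat.sub e.F 3) e.t) 224))) = true) :
    Ok (tset T N) (e.dec.ln e.m) := by
  have hm := h.hS.m14
  have hF : e.F - 3 ≤ e.F := Nat.sub_le _ _
  have hSS := ins_S (e := e) (c := ⟨Nat.lor e.cs.S (Nat.shiftLeft 1 e.m), e.cs.U,
      e.cs.W, Nat.sub e.cs.F 3, e.cs.t, Nat.succ e.cs.b⟩) (by omega) rfl
  refine ok_leaf ?_ (leaf2 (e := e) rfl rfl h.b64 ?_)
  · have := bigB_sound (c := ⟨Nat.lor e.cs.S (Nat.shiftLeft 1 e.m), e.cs.U,
      e.cs.W, Nat.sub e.cs.F 3, e.cs.t, Nat.succ e.cs.b⟩) hb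
    unfold Big at this ⊢
    rw [hSS] at this
    exact this
  · rw [ble_iff] at hl
    have hl' : thr1 e ≤ 2 * (lane (cmbK G (e.F - 3) e.t) (16 * 14 + 0) +
        lane (cmbK1 G (e.F - 3) e.t) (16 * 14 + 0)) := hl
    rw [lane_K h.prf h.t2 h.t4 hF (by omega) (by omega),
      lane_K1 h.prf h.t2 h.t4 hF (by omega) (by omega), ← sum_add_distrib, mul_sum] at hl'
    refine hl'.trans (le_trans (le_of_eq ?_) (child_ln (w := cw e.W) (F := e.F - 3) h.prf.hA
      (k := e.m) (by simp)))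
    refine sum_congr rfl fun Q _ => ?_
    rw [bet_one]
    ring

/-! ### the loops -/

theorem qIn2_sound (hG : GoodT T N) (h : Ctx e A G) {b : ℕ} (hbm : b < e.m) :
    ∀ (n z : ℕ) (k : ℕ → Bool), n ≤ b →
    qIn2 T N e.cs (cmbK G e.F e.t) (thr0 e) (twM e.U e.W (Nat.pred e.m)) b n z k = true →
    (∀ a, n ≤ a → a < b → GQq T N e a b) →
    (∀ a < b, GQq T N e a b) ∧ ∃ z', k z' = true := by
  have hS := h.hS
  have hb : 1 ≤ e.b := by have := h.b64; omega
  intro n
  induction n with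
  | zero => intro z k _ h h0; exact ⟨fun a ha => h0 a (Nat.zero_le a) ha, z, h⟩
  | succ n ih =>
    intro z k hn hh h0
    change Bool.rec (motive := fun _ => Bool) (Bool.rec (motive := fun _ => Bool)
      (Bool.rec (motive := fun _ => Bool) (Bool.rec (motive := fun _ => Bool)
      (Bool.rec (motive := fun _ => Bool)
      (Bool.rec (motive := fun _ => Bool)
        (steps T N fuel ⟨e.cs.S, addU e.cs.U b n, e.cs.W, e.cs.F, e.cs.t, Nat.sub e.cs.b 1⟩
              (Nat.shiftRight z 1)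
              (fun z' => qIn2 T N e.cs (cmbK G e.F e.t) (thr0 e)
                (twM e.U e.W (Nat.pred e.m)) b n z' k))
        (steps T N fuel ⟨e.cs.S, addU e.cs.U n b, e.cs.W, e.cs.F, e.cs.t, Nat.sub e.cs.b 1⟩
              (Nat.shiftRight z 1)
              (fun z' => qIn2 T N e.cs (cmbK G e.F e.t) (thr0 e)
                (twM e.U e.W (Nat.pred e.m)) b n z' k))
        (Nat.beq (Nat.land z 1) 0))
        (qIn2 T N e.cs (cmbK G e.F e.t) (thr0 e) (twM e.U e.W (Nat.pred e.m)) b n z k)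
        (qLeaf (cmbK G e.F e.t) (thr0 e) b n))
        (qIn2 T N e.cs (cmbK G e.F e.t) (thr0 e) (twM e.U e.W (Nat.pred e.m)) b n z k)
        (qLeaf (cmbK G e.F e.t) (thr0 e) n b))
        (qIn2 T N e.cs (cmbK G e.F e.t) (thr0 e) (twM e.U e.W (Nat.pred e.m)) b n z k)
        (Bool.rec (motive := fun _ => Bool) false (Nat.ble (n + 2) b)
          (bitN (twM e.U e.W (Nat.pred e.m)) n)))
        (qIn2 T N e.cs (cmbK G e.F e.t) (thr0 e) (twM e.U e.W (Nat.pred e.m)) b n z k)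
      (bitN e.cs.U (16 * b + n)))
      (qIn2 T N e.cs (cmbK G e.F e.t) (thr0 e) (twM e.U e.W (Nat.pred e.m)) b n z k)
      (bitN e.cs.U (16 * n + b)) = true at hh
    have key : GQq T N e n b ∧ ∃ z', qIn2 T N e.cs (cmbK G e.F e.t) (thr0 e)
        (twM e.U e.W (Nat.pred e.m)) b n z' k = true := by
      rcases r3 hh with ⟨h1, hh⟩ | ⟨-, hh⟩
      · rw [bitN_eq] at h1
        exact ⟨fun h2 _ => absurd h1 h2, z, hh⟩
      rcases r3 hh with ⟨h1, hh⟩ | ⟨-, hh⟩
      · rw [bitN_eq] at h1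
        exact ⟨fun _ h2 => absurd h1 h2, z, hh⟩
      rcases r3 hh with ⟨h1, hh⟩ | ⟨-, hh⟩
      · obtain ⟨h1, h2⟩ := r1 h1
        rw [ble_iff] at h2
        have htw := tw_of hS h1
        have h3 := htw.gq hS (by omega) hbm (h0 (n + 1) (by omega) (by omega))
        rw [sg_right, sg_of_ne (by omega) (by omega)] at h3
        exact ⟨h3, z, hh⟩
      rcases r3 hh with ⟨h1, hh⟩ | ⟨-, hh⟩
      · exact ⟨fun _ _ => Or.inl (h.ok_q (by omega) hbm h1), z, hh⟩
      rcases r3 hh with ⟨h1, hh⟩ | ⟨-, hh⟩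
      · exact ⟨fun _ _ => Or.inr (h.ok_q hbm (by omega) h1), z, hh⟩
      rcases r3 hh with ⟨-, hh⟩ | ⟨-, hh⟩
      · obtain ⟨h2, h3⟩ := steps_sound hG _ _ _ _ hh
        exact ⟨fun _ _ => Or.inl (ok_rq hS hb h.big (by omega) hbm h2), h3⟩
      · obtain ⟨h2, h3⟩ := steps_sound hG _ _ _ _ hh
        exact ⟨fun _ _ => Or.inr (ok_rq hS hb h.big hbm (by omega) h2), h3⟩
    obtain ⟨h1, z', h2⟩ := key
    refine ih z' k (by omega) h2 ?_
    intro a ha hab
    rcases eq_or_lt_of_le ha with rfl | ha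
    · exact h1
    · exact h0 a ha hab

theorem qOut2_sound (hG : GoodT T N) (h : Ctx e A G) :
    ∀ (n z : ℕ) (k : ℕ → Bool), n ≤ e.m →
    qOut2 T N e.cs (cmbK G e.F e.t) (thr0 e) (twM e.U e.W (Nat.pred e.m)) n z k = true →
    (∀ b, n ≤ b → b < e.m → ∀ a < b, GQq T N e a b) →
    (∀ b < e.m, ∀ a < b, GQq T N e a b) ∧ ∃ z', k z' = true := by
  have hS := h.hS
  intro n
  induction n with
  | zero => intro z k _ h h0; exact ⟨fun b hb => h0 b (Nat.zero_le b) hb, z, h⟩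
  | succ n ih =>
    intro z k hn hh h0
    change Bool.rec (motive := fun _ => Bool)
      (qIn2 T N e.cs (cmbK G e.F e.t) (thr0 e) (twM e.U e.W (Nat.pred e.m)) n n z
        (fun z' => qOut2 T N e.cs (cmbK G e.F e.t) (thr0 e) (twM e.U e.W (Nat.pred e.m)) n z' k))
      (qOut2 T N e.cs (cmbK G e.F e.t) (thr0 e) (twM e.U e.W (Nat.pred e.m)) n z k)
      (bitN (twM e.U e.W (Nat.pred e.m)) n) = true at hh
    have key : (∀ a < n, GQq T N e a n) ∧ ∃ z', qOut2 T N e.cs (cmbK G e.F e.t) (thr0 e)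
        (twM e.U e.W (Nat.pred e.m)) n z' k = true := by
      rcases r3 hh with ⟨h1, hh⟩ | ⟨-, hh⟩
      · have htw := tw_of hS h1
        have hvm := htw.vm
        refine ⟨?_, z, hh⟩
        intro a ha
        have h3 := htw.gq hS (by omega) hvm (h0 (n + 1) (by omega) hvm a (by omega))
        rw [sg_right, sg_of_ne (by omega) (by omega)] at h3
        exact h3
      · exact qIn2_sound hG h (by omega) n z _ le_rfl hh
          (fun a h1 h2 => absurd h2 (by omega))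
    obtain ⟨h1, z', h2⟩ := key
    refine ih z' k (by omega) h2 ?_
    intro b hnb hbm a hab
    rcases eq_or_lt_of_le hnb with rfl | hnb
    · exact h1 a hab
    · exact h0 b hnb hbm a hab

/-- Abbreviation. -/
noncomputable def nlE (T : Tr) (N : ℕ) (e : EN) (G : ℕ) : ℕ → ℕ → (ℕ → Bool) → Bool :=
  nlB2 T N e.cs e.m (twM e.U e.W (Nat.pred e.m)) (cmbK G e.F e.t)
    (cmbK G (Nat.sub e.F 2) e.t) (cmbK1 G (Nat.sub e.F 2) e.t) (cmbK G (Nat.sub e.F 1) e.t)
    (thr0 e) (Nat.ble e.t (Nat.add e.m (Nat.div e.F 2)))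

theorem nlB2_sound (hG : GoodT T N) (h : Ctx e A G) (hF0 : e.F ≠ 0) :
    ∀ (n z : ℕ) (k : ℕ → Bool), n ≤ e.m → nlE T N e G n z k = true →
    (∀ q, n ≤ q → q < e.m → GLq T N e q) →
    (∀ q < e.m, GLq T N e q) ∧ ∃ z', k z' = true := by
  have hS := h.hS
  have hb : 1 ≤ e.b := by have := h.b64; omega
  intro n
  induction n with
  | zero => intro z k _ h h0; exact ⟨fun q hq => h0 q (Nat.zero_le q) hq, z, h⟩
  | succ n ih =>
    intro z k hn hh h0
    change Bool.rec (motive := fun _ => Bool)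
      (Bool.rec (motive := fun _ => Bool) (Bool.rec (motive := fun _ => Bool)
        (steps T N fuel ⟨Nat.lor e.cs.S (Nat.shiftLeft 1 e.m), addU e.cs.U n e.m, e.cs.W,
          Nat.sub e.cs.F 2, e.cs.t, e.cs.b⟩
          (Nat.shiftRight z 1) (fun z' => Bool.rec (motive := fun _ => Bool)
            (lItem T N e.cs e.m n z' (fun z'' => nlE T N e G n z'' k)) (nlE T N e G n z' k)
            (lLeaf (cmbK G e.F e.t) (cmbK G (Nat.sub e.F 1) e.t) (thr0 e) e.U e.m e.F e.t n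
              (Nat.ble e.t (Nat.add e.m (Nat.div e.F 2))))))
        (steps T N fuel ⟨Nat.lor e.cs.S (Nat.shiftLeft 1 e.m), addU e.cs.U e.m n, e.cs.W,
          Nat.sub e.cs.F 2, e.cs.t, e.cs.b⟩
          (Nat.shiftRight z 1) (fun z' => Bool.rec (motive := fun _ => Bool)
            (lItem T N e.cs e.m n z' (fun z'' => nlE T N e G n z'' k)) (nlE T N e G n z' k)
            (lLeaf (cmbK G e.F e.t) (cmbK G (Nat.sub e.F 1) e.t) (thr0 e) e.U e.m e.F e.t n
              (Nat.ble e.t (Nat.add e.m (Nat.div e.F 2))))))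
        (Nat.beq (Nat.land z 1) 0))
        (Bool.rec (motive := fun _ => Bool)
            (lItem T N e.cs e.m n z (fun z'' => nlE T N e G n z'' k)) (nlE T N e G n z k)
            (lLeaf (cmbK G e.F e.t) (cmbK G (Nat.sub e.F 1) e.t) (thr0 e) e.U e.m e.F e.t n
              (Nat.ble e.t (Nat.add e.m (Nat.div e.F 2)))))
        (nLeaf (cmbK G (Nat.sub e.F 2) e.t) (cmbK1 G (Nat.sub e.F 2) e.t) (thr0 e) n))
        (nlE T N e G n z k)
        (bitN (twM e.U e.W (Nat.pred e.m)) n) = true at hh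
    have key : GLq T N e n ∧ ∃ z', nlE T N e G n z' k = true := by
      rcases r3 hh with ⟨h1, hh⟩ | ⟨-, hh⟩
      · have htw := tw_of hS h1
        have hvm := htw.vm
        have h3 := htw.gl hS hvm (h0 (n + 1) (by omega) hvm)
        rw [sg_right] at h3
        exact ⟨h3, z, hh⟩
      have key2 : (Ok (tset T N) (e.dec.n1 e.m n) ∨ Ok (tset T N) (e.dec.n2 e.m n)) ∧
          ∃ z', Bool.rec (motive := fun _ => Bool)
            (lItem T N e.cs e.m n z' (fun z'' => nlE T N e G n z'' k)) (nlE T N e G n z' k)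
            (lLeaf (cmbK G e.F e.t) (cmbK G (Nat.sub e.F 1) e.t) (thr0 e) e.U e.m e.F e.t n
              (Nat.ble e.t (Nat.add e.m (Nat.div e.F 2)))) = true := by
        rcases r3 hh with ⟨h1, hh⟩ | ⟨-, hh⟩
        · exact ⟨h.ok_n (by omega) h1, z, hh⟩
        rcases r3 hh with ⟨-, hh⟩ | ⟨-, hh⟩
        · obtain ⟨h2, h3⟩ := steps_sound hG _ _ _ _ hh
          exact ⟨Or.inl (ok_n1 hS h.big (by omega) h2), h3⟩
        · obtain ⟨h2, h3⟩ := steps_sound hG _ _ _ _ hh
          exact ⟨Or.inr (ok_n2 hS h.big (by omega) h2), h3⟩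
      obtain ⟨h1, z', h2⟩ := key2
      rcases r3 h2 with ⟨h3, h2⟩ | ⟨-, h2⟩
      · exact ⟨⟨h1, h.ok_l hF0 (by omega) h3⟩, z', h2⟩
      · obtain ⟨h3, h4⟩ := lItem_sound hG hS hb (by omega) h2
        exact ⟨⟨h1, h3⟩, h4⟩
    obtain ⟨h1, z', h2⟩ := key
    refine ih z' k (by omega) h2 ?_
    intro q hnq hqm
    rcases eq_or_lt_of_le hnq with rfl | hnq
    · exact h1
    · exact h0 q hnq hqm

theorem nnB2_sound (hG : GoodT T N) (h : Ctx e A G) {z : ℕ} (hh : nnB2 T N e.cs e.m G z = true) :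
    Ok (tset T N) (e.dec.nn e.m (e.m + 1)) ∧ Ok (tset T N) (e.dec.ln e.m) := by
  have hS := h.hS
  change Bool.rec (motive := fun _ => Bool)
      (steps T N fuel ⟨Nat.lor e.cs.S (Nat.shiftLeft 3 e.m), addU e.cs.U e.m (Nat.succ e.m), e.cs.W,
        Nat.sub e.cs.F 4, e.cs.t, Nat.succ e.cs.b⟩ z (fun z' => Bool.rec (motive := fun _ => Bool)
      false
      (Bool.rec (motive := fun _ => Bool)
      (steps T N fuel ⟨Nat.lor e.cs.S (Nat.shiftLeft 1 e.m), e.cs.U,
        Nat.add e.cs.W (Nat.shiftLeft 1 (Nat.mul 4 e.m)),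
        Nat.sub e.cs.F 3, e.cs.t, Nat.succ e.cs.b⟩ z' (fun _ => true))
      true
      (Nat.ble (thr1 e)
      (Nat.mul 2 (Nat.add (lane (cmbK G (Nat.sub e.F 3) e.t) 224)
        (lane (cmbK1 G (Nat.sub e.F 3) e.t) 224)))))
      (bigB (Nat.lor e.cs.S (Nat.shiftLeft 1 e.m)) (Nat.sub e.cs.F 3) e.cs.t)))
      (Bool.rec (motive := fun _ => Bool)
      false
      (Bool.rec (motive := fun _ => Bool)
      (steps T N fuel ⟨Nat.lor e.cs.S (Nat.shiftLeft 1 e.m), e.cs.U,
        Nat.add e.cs.W (Nat.shiftLeft 1 (Nat.mul 4 e.m)),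
        Nat.sub e.cs.F 3, e.cs.t, Nat.succ e.cs.b⟩ z (fun _ => true))
      true
      (Nat.ble (thr1 e)
      (Nat.mul 2 (Nat.add (lane (cmbK G (Nat.sub e.F 3) e.t) 224)
        (lane (cmbK1 G (Nat.sub e.F 3) e.t) 224)))))
      (bigB (Nat.lor e.cs.S (Nat.shiftLeft 1 e.m)) (Nat.sub e.cs.F 3) e.cs.t))
      (Nat.ble (thr1 e)
      (Nat.add (Nat.mul 2 (Nat.add (lane (cmbK G (Nat.sub e.F 4) e.t) 224)
        (lane (cmbK1 G (Nat.sub e.F 4) e.t) 224)))
        (lane (cmbK2 G (Nat.sub e.F 4) e.t) 224))) = true at hh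
  have key : Ok (tset T N) (e.dec.nn e.m (e.m + 1)) ∧ ∃ z', Bool.rec (motive := fun _ => Bool)
      false
      (Bool.rec (motive := fun _ => Bool)
      (steps T N fuel ⟨Nat.lor e.cs.S (Nat.shiftLeft 1 e.m), e.cs.U,
        Nat.add e.cs.W (Nat.shiftLeft 1 (Nat.mul 4 e.m)),
        Nat.sub e.cs.F 3, e.cs.t, Nat.succ e.cs.b⟩ z' (fun _ => true))
      true
      (Nat.ble (thr1 e)
      (Nat.mul 2 (Nat.add (lane (cmbK G (Nat.sub e.F 3) e.t) 224)
        (lane (cmbK1 G (Nat.sub e.F 3) e.t) 224)))))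
      (bigB (Nat.lor e.cs.S (Nat.shiftLeft 1 e.m)) (Nat.sub e.cs.F 3) e.cs.t) = true := by
    rcases r3 hh with ⟨h1, hh⟩ | ⟨-, hh⟩
    · exact ⟨h.ok_nn' h1, z, hh⟩
    · obtain ⟨h1, z', hh⟩ := steps_sound hG _ _ _ _ hh
      exact ⟨ok_nn hS h.big h1, z', hh⟩
  obtain ⟨h1, z', h2⟩ := key
  refine ⟨h1, ?_⟩
  obtain ⟨h3, h2⟩ := r1 h2
  rcases r3 h2 with ⟨h4, -⟩ | ⟨-, h4⟩
  · exact h.ok_ln' h3 h4
  · obtain ⟨h5, -⟩ := steps_sound hG _ _ _ _ h4
    exact ok_ln hS h3 h5

theorem nodeB2_sound (hG : GoodT T N) (hS : SoE e) {z : ℕ} (h : nodeB2 T N e z = true) :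
    NodeOK (tset T N) e.dec := by
  unfold nodeB2 at h
  obtain ⟨h1, h⟩ := r1 h
  obtain ⟨h2, h⟩ := r1 h
  obtain ⟨h3, h⟩ := r1 h
  obtain ⟨h4, h⟩ := r1 h
  unfold nodeG at h
  obtain ⟨h5, h⟩ := r1 h
  rw [ble_iff] at h1 h2 h3
  have hbig : Big e.dec := big_of_cs hS h4
  obtain ⟨A, hA⟩ := prf_of (W := e.W) (relOK_of hS) h1 h2 h5
  have ctx : Ctx e A (profile e.m e.U e.W e.t) := ⟨hS, hbig, h3, h1, h2, hA⟩
  have sym : (∀ b < e.m, ∀ a < b, ¬ e.dec.rel a b → ¬ e.dec.rel b a →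
      Ok (tset T N) (e.dec.rq a b) ∨ Ok (tset T N) (e.dec.rq b a)) →
      ∀ a ∈ e.dec.S, ∀ b ∈ e.dec.S, a ≠ b → ¬ e.dec.rel a b → ¬ e.dec.rel b a →
        Ok (tset T N) (e.dec.rq a b) ∨ Ok (tset T N) (e.dec.rq b a) := by
    intro hq a ha b hb hab h5 h6
    change a ∈ range e.m at ha
    change b ∈ range e.m at hb
    rw [mem_range] at ha hb
    rcases lt_or_gt_of_ne hab with h7 | h7
    · exact hq b hb a h7 h5 h6
    · exact (hq a ha b h7 h6 h5).symm
  rcases r3 h with ⟨h4, h⟩ | ⟨h4, h⟩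
  · obtain ⟨h5, h⟩ := r1 h
    have hF : e.dec.F = 0 := beq_iff.1 h4
    obtain ⟨h6, -⟩ := qOut2_sound hG ctx _ _ _ le_rfl h
      (fun b h1 h2 => absurd h2 (by omega))
    exact ⟨hbig, h1, fun _ => not_resolved hS h5, sym h6, fun h => absurd hF h,
      fun h => absurd hF h, fun h => absurd hF h, fun h => absurd hF h⟩
  · have hF : e.dec.F ≠ 0 := beq_false.1 h4
    obtain ⟨h6, z', h⟩ := qOut2_sound hG ctx _ _ _ le_rfl h
      (fun b h1 h2 => absurd h2 (by omega))
    obtain ⟨h7, z'', h⟩ := nlB2_sound hG ctx hF _ _ _ le_rfl h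
      (fun b h1 h2 => absurd h2 (by omega))
    obtain ⟨h8, h9⟩ := nnB2_sound hG ctx h
    refine ⟨hbig, h1, fun h => absurd h hF, sym h6, ?_, ?_, ?_, ?_⟩
    · intro _ q hq
      change q ∈ range e.m at hq
      rw [mem_range] at hq
      exact ⟨e.m, fun h10 => lt_irrefl _ (mem_range.1 h10), (h7 q hq).1⟩
    · intro _ q hq
      change q ∈ range e.m at hq
      rw [mem_range] at hq
      exact (h7 q hq).2
    · intro _
      refine ⟨e.m, e.m + 1, fun h10 => lt_irrefl _ (mem_range.1 h10), ?_, by omega, h8⟩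
      intro h10
      have : e.m + 1 < e.m := mem_range.1 h10
      omega
    · intro _
      exact ⟨e.m, fun h10 => lt_irrefl _ (mem_range.1 h10), h9⟩

theorem entryB2_sound (hG : GoodT T N) {z : ℕ} (h : entryB2 T N e z = true) :
    (∀ (ι : Type) [DecidableEq ι] (j B : ℕ), ¬ RW ι j B e.dec) ∨ NodeOK (tset T N) e.dec := by
  unfold entryB2 at h
  obtain ⟨h1, h⟩ := r1 h
  have hS := soB_sound h1
  have hm := hS.m14
  rcases r3 h with ⟨-, h⟩ | ⟨-, h⟩
  · left
    intro ι _ j B hRW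
    refine leaf (leafB_sound h) (hRW.congr (cs_S (by omega)) (fun _ _ _ _ => Iff.rfl)
      (fun _ _ => le_rfl) le_rfl rfl le_rfl)
  · exact Or.inr (nodeB2_sound hG hS h)

/-- The entries `lo, .., hi - 1` are checked (with the profile pass). -/
def Chk2 (T : Tr) (N lo hi : ℕ) : Prop :=
  ∀ i, lo ≤ i → i < hi → ∃ z, T.get i (fun e => entryB2 T N e z) = true

theorem chunkB2_sound : ∀ (zs : List ℕ) (i : ℕ), chunkB2 T N i zs = true →
    Chk2 T N i (i + zs.length) := by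
  intro zs
  induction zs with
  | nil =>
    intro i _ l h1 h2
    simp only [List.length_nil, add_zero] at h2
    omega
  | cons z zs ih =>
    intro i h l h1 h2
    change Bool.rec (motive := fun _ => Bool) false (chunkB2 T N (i + 1) zs)
      (T.get i (fun e => entryB2 T N e z)) = true at h
    obtain ⟨h3, h4⟩ := r1 h
    rcases eq_or_lt_of_le h1 with rfl | h5
    · exact ⟨z, h3⟩
    · refine ih (i + 1) h4 l h5 ?_
      rw [List.length_cons] at h2
      omega

theorem Chk2.trans {a b c : ℕ} (h1 : Chk2 T N a b) (h2 : Chk2 T N b c) : Chk2 T N a c := by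
  intro i h3 h4
  rcases lt_or_ge i b with h | h
  · exact h1 i h3 h
  · exact h2 i h h4

/-- **A checked table is lost for the algorithm.** -/
theorem table_sound2 (h : Chk2 T N 1 (N + 1)) : ∀ e ∈ tset T N,
    (∀ (ι : Type) [DecidableEq ι] (j B : ℕ), ¬ RW ι j B e) ∨ NodeOK (tset T N) e := by
  have key : ∀ i ≤ N, ∀ e, T.find i = some e → ∃ z, entryB2 T N e z = true := by
    intro i hi e he
    have h1 : 1 ≤ i := by
      rcases Nat.eq_zero_or_pos i with rfl | h1
      · rw [Tr.find_zero] at he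
        exact absurd he (by simp)
      · exact h1
    obtain ⟨z, hz⟩ := h i h1 (by omega)
    obtain ⟨e', he', h2⟩ := Tr.get_sound hz
    rw [he, Option.some_inj] at he'
    subst he'
    exact ⟨z, h2⟩
  have hG : GoodT T N := by
    intro i hi e he
    obtain ⟨z, hz⟩ := key i hi e he
    exact soB_sound (r1 hz).1
  rintro _ ⟨i, hi, e, he, rfl⟩
  obtain ⟨z, hz⟩ := key i hi e he
  exact entryB2_sound hG hz

/-- **Lower bounds from a checked table**: if the entry `1` is the start with fluid `F` (half units)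
and budget `b`, then `V t n ≥ n + (t - 1) j + b + 1` for all `n` with `F 2 ^ j ≤ 2 n`. -/
theorem table_lower2 (h : Chk2 T N 1 (N + 1)) (hN : 1 ≤ N) {F t b : ℕ}
    (hs : T.find 1 = some ⟨0, 0, 0, F, t, b + 64⟩) (ht : 1 ≤ t) {n j : ℕ} (hn : 0 < n)
    (hF : F * 2 ^ j ≤ 2 * n) {d' : ℕ}
    (h0 : Win t (Finset.univ : Finset (Fin n)) (fun _ => 0) emp d') :
    n + (t - 1) * j + b + 1 ≤ V t n :=
  fluid_lower (tset T N) (table_sound2 h) ⟨1, hN, _, hs, start_dec.symm⟩ ht hn hF h0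

end

end Pool.Agent.Sel
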