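import Pool.Agent.H14.Sel.Fluid
import Pool.Agent.H24.Sel.Lemmas

/-!
# Elementary simplifications of abstract states of the fluid game

Every lemma has the form: if a realisation of `e` is won by the algorithm with real budget `B`, then a
realisation of the simplified state `e'` is won with some real budget `B' ≤ B`.
-/

set_option linter.unusedSectionVars false

namespace Pool.Agent.Sel

open Finset

variable {ι : Type*} [DecidableEq ι]

theorem Rz.image_erase {j : ℕ} {X : Finset ι} {R : ι → ι → Prop} {v : ι → ℕ} {e : AS}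
    {φ : ℕ → ι} (h : Rz j X R v e φ) {g : ℕ} (hg : g ∈ e.S) :
    (e.S.erase g).image φ = (e.S.image φ).erase (φ g) := by
  ext z
  simp only [mem_image, mem_erase]
  constructor
  · rintro ⟨a, ⟨hag, ha⟩, rfl⟩
    exact ⟨fun h2 => hag (h.inj a ha g hg h2), a, ha, rfl⟩
  · rintro ⟨hz, a, ha, rfl⟩
    refine ⟨a, ⟨?_, ha⟩, rfl⟩
    rintro rfl
    exact hz rfl

theorem Rz.lights_erase {j : ℕ} {X : Finset ι} {R : ι → ι → Prop} {v : ι → ℕ} {e : AS}
    {φ : ℕ → ι} (h : Rz j X R v e φ) {g : ℕ} (hg : g ∈ e.S) :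
    X.erase (φ g) \ (e.S.erase g).image φ = X \ e.S.image φ := by
  rw [h.image_erase hg]
  ext z
  simp only [mem_sdiff, mem_erase]
  constructor
  · rintro ⟨⟨h1, h2⟩, h3⟩
    exact ⟨h2, fun h4 => h3 ⟨h1, h4⟩⟩
  · rintro ⟨h1, h2⟩
    refine ⟨⟨?_, h1⟩, fun h3 => h2 h3.2⟩
    rintro rfl
    exact h2 (mem_image_of_mem φ hg)

/-- Deleting a solid. -/
theorem Rz.eraseSolid {j : ℕ} {X : Finset ι} {R : ι → ι → Prop} {v v' : ι → ℕ} {e : AS}
    {φ : ℕ → ι} (h : Rz j X R v e φ) {g : ℕ} (hg : g ∈ e.S) (e' : AS) (hS : e'.S = e.S.erase g)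
    (hrel : e'.rel = e.rel) (hw : ∀ a ∈ e.S, a ≠ g → j + e'.w a ≤ v' (φ a))
    (hv : ∀ l ∈ X \ e.S.image φ, v l ≤ v' l) (hF : e'.F ≤ e.F) :
    Rz j (X.erase (φ g)) R v' e' φ := by
  have hl := h.lights_erase hg
  rw [← hS] at hl
  refine ⟨h.so, ?_, ?_, ?_, ?_, ?_, ?_, ?_⟩
  · rw [hS]
    intro a ha b hb
    exact h.inj a (mem_of_mem_erase ha) b (mem_of_mem_erase hb)
  · rw [hS]
    intro a ha
    rw [mem_erase] at ha
    exact mem_erase.2 ⟨fun h2 => ha.1 (h.inj a ha.2 g hg h2), h.mem a ha.2⟩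
  · rw [hS, hrel]
    intro a ha b hb
    exact h.rel a (mem_of_mem_erase ha) b (mem_of_mem_erase hb)
  · rw [hl]
    intro l hl2 x hx
    exact h.lt1 l hl2 x (mem_of_mem_erase hx)
  · rw [hl]
    intro l hl2 x hx
    exact h.lt2 l hl2 x (mem_of_mem_erase hx)
  · rw [hS]
    intro a ha
    rw [mem_erase] at ha
    exact hw a ha.2 ha.1
  · rw [hl]
    calc e'.F * 2 ^ j ≤ e.F * 2 ^ j := Nat.mul_le_mul_right _ hF
      _ ≤ _ := h.mass
      _ ≤ _ := by
        refine Nat.mul_le_mul_left 2 (Finset.sum_le_sum fun l hl => ?_)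
        exact Nat.pow_le_pow_right (by norm_num) (min_le_min_right _ (hv l hl))

/-- A minimal solid is minimal in the realisation. -/
theorem Rz.min_of {j : ℕ} {X : Finset ι} {R : ι → ι → Prop} {v : ι → ℕ} {e : AS}
    {φ : ℕ → ι} (h : Rz j X R v e φ) {g : ℕ} (hg : g ∈ e.S) (hmin : ∀ a ∈ e.S, ¬ e.rel a g) :
    ∀ x ∈ X, ¬ R x (φ g) := by
  intro x hx hxg
  by_cases hxi : x ∈ e.S.image φ
  · obtain ⟨a, ha, rfl⟩ := mem_image.1 hxi
    exact hmin a ha ((h.rel a ha g hg).1 hxg)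
  · exact h.lt1 x (mem_sdiff.2 ⟨hx, hxi⟩) _ (h.mem g hg) hxg

/-- A maximal solid is maximal in the realisation. -/
theorem Rz.max_of {j : ℕ} {X : Finset ι} {R : ι → ι → Prop} {v : ι → ℕ} {e : AS}
    {φ : ℕ → ι} (h : Rz j X R v e φ) {g : ℕ} (hg : g ∈ e.S) (hmax : ∀ a ∈ e.S, ¬ e.rel g a) :
    ∀ x ∈ X, ¬ R (φ g) x := by
  intro x hx hxg
  by_cases hxi : x ∈ e.S.image φ
  · obtain ⟨a, ha, rfl⟩ := mem_image.1 hxi
    exact hmax a ha ((h.rel g hg a ha).1 hxg)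
  · exact h.lt2 x (mem_sdiff.2 ⟨hx, hxi⟩) _ (h.mem g hg) hxg

/-- Elements above a solid are solids. -/
theorem Rz.above_of {j : ℕ} {X : Finset ι} {R : ι → ι → Prop} {v : ι → ℕ} {e : AS}
    {φ : ℕ → ι} (h : Rz j X R v e φ) {g : ℕ} (hg : g ∈ e.S) {x : ι} (hx : x ∈ X)
    (hgx : R (φ g) x) : ∃ a ∈ e.S, φ a = x ∧ e.rel g a := by
  by_cases hxi : x ∈ e.S.image φ
  · obtain ⟨a, ha, rfl⟩ := mem_image.1 hxi
    exact ⟨a, ha, rfl, (h.rel g hg a ha).1 hgx⟩
  · exact absurd hgx (h.lt2 x (mem_sdiff.2 ⟨hx, hxi⟩) _ (h.mem g hg))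

/-! ## The simplifications -/

/-- Delete the solid `g`. -/
def AS.del (e : AS) (g : ℕ) : AS := { e with S := e.S.erase g }

/-- Delete the solid `g`, one token to `x`. -/
def AS.tok (e : AS) (g x : ℕ) : AS :=
  { e with S := e.S.erase g, w := Function.update e.w x (e.w x + 1) }

/-- Delete the root `g`, the budget decreases by one. -/
def AS.delRoot (e : AS) (g : ℕ) : AS := { e with S := e.S.erase g, b := e.b - 1 }

/-- The root `a` is declared to be the largest element. -/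
def AS.top (e : AS) (a : ℕ) : AS :=
  { e with S := e.S.erase a, t := e.t - 1, b := e.b - e.w a }

/-- The isolated solid `a` becomes fluid. -/
def AS.melt (e : AS) (a : ℕ) : AS := { e with S := e.S.erase a, F := e.F + 2, b := e.b - 1 }

theorem RW.drop_token {j B : ℕ} {e : AS} (h : RW ι j B e) {g x : ℕ} (hg : g ∈ e.S)
    (hx : x ∈ e.S) (hmin : ∀ a ∈ e.S, ¬ e.rel a g) (hgx : e.rel g x)
    (hab : ∀ z ∈ e.S, e.rel g z → z = x ∨ e.rel x z) (hbig : Big (e.tok g x)) :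
    RW ι j B (e.tok g x) := by
  obtain ⟨X, R, v, φ, hz, hwin, hB⟩ := h
  have hgx' : g ≠ x := by
    rintro rfl
    exact hz.so.irr _ ((hz.rel g hg g hg).2 hgx)
  have hxl : φ x ∉ X \ e.S.image φ := fun h2 => (mem_sdiff.1 h2).2 (mem_image_of_mem φ hx)
  have hz' : Rz j (X.erase (φ g)) R (Function.update v (φ x) (v (φ x) + 1)) (e.tok g x) φ := by
    refine hz.eraseSolid hg _ rfl rfl ?_ ?_ le_rfl
    · intro a ha hag
      show j + Function.update e.w x (e.w x + 1) a ≤ _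
      by_cases hax : a = x
      · subst hax
        rw [Function.update_self, Function.update_self]
        have := hz.hw a ha
        omega
      · rw [Function.update_of_ne hax, Function.update_of_ne]
        · exact hz.hw a ha
        · exact fun h2 => hax (hz.inj a ha x hx h2)
    · intro l hl
      rw [Function.update_of_ne]
      rintro rfl
      exact hxl hl
  have hcard : e.t ≤ (X.erase (φ g)).card := (show e.t ≤ _ from hbig).trans hz'.card_le
  refine ⟨_, R, _, φ, hz', ?_, ?_⟩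
  · refine hwin.lift_token hz.so (hz.mem g hg) (hz.min_of hg hmin) hcard (hz.mem x hx)
      ((hz.rel g hg x hx).2 hgx) ?_
    intro z hzX hgz
    obtain ⟨a, ha, rfl, hga⟩ := hz.above_of hg hzX hgz
    rcases hab a ha hga with rfl | h2
    · exact Or.inl rfl
    · exact Or.inr ((hz.rel x hx a ha).2 h2)
  · have := hz.lights_erase hg
    show (B : ℤ) ≤ ((X.erase (φ g) \ (e.S.erase g).image φ).card : ℤ) + ((e.t : ℤ) - 1) * j + e.b
    rw [this]
    exact hB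

theorem RW.drop_free {j B : ℕ} {e : AS} (h : RW ι j B e) {g : ℕ} (hg : g ∈ e.S)
    (hmin : ∀ a ∈ e.S, ¬ e.rel a g) (hbig : Big (e.del g)) : RW ι j B (e.del g) := by
  obtain ⟨X, R, v, φ, hz, hwin, hB⟩ := h
  have hz' : Rz j (X.erase (φ g)) R v (e.del g) φ :=
    hz.eraseSolid hg _ rfl rfl (fun a ha _ => hz.hw a ha) (fun _ _ => le_rfl) le_rfl
  have hcard : e.t ≤ (X.erase (φ g)).card := (show e.t ≤ _ from hbig).trans hz'.card_le
  refine ⟨_, R, _, φ, hz', ?_, ?_⟩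
  · exact hwin.lift_free hz.so (hz.mem g hg) (hz.min_of hg hmin) hcard
  · have := hz.lights_erase hg
    show (B : ℤ) ≤ ((X.erase (φ g) \ (e.S.erase g).image φ).card : ℤ) + ((e.t : ℤ) - 1) * j + e.b
    rw [this]
    exact hB

theorem RW.drop_root {j B : ℕ} {e : AS} (h : RW ι j B e) {g : ℕ} (hg : g ∈ e.S)
    (hmin : ∀ a ∈ e.S, ¬ e.rel a g) (hmax : ∀ a ∈ e.S, ¬ e.rel g a)
    (hbig : Big (e.delRoot g)) : 1 ≤ B ∧ RW ι j (B - 1) (e.delRoot g) := by
  obtain ⟨X, R, v, φ, hz, hwin, hB⟩ := h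
  have hz' : Rz j (X.erase (φ g)) R v (e.delRoot g) φ :=
    hz.eraseSolid hg _ rfl rfl (fun a ha _ => hz.hw a ha) (fun _ _ => le_rfl) le_rfl
  have hcard : e.t ≤ (X.erase (φ g)).card := (show e.t ≤ _ from hbig).trans hz'.card_le
  obtain ⟨h1, h2⟩ := hwin.lift_root hz.so (hz.mem g hg) (hz.min_of hg hmin) hcard
    (hz.max_of hg hmax)
  refine ⟨h1, _, R, _, φ, hz', h2, ?_⟩
  have := hz.lights_erase hg
  show ((B - 1 : ℕ) : ℤ) ≤
    ((X.erase (φ g) \ (e.S.erase g).image φ).card : ℤ) + ((e.t : ℤ) - 1) * j + (e.b - 1)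
  rw [this]
  push_cast [h1]
  linarith

theorem RW.top {j B : ℕ} {e : AS} (h : RW ι j B e) {a : ℕ} (ha : a ∈ e.S)
    (hmax : ∀ z ∈ e.S, ¬ e.rel a z) (ht : 2 ≤ e.t) : ∃ B' ≤ B, RW ι j B' (e.top a) := by
  obtain ⟨X, R, v, φ, hz, hwin, hB⟩ := h
  have hz' : Rz j (X.erase (φ a)) R v (e.top a) φ :=
    hz.eraseSolid ha _ rfl rfl (fun c hc _ => hz.hw c hc) (fun _ _ => le_rfl) le_rfl
  have h1 := hwin.top (φ a) (hz.mem a ha) hz.so (hz.max_of ha hmax) ht
  have h2 : Win (e.t - 1) (X.erase (φ a)) (fun T => sw v T + v (φ a)) R B := by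
    refine h1.mono_f _ hz.so ?_
    intro T hT
    have hn : φ a ∉ T := fun h3 => (mem_erase.1 (hT.sub h3)).1 rfl
    show sw v T + v (φ a) ≤ sw v (insert (φ a) T)
    unfold sw
    rw [Finset.sum_insert hn]
    omega
  obtain ⟨h3, h4⟩ := h2.unshift (f := sw v) (k := v (φ a)) (fun T => rfl)
  refine ⟨B - v (φ a), Nat.sub_le _ _, _, R, _, φ, hz', h4, ?_⟩
  have h5 := hz.lights_erase ha
  show ((B - v (φ a) : ℕ) : ℤ) ≤
    ((X.erase (φ a) \ (e.S.erase a).image φ).card : ℤ) + (((e.t - 1 : ℕ) : ℤ) - 1) * j +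
      (e.b - e.w a)
  rw [h5]
  have h6 := hz.hw a ha
  have h7 : ((e.t - 1 : ℕ) : ℤ) = (e.t : ℤ) - 1 := by omega
  have h8 : ((B - v (φ a) : ℕ) : ℤ) = (B : ℤ) - v (φ a) := by omega
  rw [h7, h8]
  have h9 : ((j : ℤ) + e.w a) ≤ v (φ a) := by exact_mod_cast h6
  nlinarith

theorem RW.melt {j B : ℕ} {e : AS} (h : RW ι j B e) {a : ℕ} (ha : a ∈ e.S)
    (hmin : ∀ z ∈ e.S, ¬ e.rel z a) (hmax : ∀ z ∈ e.S, ¬ e.rel a z) :
    RW ι j B (e.melt a) := by
  obtain ⟨X, R, v, φ, hz, hwin, hB⟩ := h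
  have hlight : X \ (e.S.erase a).image φ = insert (φ a) (X \ e.S.image φ) := by
    rw [hz.image_erase ha]
    ext z
    simp only [mem_sdiff, mem_erase, mem_insert]
    constructor
    · rintro ⟨h1, h2⟩
      by_cases hza : z = φ a
      · exact Or.inl hza
      · exact Or.inr ⟨h1, fun h3 => h2 ⟨hza, h3⟩⟩
    · rintro (rfl | ⟨h1, h2⟩)
      · exact ⟨hz.mem a ha, fun h3 => h3.1 rfl⟩
      · exact ⟨h1, fun h3 => h2 h3.2⟩
  have hn : φ a ∉ X \ e.S.image φ := fun h2 => (mem_sdiff.1 h2).2 (mem_image_of_mem φ ha)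
  have hz' : Rz j X R v (e.melt a) φ := by
    refine ⟨hz.so, ?_, ?_, ?_, ?_, ?_, ?_, ?_⟩
    · intro c hc d hd
      exact hz.inj c (mem_of_mem_erase hc) d (mem_of_mem_erase hd)
    · intro c hc
      exact hz.mem c (mem_of_mem_erase hc)
    · intro c hc d hd
      exact hz.rel c (mem_of_mem_erase hc) d (mem_of_mem_erase hd)
    · intro l hl x hx
      change l ∈ X \ (e.S.erase a).image φ at hl
      rw [hlight, mem_insert] at hl
      rcases hl with rfl | hl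
      · exact hz.max_of ha hmax x hx
      · exact hz.lt1 l hl x hx
    · intro l hl x hx
      change l ∈ X \ (e.S.erase a).image φ at hl
      rw [hlight, mem_insert] at hl
      rcases hl with rfl | hl
      · exact hz.min_of ha hmin x hx
      · exact hz.lt2 l hl x hx
    · intro c hc
      exact hz.hw c (mem_of_mem_erase hc)
    · show (e.F + 2) * 2 ^ j ≤ 2 * ∑ l ∈ X \ (e.S.erase a).image φ, 2 ^ (min (v l) j)
      rw [hlight, Finset.sum_insert hn]
      have h1 : min (v (φ a)) j = j := by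
        have := hz.hw a ha
        omega
      rw [h1]
      have := hz.mass
      linarith
  refine ⟨X, R, v, φ, hz', hwin, ?_⟩
  show (B : ℤ) ≤ ((X \ (e.S.erase a).image φ).card : ℤ) + ((e.t : ℤ) - 1) * j + (e.b - 1)
  rw [hlight, Finset.card_insert_of_notMem hn]
  push_cast
  linarith

/-- Relabelling with more relations, smaller weights, less fluid and a larger budget. -/
theorem RW.relabel {j B : ℕ} {e : AS} (h : RW ι j B e) (e' : AS) (κ : ℕ → ℕ)
    (hmem : ∀ a ∈ e'.S, κ a ∈ e.S) (hinj : ∀ a ∈ e'.S, ∀ b ∈ e'.S, κ a = κ b → a = b)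
    (hsurj : ∀ c ∈ e.S, ∃ a ∈ e'.S, κ a = c)
    (hrel : ∀ a ∈ e'.S, ∀ b ∈ e'.S, e.rel (κ a) (κ b) → e'.rel a b)
    (hirr : ∀ a ∈ e'.S, ¬ e'.rel a a)
    (htr : ∀ a ∈ e'.S, ∀ b ∈ e'.S, ∀ c ∈ e'.S, e'.rel a b → e'.rel b c → e'.rel a c)
    (hw : ∀ a ∈ e'.S, e'.w a ≤ e.w (κ a)) (hF : e'.F ≤ e.F) (ht : e'.t = e.t)
    (hb : e.b ≤ e'.b) : RW ι j B e' := by
  obtain ⟨X, R, v, φ, hz, hwin, hB⟩ := h
  let R' : ι → ι → Prop := fun p q => ∃ a ∈ e'.S, ∃ b ∈ e'.S, φ (κ a) = p ∧ φ (κ b) = q ∧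
    e'.rel a b
  have hφ : ∀ a ∈ e'.S, ∀ b ∈ e'.S, φ (κ a) = φ (κ b) → a = b := fun a ha b hb h2 =>
    hinj a ha b hb (hz.inj _ (hmem a ha) _ (hmem b hb) h2)
  have himg : e'.S.image (fun a => φ (κ a)) = e.S.image φ := by
    ext z
    simp only [mem_image]
    constructor
    · rintro ⟨a, ha, rfl⟩
      exact ⟨κ a, hmem a ha, rfl⟩
    · rintro ⟨c, hc, rfl⟩
      obtain ⟨a, ha, rfl⟩ := hsurj c hc
      exact ⟨a, ha, rfl⟩
  have hSO : SO R' := by
    refine ⟨?_, ?_⟩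
    · rintro p ⟨a, ha, b, hb, h1, h2, h3⟩
      have : a = b := hφ a ha b hb (h1.trans h2.symm)
      subst this
      exact hirr a ha h3
    · rintro p q r ⟨a, ha, b, hb, h1, h2, h3⟩ ⟨c, hc, d, hd, h4, h5, h6⟩
      have : b = c := hφ b hb c hc (h2.trans h4.symm)
      subst this
      exact ⟨a, ha, d, hd, h1, h5, htr a ha b hb d hd h3 h6⟩
  have hRR : ∀ p ∈ X, ∀ q ∈ X, R p q → R' p q := by
    intro p hp q hq hpq
    have hpi : p ∈ e.S.image φ := by
      by_contra h2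
      exact hz.lt1 p (mem_sdiff.2 ⟨hp, h2⟩) q hq hpq
    have hqi : q ∈ e.S.image φ := by
      by_contra h2
      exact hz.lt2 q (mem_sdiff.2 ⟨hq, h2⟩) p hp hpq
    obtain ⟨c, hc, rfl⟩ := mem_image.1 hpi
    obtain ⟨d, hd, rfl⟩ := mem_image.1 hqi
    obtain ⟨a, ha, rfl⟩ := hsurj c hc
    obtain ⟨b, hb, rfl⟩ := hsurj d hd
    exact ⟨a, ha, b, hb, rfl, rfl, hrel a ha b hb ((hz.rel _ hc _ hd).1 hpq)⟩
  have hz' : Rz j X R' v e' (fun a => φ (κ a)) := by
    refine ⟨hSO, hφ, ?_, ?_, ?_, ?_, ?_, ?_⟩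
    · intro a ha
      exact hz.mem _ (hmem a ha)
    · intro a ha b hb
      constructor
      · rintro ⟨c, hc, d, hd, h1, h2, h3⟩
        have e1 : c = a := hφ c hc a ha h1
        have e2 : d = b := hφ d hd b hb h2
        rw [← e1, ← e2]
        exact h3
      · intro h3
        exact ⟨a, ha, b, hb, rfl, rfl, h3⟩
    · rw [himg]
      rintro l hl x hx ⟨c, hc, d, hd, h1, h2, h3⟩
      exact (mem_sdiff.1 hl).2 (by rw [← h1]; exact mem_image_of_mem φ (hmem c hc))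
    · rw [himg]
      rintro l hl x hx ⟨c, hc, d, hd, h1, h2, h3⟩
      exact (mem_sdiff.1 hl).2 (by rw [← h2]; exact mem_image_of_mem φ (hmem d hd))
    · intro a ha
      exact (Nat.add_le_add_left (hw a ha) j).trans (hz.hw _ (hmem a ha))
    · rw [himg]
      exact (Nat.mul_le_mul_right _ hF).trans hz.mass
  refine ⟨X, R', v, _, hz', ?_, ?_⟩
  · rw [ht]
    exact hwin.mono_R R' hSO.tr hRR
  · rw [himg, ht]
    linarith

end Pool.Agent.Sel
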