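import Pool.Agent.H14.Sel.Fluid
import Pool.Agent.H8.Sel.Simp

/-!
# Concrete (bit mask) states for the kernel checker

`CS` is a state with at most 16 solids, everything is stored in natural numbers:
* `S` : bit mask of the solids (indices `< 16`);
* `U` : packed relation, bit `16 * a + b` is set iff `a < b`;
* `W` : packed weights, 4 bits per solid;
* `F` : fluid in half units, `t`, and `b` : budget plus `64`.
-/

namespace Pool.Agent.Sel

open Finset

structure CS where
  S : ℕ
  U : ℕ
  W : ℕ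
  F : ℕ
  t : ℕ
  b : ℕ

/-- The relation `a < b` of a packed relation. -/
def crel (U a b : ℕ) : Bool := Nat.testBit U (16 * a + b)

/-- The weight of `a`. -/
def cw (W a : ℕ) : ℕ := (W >>> (4 * a)) % 16

/-- The abstract state described by `c`. -/
def CS.dec (c : CS) : AS where
  S := (range 16).filter (fun i => c.S.testBit i = true)
  rel a b := crel c.U a b = true
  w a := cw c.W a
  F := c.F
  t := c.t
  b := (c.b : ℤ) - 64

theorem CS.mem_dec {c : CS} {i : ℕ} : i ∈ c.dec.S ↔ i < 16 ∧ c.S.testBit i = true := by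
  simp [CS.dec]

variable {ι : Type*} [DecidableEq ι]

/-- Only the restriction of `rel` and `w` to `S` matters. -/
theorem RW.congr {j B : ℕ} {e e' : AS} (h : RW ι j B e) (hS : e'.S = e.S)
    (hrel : ∀ a ∈ e.S, ∀ b ∈ e.S, (e.rel a b ↔ e'.rel a b)) (hw : ∀ a ∈ e.S, e'.w a ≤ e.w a)
    (hF : e'.F ≤ e.F) (ht : e'.t = e.t) (hb : e.b ≤ e'.b) : RW ι j B e' := by
  obtain ⟨X, R, v, φ, hz, hwin, hB⟩ := h
  refine ⟨X, R, v, φ, hz.mono hS hrel ?_ (fun _ _ => le_rfl) hF, ?_, ?_⟩
  · intro a ha
    exact (Nat.add_le_add_left (hw a ha) j).trans (hz.hw a ha)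
  · rw [ht]; exact hwin
  · rw [hS, ht]; linarith

end Pool.Agent.Sel
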