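import Pool.Agent.H8.Sel.Check

/-!
# Bit lemmas for the kernel checker
-/

set_option linter.unusedSectionVars false

namespace Pool.Agent.Sel

open Finset

theorem r1 {a x : Bool} (h : Bool.rec (motive := fun _ => Bool) false x a = true) :
    a = true ∧ x = true := by
  cases a
  · exact absurd h (by simp)
  · exact ⟨rfl, h⟩

theorem r2 {a x : Bool} (h : Bool.rec (motive := fun _ => Bool) x false a = true) :
    a = false ∧ x = true := by
  cases a
  · exact ⟨rfl, h⟩
  · exact absurd h (by simp)

theorem r3 {a x y : Bool} (h : Bool.rec (motive := fun _ => Bool) y x a = true) :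
    (a = true ∧ x = true) ∨ (a = false ∧ y = true) := by
  cases a
  · exact Or.inr ⟨rfl, h⟩
  · exact Or.inl ⟨rfl, h⟩

theorem beq_iff {a b : ℕ} : Nat.beq a b = true ↔ a = b :=
  ⟨Nat.eq_of_beq_eq_true, fun h => by subst h; exact Nat.beq_refl a⟩

theorem beq_false {a b : ℕ} : Nat.beq a b = false ↔ a ≠ b := by
  rw [← Bool.not_eq_true, beq_iff]

theorem ble_iff {a b : ℕ} : Nat.ble a b = true ↔ a ≤ b := by rw [Nat.ble_eq]

theorem ble_false {a b : ℕ} : Nat.ble a b = false ↔ b < a := by
  rw [← Bool.not_eq_true, ble_iff, not_le]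

theorem bitN_eq (S i : ℕ) : bitN S i = S.testBit i := by
  have h : bitN S i = Nat.beq ((S >>> i) &&& 1) 1 := rfl
  rw [h, Nat.testBit_eq_decide_div_mod_eq, Nat.and_one_is_mod, Nat.shiftRight_eq_div_pow,
    Bool.eq_iff_iff, beq_iff, decide_eq_true_iff]

theorem land1_beq0 (S : ℕ) (i : ℕ) : Nat.beq (Nat.land (Nat.shiftRight S i) 1) 0 = !S.testBit i := by
  have h : Nat.beq (Nat.land (Nat.shiftRight S i) 1) 0 = Nat.beq ((S >>> i) &&& 1) 0 := rfl
  rw [h, Nat.testBit_eq_decide_div_mod_eq, Nat.and_one_is_mod, Nat.shiftRight_eq_div_pow]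
  rcases Nat.mod_two_eq_zero_or_one (S / 2 ^ i) with h2 | h2 <;> rw [h2] <;> rfl

theorem shl_eq (a b : ℕ) : Nat.shiftLeft a b = a <<< b := rfl
theorem shr_eq (a b : ℕ) : Nat.shiftRight a b = a >>> b := rfl
theorem lor_eq (a b : ℕ) : Nat.lor a b = a ||| b := rfl
theorem land_eq (a b : ℕ) : Nat.land a b = a &&& b := rfl
theorem xor_eq (a b : ℕ) : Nat.xor a b = a ^^^ b := rfl

theorem testBit_pow1 (i j : ℕ) : (Nat.shiftLeft 1 i).testBit j = decide (i = j) := by
  rw [shl_eq, Nat.one_shiftLeft, Nat.testBit_two_pow]

theorem lor_beq {x y : ℕ} : subB x y = true ↔ ∀ i, x.testBit i = true → y.testBit i = true := by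
  unfold subB
  rw [beq_iff, lor_eq]
  constructor
  · intro h i hi
    rw [← h, Nat.testBit_or, hi, Bool.true_or]
  · intro h
    refine Nat.eq_of_testBit_eq fun i => ?_
    rw [Nat.testBit_or]
    cases hx : x.testBit i with
    | false => rw [Bool.false_or]
    | true => rw [h i hx, Bool.true_or]

theorem colM_lt : colM < 2 ^ 256 := by decide +kernel

theorem colM_testBit_aux : ∀ i < 256, colM.testBit i = decide (i % 16 = 0) := by decide +kernel

theorem colM_testBit (i : ℕ) : colM.testBit i = (decide (i < 256) && decide (i % 16 = 0)) := by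
  by_cases h : i < 256
  · rw [colM_testBit_aux i h]; simp [h]
  · rw [Nat.testBit_lt_two_pow (lt_of_lt_of_le colM_lt (Nat.pow_le_pow_right (by norm_num)
      (not_lt.1 h)))]
    simp [h]

theorem colM16 {c : ℕ} (hc : c < 16) : colM.testBit (16 * c) = true := by
  rw [colM_testBit]
  simp
  omega

theorem rowU_testBit (U a d : ℕ) : (rowU U a).testBit d = (decide (d < 16) && crel U a d) := by
  have h : rowU U a = (U >>> (16 * a)) % 2 ^ 16 := rfl
  rw [h, Nat.testBit_mod_two_pow, Nat.testBit_shiftRight]
  rfl

theorem rowU_lt (U a : ℕ) : rowU U a < 65536 := Nat.mod_lt _ (by norm_num)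

theorem colU_testBit (U a j : ℕ) : (colU U a).testBit j = (U.testBit (a + j) && colM.testBit j) := by
  have h : colU U a = (U >>> a) &&& colM := rfl
  rw [h, Nat.testBit_and, Nat.testBit_shiftRight]

theorem colU_mod {U a j : ℕ} (h : (colU U a).testBit j = true) : j % 16 = 0 := by
  rw [colU_testBit, Bool.and_eq_true, colM_testBit, Bool.and_eq_true] at h
  simpa using h.2.2

theorem colU_lt256 {U a j : ℕ} (h : (colU U a).testBit j = true) : j < 256 := by
  rw [colU_testBit, Bool.and_eq_true, colM_testBit, Bool.and_eq_true] at h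
  simpa using h.2.1

theorem colU_testBit16 {U a c : ℕ} (hc : c < 16) : (colU U a).testBit (16 * c) = crel U c a := by
  rw [colU_testBit, colM16 hc, Bool.and_true]
  unfold crel
  rw [add_comm]

/-- Multiplication of a mask of rows with a row. -/
theorem mul_blk {r : ℕ} (hr : r < 65536) : ∀ (c M : ℕ), (∀ i, M.testBit i = true → i % 16 = 0) →
    ∀ d < 16, (M * r).testBit (16 * c + d) = (M.testBit (16 * c) && r.testBit d) := by
  intro c
  induction c with
  | zero =>
    intro M hM d hd
    have h1 : (M * r).testBit d = ((M * r) % 2 ^ 16).testBit d := by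
      rw [Nat.testBit_mod_two_pow]; simp [hd]
    have h2 : M % 2 ^ 16 = M % 2 := by
      refine Nat.eq_of_testBit_eq fun i => ?_
      have h3 : M % 2 = M % 2 ^ 1 := by rw [pow_one]
      rw [h3, Nat.testBit_mod_two_pow, Nat.testBit_mod_two_pow]
      by_cases hi : i < 1
      · have : i < 16 := by omega
        simp [hi, this]
      · by_cases hi2 : i < 16
        · have : M.testBit i = false := by
            rw [← Bool.not_eq_true]
            intro h4
            have := hM i h4
            omega
          simp [this]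
        · simp [hi, hi2]
    rw [mul_zero, zero_add, h1, Nat.mul_mod, h2, Nat.mod_eq_of_lt (a := r) (by simpa using hr)]
    have h4 : M.testBit 0 = decide (M % 2 = 1) := Nat.testBit_zero M
    rcases Nat.mod_two_eq_zero_or_one M with h5 | h5
    · rw [h4, h5]; simp
    · rw [h4, h5, one_mul, Nat.testBit_mod_two_pow]; simp [hd]
  | succ c ih =>
    intro M hM d hd
    have h0 : 16 * (c + 1) + d = 16 + (16 * c + d) := by ring
    have h0' : 16 * (c + 1) = 16 + 16 * c := by ring
    have e1 : (M * r).testBit (16 + (16 * c + d)) = ((M * r) >>> 16).testBit (16 * c + d) := by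
      rw [Nat.testBit_shiftRight]
    have e2 : M.testBit (16 + 16 * c) = (M >>> 16).testBit (16 * c) := by
      rw [Nat.testBit_shiftRight]
    rw [h0, h0', e1, e2]
    have hM1 : ∀ i, (M >>> 16).testBit i = true → i % 16 = 0 := by
      intro i hi
      rw [Nat.testBit_shiftRight] at hi
      have := hM _ hi
      omega
    have h1 : (M * r) >>> 16 = (M >>> 16) * r := by
      rw [Nat.shiftRight_eq_div_pow, Nat.shiftRight_eq_div_pow]
      have h2 : M % 2 ^ 16 = M % 2 := by
        refine Nat.eq_of_testBit_eq fun i => ?_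
        have h3 : M % 2 = M % 2 ^ 1 := by rw [pow_one]
        rw [h3, Nat.testBit_mod_two_pow, Nat.testBit_mod_two_pow]
        by_cases hi : i < 1
        · have : i < 16 := by omega
          simp [hi, this]
        · by_cases hi2 : i < 16
          · have : M.testBit i = false := by
              rw [← Bool.not_eq_true]
              intro h4
              have := hM i h4
              omega
            simp [this]
          · simp [hi, hi2]
      have h3 := Nat.div_add_mod M (2 ^ 16)
      have h4 : M * r = M % 2 * r + 2 ^ 16 * (M / 2 ^ 16 * r) := by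
        calc M * r = (2 ^ 16 * (M / 2 ^ 16) + M % 2 ^ 16) * r := by rw [h3]
          _ = _ := by rw [h2]; ring
      rw [h4, Nat.add_mul_div_left _ _ (by norm_num)]
      have h5 : M % 2 * r < 2 ^ 16 := by
        have : M % 2 ≤ 1 := by omega
        calc M % 2 * r ≤ 1 * r := Nat.mul_le_mul_right _ this
          _ < 2 ^ 16 := by simpa using hr
      rw [Nat.div_eq_of_lt h5, zero_add]
    rw [h1]
    exact ih _ hM1 d hd

theorem addU_spec {U a b c d : ℕ} (hb : b < 16) (hc : c < 16) (hd : d < 16) :
    crel (addU U a b) c d = true ↔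
      add (fun x y => crel U x y = true) a b c d := by
  have h : addU U a b = U ||| ((colU U a ||| Nat.shiftLeft 1 (16 * a)) *
      (rowU U b ||| Nat.shiftLeft 1 b)) := rfl
  have hr : (rowU U b ||| Nat.shiftLeft 1 b) < 65536 := by
    have : (65536 : ℕ) = 2 ^ 16 := by norm_num
    rw [this]
    refine Nat.or_lt_two_pow (rowU_lt U b) ?_
    rw [shl_eq, Nat.one_shiftLeft]
    exact Nat.pow_lt_pow_right (by norm_num) hb
  have hM : ∀ i, (colU U a ||| Nat.shiftLeft 1 (16 * a)).testBit i = true → i % 16 = 0 := by
    intro i hi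
    rw [Nat.testBit_or, Bool.or_eq_true] at hi
    rcases hi with hi | hi
    · exact colU_mod hi
    · rw [testBit_pow1, decide_eq_true_iff] at hi
      omega
  unfold crel
  rw [h, Nat.testBit_or, mul_blk hr c _ hM d hd, Nat.testBit_or, Nat.testBit_or, testBit_pow1,
    testBit_pow1, colU_testBit16 hc, rowU_testBit]
  simp only [hd, decide_true, Bool.true_and, Bool.or_eq_true, Bool.and_eq_true,
    decide_eq_true_iff]
  unfold add crel
  constructor
  · rintro (h1 | ⟨h1, h2⟩)
    · exact Or.inl h1
    · refine Or.inr ⟨?_, ?_⟩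
      · rcases h1 with h1 | h1
        · exact Or.inr h1
        · left; omega
      · rcases h2 with h2 | h2
        · exact Or.inr h2
        · left; omega
  · rintro (h1 | ⟨h1, h2⟩)
    · exact Or.inl h1
    · refine Or.inr ⟨?_, ?_⟩
      · rcases h1 with h1 | h1
        · right; omega
        · exact Or.inl h1
      · rcases h2 with h2 | h2
        · right; omega
        · exact Or.inl h2

theorem clrRow_spec {U g a b : ℕ} (hb : b < 16) :
    crel (clrRow U g) a b = (crel U a b && !decide (a = g)) := by
  have h : clrRow U g = U ^^^ (U &&& (Nat.shiftLeft 65535 (16 * g))) := rfl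
  unfold crel
  rw [h, Nat.testBit_xor, Nat.testBit_and, shl_eq, Nat.testBit_shiftLeft]
  have h2 : (65535 : ℕ) = 2 ^ 16 - 1 := by norm_num
  rw [h2, Nat.testBit_two_pow_sub_one]
  by_cases hag : a = g
  · subst hag
    have e1 : 16 * a ≤ 16 * a + b := Nat.le_add_right _ _
    have e2 : 16 * a + b - 16 * a < 16 := by omega
    simp [e1]
    omega
  · have e1 : (decide (16 * a + b ≥ 16 * g) && decide (16 * a + b - 16 * g < 16)) = false := by
      rw [Bool.and_eq_false_iff]
      by_cases h3 : 16 * a + b ≥ 16 * g
      · right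
        simp only [decide_eq_false_iff_not]
        omega
      · left
        simp [h3]
    rw [e1]
    simp [hag]

theorem clrDn_spec {U q a b : ℕ} (ha : a < 16) (hb : b < 16) :
    crel (clrDn U q) a b = (crel U a b && !(decide (a = q) || crel U a q)) := by
  have h : clrDn U q = U ^^^ (U &&& ((colU U q ||| Nat.shiftLeft 1 (16 * q)) * 65535)) := rfl
  have hM : ∀ i, (colU U q ||| Nat.shiftLeft 1 (16 * q)).testBit i = true → i % 16 = 0 := by
    intro i hi
    rw [Nat.testBit_or, Bool.or_eq_true] at hi
    rcases hi with hi | hi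
    · exact colU_mod hi
    · rw [testBit_pow1, decide_eq_true_iff] at hi
      omega
  have h65 : (65535 : ℕ).testBit b = true := by
    have h2 : (65535 : ℕ) = 2 ^ 16 - 1 := by norm_num
    rw [h2, Nat.testBit_two_pow_sub_one]
    simp [hb]
  have hq : decide (16 * q = 16 * a) = decide (a = q) := by
    by_cases h : a = q
    · subst h; simp
    · have : ¬ 16 * q = 16 * a := by omega
      simp [h, this]
  show (clrDn U q).testBit (16 * a + b) = _
  rw [h, Nat.testBit_xor, Nat.testBit_and, mul_blk (by norm_num) a _ hM b hb, Nat.testBit_or,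
    testBit_pow1, colU_testBit16 ha, h65, hq]
  unfold crel
  cases U.testBit (16 * a + b) <;> cases U.testBit (16 * a + q) <;> cases decide (a = q) <;> rfl

theorem clrCol_spec {U g a b : ℕ} (hg : g < 16) (ha : a < 16) (hb : b < 16) :
    crel (clrCol U g) a b = (crel U a b && !decide (b = g)) := by
  have h : clrCol U g = U ^^^ (U &&& (Nat.shiftLeft colM g)) := rfl
  unfold crel
  rw [h, Nat.testBit_xor, Nat.testBit_and, shl_eq, Nat.testBit_shiftLeft, colM_testBit]
  by_cases hbg : b = g
  · subst hbg
    have e1 : 16 * a + b ≥ b := Nat.le_add_left _ _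
    have e2 : 16 * a + b - b < 256 := by omega
    have e3 : (16 * a + b - b) % 16 = 0 := by omega
    simp only [e1, e2, e3, decide_true, Bool.and_true, Bool.not_true, Bool.and_false]
    cases U.testBit (16 * a + b) <;> rfl
  · have e1 : (decide (16 * a + b ≥ g) && (decide (16 * a + b - g < 256) &&
        decide ((16 * a + b - g) % 16 = 0))) = false := by
      rw [Bool.and_eq_false_iff]
      by_cases h3 : 16 * a + b ≥ g
      · right
        rw [Bool.and_eq_false_iff]
        right
        simp only [decide_eq_false_iff_not]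
        omega
      · left
        simp [h3]
    rw [e1]
    simp [hbg]

theorem pop4_aux : ∀ x < 16, pop4 x = ∑ i ∈ range 4, (x.testBit i).toNat := by decide +kernel

theorem pop4_spec (S j : ℕ) :
    pop4 (S >>> j) = ∑ i ∈ range 4, (S.testBit (j + i)).toNat := by
  have h1 : pop4 (S >>> j) = pop4 ((S >>> j) % 16) := by
    unfold pop4
    have : Nat.mod (S >>> j) 16 = Nat.mod ((S >>> j) % 16) 16 := (Nat.mod_mod _ _).symm
    rw [this]
  rw [h1, pop4_aux _ (Nat.mod_lt _ (by norm_num))]
  refine sum_congr rfl fun i hi => ?_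
  rw [mem_range] at hi
  have : (16 : ℕ) = 2 ^ 4 := by norm_num
  rw [this, Nat.testBit_mod_two_pow, Nat.testBit_shiftRight]
  simp [hi]

theorem popc_spec (S : ℕ) : popc S = ((range 16).filter (fun i => S.testBit i = true)).card := by
  have h : popc S = pop4 (S >>> 0) + pop4 (S >>> 4) + (pop4 (S >>> 8) + pop4 (S >>> 12)) := rfl
  rw [h, pop4_spec, pop4_spec, pop4_spec, pop4_spec, card_filter]
  have h2 : ∀ i, (if S.testBit i = true then 1 else 0) = (S.testBit i).toNat := by
    intro i
    cases S.testBit i <;> rfl
  simp only [h2, sum_range_succ, sum_range_zero]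
  simp only [Nat.reduceAdd, zero_add, add_zero]
  ring

theorem mod_blk : ∀ (n M : ℕ), (∀ i, M.testBit i = true → i % 16 = 0 ∧ i < 16 * n) →
    M % 65535 = (∑ a ∈ range n, (M.testBit (16 * a)).toNat) % 65535 := by
  intro n
  induction n with
  | zero =>
    intro M hM
    have : M = 0 := by
      refine Nat.eq_of_testBit_eq fun i => ?_
      rw [Nat.zero_testBit, ← Bool.not_eq_true]
      intro h
      have := (hM i h).2
      omega
    rw [this]
    simp
  | succ n ih =>
    intro M hM
    have hM1 : ∀ i, (M >>> 16).testBit i = true → i % 16 = 0 ∧ i < 16 * n := by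
      intro i hi
      rw [Nat.testBit_shiftRight] at hi
      have := hM _ hi
      omega
    have h1 := ih _ hM1
    have h2 : M % 2 ^ 16 = M % 2 := by
      refine Nat.eq_of_testBit_eq fun i => ?_
      have h3 : M % 2 = M % 2 ^ 1 := by rw [pow_one]
      rw [h3, Nat.testBit_mod_two_pow, Nat.testBit_mod_two_pow]
      by_cases hi : i < 1
      · have : i < 16 := by omega
        simp [hi, this]
      · by_cases hi2 : i < 16
        · have : M.testBit i = false := by
            rw [← Bool.not_eq_true]
            intro h4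
            have := (hM i h4).1
            omega
          simp [this]
        · simp [hi, hi2]
    have h3 := Nat.div_add_mod M (2 ^ 16)
    rw [h2, ← Nat.shiftRight_eq_div_pow] at h3
    have h4 : ∑ a ∈ range (n + 1), (M.testBit (16 * a)).toNat =
        ∑ a ∈ range n, ((M >>> 16).testBit (16 * a)).toNat + M % 2 := by
      rw [sum_range_succ']
      congr 1
      · refine sum_congr rfl fun a _ => ?_
        rw [Nat.testBit_shiftRight]
        congr 2
        ring
      · rw [mul_zero, Nat.testBit_zero]
        rcases Nat.mod_two_eq_zero_or_one M with h5 | h5 <;> rw [h5] <;> rfl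
    rw [h4]
    omega

end Pool.Agent.Sel
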