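import Pool.Agent.H8.Sel.CS
import Pool.Agent.H24.Sel.LeafB

/-!
# Kernel checker for tables of states (definitions)

All functions are written with the raw functions on `ℕ` which the kernel evaluates directly and with
bare recursors (this is about three times faster than compiled pattern matching).
-/

namespace Pool.Agent.Sel

/-- Bits at the multiples of `16` below `256`. -/
def colM : ℕ := nat_lit 0x0001000100010001000100010001000100010001000100010001000100010001

/-- Bits at the multiples of `17` below `256`. -/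
def diagM : ℕ := nat_lit 0x8000400020001000080004000200010000800040002000100008000400020001

/-- Elements above `a`. -/
def rowU (U a : ℕ) : ℕ := Nat.mod (Nat.shiftRight U (Nat.mul (nat_lit 16) a)) (nat_lit 65536)

/-- Elements below `a` (bit `16 * c` for `c < a`). -/
def colU (U a : ℕ) : ℕ := Nat.land (Nat.shiftRight U a) colM

/-- Adding the relation `a < b`. -/
def addU (U a b : ℕ) : ℕ :=
  Nat.lor U (Nat.mul (Nat.lor (colU U a) (Nat.shiftLeft (nat_lit 1) (Nat.mul (nat_lit 16) a)))
    (Nat.lor (rowU U b) (Nat.shiftLeft (nat_lit 1) b)))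

/-- Clearing the row of `g`. -/
def clrRow (U g : ℕ) : ℕ :=
  Nat.xor U (Nat.land U (Nat.shiftLeft (nat_lit 65535) (Nat.mul (nat_lit 16) g)))

/-- Clearing the rows of `q` and of the elements below `q`. -/
def clrDn (U q : ℕ) : ℕ :=
  Nat.xor U (Nat.land U (Nat.mul (Nat.lor (colU U q) (Nat.shiftLeft (nat_lit 1)
    (Nat.mul (nat_lit 16) q))) (nat_lit 65535)))

/-- Clearing the column of `g`. -/
def clrCol (U g : ℕ) : ℕ := Nat.xor U (Nat.land U (Nat.shiftLeft colM g))

/-- Bit `i` of `S`. -/
def bitN (S i : ℕ) : Bool :=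
  Nat.beq (Nat.land (Nat.shiftRight S i) (nat_lit 1)) (nat_lit 1)

/-- Nibble `a` of `K`. -/
def nib (K a : ℕ) : ℕ := Nat.mod (Nat.shiftRight K (Nat.mul (nat_lit 4) a)) (nat_lit 16)

/-- Number of bits of a nibble. -/
def pop4 (x : ℕ) : ℕ := nib (nat_lit 0x4332322132212110) (Nat.mod x (nat_lit 16))

/-- Number of bits among the first 16 bits. -/
def popc (S : ℕ) : ℕ :=
  Nat.add (Nat.add (pop4 S) (pop4 (Nat.shiftRight S (nat_lit 4))))
    (Nat.add (pop4 (Nat.shiftRight S (nat_lit 8))) (pop4 (Nat.shiftRight S (nat_lit 12))))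

/-- There are enough elements. -/
noncomputable def bigB (S F t : ℕ) : Bool :=
  Bool.rec (motive := fun _ => Bool)
      (Nat.ble t (Nat.add (popc S) (Nat.div (Nat.add F (nat_lit 1)) (nat_lit 2))))
      true
      (Nat.ble t (Nat.div (Nat.add F (nat_lit 1)) (nat_lit 2)))

/-- `x ⊆ y` for masks. -/
def subB (x y : ℕ) : Bool := Nat.beq (Nat.lor x y) y

/-- Table entries: the solids are `0, .., m - 1`. -/
structure EN where
  m : ℕ
  U : ℕ
  W : ℕ
  F : ℕ
  t : ℕ
  b : ℕ

/-- The table. -/
inductive Tr where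
  | nil : Tr
  | node (e : EN) (l r : Tr) : Tr

/-- Look up the entry `i`. -/
noncomputable def Tr.get (T : Tr) : ℕ → (EN → Bool) → Bool :=
  Tr.rec (motive := fun _ => ℕ → (EN → Bool) → Bool) (fun _ _ => false)
    (fun e _ _ ihl ihr i k =>
      Bool.rec (motive := fun _ => Bool)
      (Bool.rec (motive := fun _ => Bool)
      (ihr (Nat.shiftRight i (nat_lit 1)) k)
      (ihl (Nat.shiftRight i (nat_lit 1)) k)
      (Nat.beq (Nat.land i (nat_lit 1)) (nat_lit 0)))
      (k e)
      (Nat.beq i (nat_lit 1))) T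

/-- Rows of the permuted relation, image of `κ`, weights. -/
noncomputable def rl (U W : ℕ) : ℕ → ℕ → ℕ → ℕ → ℕ → ℕ → (ℕ → ℕ → Bool) → Bool :=
  Nat.rec (motive := fun _ => ℕ → ℕ → ℕ → ℕ → ℕ → (ℕ → ℕ → Bool) → Bool)
    (fun _ _ _ acc msk k => k acc msk)
    (fun _ ih K W' s acc msk k =>
      Bool.rec (motive := fun _ => Bool)
      false
      (Bool.rec (motive := fun _ => Bool)
      false
      (ih (Nat.div K (nat_lit 16)) (Nat.div W' (nat_lit 16)) (Nat.add s (nat_lit 16))
            (Nat.lor acc (Nat.shiftLeft (rowU U (Nat.mod K (nat_lit 16))) s))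
            (Nat.lor msk (Nat.shiftLeft (nat_lit 1) (Nat.mod K (nat_lit 16)))) k)
      (Nat.ble (Nat.mod W' (nat_lit 16)) (nib W (Nat.mod K (nat_lit 16)))))
      (Nat.beq (Nat.land (Nat.shiftRight msk (Nat.mod K (nat_lit 16))) (nat_lit 1)) (nat_lit 0)))

/-- Columns of the permuted relation. -/
noncomputable def cl (U : ℕ) : ℕ → ℕ → ℕ → ℕ → ℕ :=
  Nat.rec (motive := fun _ => ℕ → ℕ → ℕ → ℕ) (fun _ _ acc => acc)
    (fun _ ih K s acc => ih (Nat.div K (nat_lit 16)) (Nat.add s (nat_lit 1))
      (Nat.lor acc (Nat.shiftLeft (colU U (Nat.mod K (nat_lit 16))) s)))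

/-- Comparison of a state with the table entry given by the stream. -/
noncomputable def finB (T : Tr) (N : ℕ) (c : CS) (z : ℕ) (k : ℕ → Bool) : Bool :=
  Bool.rec (motive := fun _ => Bool)
      false
      (T.get (Nat.mod z (nat_lit 1048576)) (fun e =>
      Bool.rec (motive := fun _ => Bool)
      false
      (Bool.rec (motive := fun _ => Bool)
      false
      (Bool.rec (motive := fun _ => Bool)
      false
      (rl c.U c.W e.m (Nat.shiftRight z (nat_lit 20)) e.W (nat_lit 0) (nat_lit 0) (nat_lit 0)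
          (fun acc msk => Bool.rec (motive := fun _ => Bool)
      false
      (Bool.rec (motive := fun _ => Bool)
      false
      (k (Nat.shiftRight z (Nat.add (nat_lit 20) (Nat.mul (nat_lit 4) e.m))))
      (subB (cl acc e.m (Nat.shiftRight z (nat_lit 20)) (nat_lit 0) (nat_lit 0)) e.U))
      (Nat.beq msk c.S)))
      (Nat.ble c.b e.b))
      (Nat.beq e.t c.t))
      (Nat.ble e.F c.F)))
      (Nat.ble (Nat.mod z (nat_lit 1048576)) N)

/-- One simplification step and the continuation `f` (arguments: new state). -/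
noncomputable def stepB (kind g x : ℕ) (c : CS) (f : CS → Bool) : Bool :=
  Bool.rec (motive := fun _ => Bool)
      false
      (Bool.rec (motive := fun _ => Bool)
      (Bool.rec (motive := fun _ => Bool)
      (Bool.rec (motive := fun _ => Bool)
      (Bool.rec (motive := fun _ => Bool)
      (Bool.rec (motive := fun _ => Bool)
      (Bool.rec (motive := fun _ => Bool)
      false
      (Bool.rec (motive := fun _ => Bool)
      false
      (Bool.rec (motive := fun _ => Bool)
      (Bool.rec (motive := fun _ => Bool)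
      (f ⟨c.S, addU c.U g x, c.W, c.F, c.t, c.b⟩)
      false
      (bitN (rowU c.U x) g))
      false
      (Nat.beq g x))
      (bitN c.S x))
      (Nat.beq kind (nat_lit 7)))
      (Bool.rec (motive := fun _ => Bool)
      false
      (Bool.rec (motive := fun _ => Bool)
      false
      (Bool.rec (motive := fun _ => Bool)
      false
      (f ⟨Nat.xor c.S (Nat.shiftLeft (nat_lit 1) g), c.U, c.W, Nat.add c.F (nat_lit 2), c.t,
            Nat.sub c.b (nat_lit 1)⟩)
      (Nat.ble (nat_lit 1) c.b))
      (Nat.beq (rowU c.U g) (nat_lit 0)))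
      (Nat.beq (colU c.U g) (nat_lit 0)))
      (Nat.beq kind (nat_lit 5)))
      (Bool.rec (motive := fun _ => Bool)
      false
      (Bool.rec (motive := fun _ => Bool)
      false
      (Bool.rec (motive := fun _ => Bool)
      false
      (f ⟨Nat.xor c.S (Nat.shiftLeft (nat_lit 1) g), clrCol c.U g, c.W, c.F,
            Nat.sub c.t (nat_lit 1), Nat.sub c.b (nib c.W g)⟩)
      (Nat.ble (nib c.W g) c.b))
      (Nat.ble (nat_lit 2) c.t))
      (Nat.beq (rowU c.U g) (nat_lit 0)))
      (Nat.beq kind (nat_lit 4)))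
      (Bool.rec (motive := fun _ => Bool)
      false
      (Bool.rec (motive := fun _ => Bool)
      false
      (Bool.rec (motive := fun _ => Bool)
      false
      (Bool.rec (motive := fun _ => Bool)
      false
      (Bool.rec (motive := fun _ => Bool)
      (Bool.rec (motive := fun _ => Bool)
      false
      (f ⟨Nat.xor c.S (Nat.shiftLeft (nat_lit 1) g), clrRow c.U g,
            Nat.add c.W (Nat.shiftLeft (nat_lit 1) (Nat.mul (nat_lit 4) x)), c.F, c.t, c.b⟩)
      (bigB (Nat.xor c.S (Nat.shiftLeft (nat_lit 1) g)) c.F c.t))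
      false
      (Nat.ble (nat_lit 15) (nib c.W x)))
      (subB (rowU c.U g) (Nat.lor (rowU c.U x) (Nat.shiftLeft (nat_lit 1) x))))
      (bitN (rowU c.U g) x))
      (bitN c.S x))
      (Nat.beq (colU c.U g) (nat_lit 0)))
      (Nat.beq kind (nat_lit 3)))
      (Bool.rec (motive := fun _ => Bool)
      false
      (Bool.rec (motive := fun _ => Bool)
      false
      (Bool.rec (motive := fun _ => Bool)
      false
      (Bool.rec (motive := fun _ => Bool)
      false
      (f ⟨Nat.xor c.S (Nat.shiftLeft (nat_lit 1) g), c.U, c.W, c.F, c.t,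
            Nat.sub c.b (nat_lit 1)⟩)
      (Nat.ble (nat_lit 1) c.b))
      (bigB (Nat.xor c.S (Nat.shiftLeft (nat_lit 1) g)) c.F c.t))
      (Nat.beq (rowU c.U g) (nat_lit 0)))
      (Nat.beq (colU c.U g) (nat_lit 0)))
      (Nat.beq kind (nat_lit 2)))
      (Bool.rec (motive := fun _ => Bool)
      false
      (Bool.rec (motive := fun _ => Bool)
      false
      (f ⟨Nat.xor c.S (Nat.shiftLeft (nat_lit 1) g), clrRow c.U g, c.W, c.F, c.t, c.b⟩)
      (bigB (Nat.xor c.S (Nat.shiftLeft (nat_lit 1) g)) c.F c.t))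
      (Nat.beq (colU c.U g) (nat_lit 0)))
      (Nat.beq kind (nat_lit 1)))
      (bitN c.S g)

/-- Simplification steps, then comparison with a table entry or (kind `6`) the leaf test. -/
noncomputable def steps (T : Tr) (N : ℕ) : ℕ → CS → ℕ → (ℕ → Bool) → Bool :=
  Nat.rec (motive := fun _ => CS → ℕ → (ℕ → Bool) → Bool) (fun _ _ _ => false)
    (fun _ ih c z k =>
      Bool.rec (motive := fun _ => Bool)
      (Bool.rec (motive := fun _ => Bool)
      (stepB (Nat.land z (nat_lit 7)) (Nat.land (Nat.shiftRight z (nat_lit 3)) (nat_lit 15))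
          (Nat.land (Nat.shiftRight z (nat_lit 7)) (nat_lit 15)) c
          (fun c' => ih c' (Nat.shiftRight z (nat_lit 11)) k))
      (Bool.rec (motive := fun _ => Bool)
      false
      (k (Nat.shiftRight z (nat_lit 3)))
      (leafB c))
      (Nat.beq (Nat.land z (nat_lit 7)) (nat_lit 6)))
      (finB T N c (Nat.shiftRight z (nat_lit 3)) k)
      (Nat.beq (Nat.land z (nat_lit 7)) (nat_lit 0)))

/-- Fuel for the steps. -/
def fuel : ℕ := nat_lit 20

/-- Mask of the `n` such that `n` and `n + 1` are twins. -/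
noncomputable def twM (U W : ℕ) : ℕ → ℕ :=
  Nat.rec (motive := fun _ => ℕ) (nat_lit 0)
    (fun n ih => Nat.lor ih (Bool.rec (motive := fun _ => ℕ) (nat_lit 0)
      (Bool.rec (motive := fun _ => ℕ) (nat_lit 0)
        (Bool.rec (motive := fun _ => ℕ) (nat_lit 0) (Nat.shiftLeft (nat_lit 1) n)
          (Nat.beq (nib W n) (nib W (Nat.succ n))))
        (Nat.beq (colU U n) (colU U (Nat.succ n))))
      (Nat.beq (rowU U n) (rowU U (Nat.succ n)))))

/-- solid : solid for all `a < n`; pairs equivalent to an earlier one by a swap of twins are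
skipped (`tw` is the mask of twins, `tb` says that `b`, `b + 1` are twins). -/
noncomputable def qIn (T : Tr) (N : ℕ) (c : CS) (tw b : ℕ) : ℕ → ℕ → (ℕ → Bool) → Bool :=
  Nat.rec (motive := fun _ => ℕ → (ℕ → Bool) → Bool) (fun z k => k z)
    (fun n ih z k =>
      Bool.rec (motive := fun _ => Bool)
      (Bool.rec (motive := fun _ => Bool)
      (Bool.rec (motive := fun _ => Bool)
      (Bool.rec (motive := fun _ => Bool)
      (steps T N fuel ⟨c.S, addU c.U b n, c.W, c.F, c.t, Nat.sub c.b (nat_lit 1)⟩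
            (Nat.shiftRight z (nat_lit 1)) (fun z' => ih z' k))
      (steps T N fuel ⟨c.S, addU c.U n b, c.W, c.F, c.t, Nat.sub c.b (nat_lit 1)⟩
            (Nat.shiftRight z (nat_lit 1)) (fun z' => ih z' k))
      (Nat.beq (Nat.land z (nat_lit 1)) (nat_lit 0)))
      (ih z k)
      (Bool.rec (motive := fun _ => Bool)
      false
      (Nat.ble (Nat.add n (nat_lit 2)) b)
      (bitN tw n)))
      (ih z k)
      (bitN c.U (Nat.add (Nat.mul (nat_lit 16) b) n)))
      (ih z k)
      (bitN c.U (Nat.add (Nat.mul (nat_lit 16) n) b)))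

/-- solid : solid for all `a < b < n`. -/
noncomputable def qOut (T : Tr) (N : ℕ) (c : CS) (tw : ℕ) : ℕ → ℕ → (ℕ → Bool) → Bool :=
  Nat.rec (motive := fun _ => ℕ → (ℕ → Bool) → Bool) (fun z k => k z)
    (fun n ih z k => Bool.rec (motive := fun _ => Bool)
      (qIn T N c tw n n z (fun z' => ih z' k))
      (ih z k)
      (bitN tw n))

/-- Down-set of `q` as a mask. -/
noncomputable def dm (col : ℕ) : ℕ → ℕ → ℕ :=
  Nat.rec (motive := fun _ => ℕ → ℕ) (fun acc => acc)
    (fun n ih acc => ih (Nat.lor acc (Nat.shiftLeft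
      (Nat.land (Nat.shiftRight col (Nat.mul (nat_lit 16) n)) (nat_lit 1)) n)))

/-- light : solid `q`. -/
noncomputable def lItem (T : Tr) (N : ℕ) (c : CS) (m q z : ℕ) (k : ℕ → Bool) : Bool :=
  Bool.rec (motive := fun _ => Bool)
      (Bool.rec (motive := fun _ => Bool)
      false
      (steps T N fuel ⟨Nat.xor c.S (Nat.land c.S (dm (colU c.U q) m (Nat.shiftLeft (nat_lit 1) q))),
        clrDn c.U q, c.W, c.F, c.t, Nat.sub c.b (nat_lit 1)⟩
        (Nat.shiftRight z (nat_lit 1)) k)
      (bigB (Nat.xor c.S (Nat.land c.S (dm (colU c.U q) m (Nat.shiftLeft (nat_lit 1) q))))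
        c.F c.t))
      (Bool.rec (motive := fun _ => Bool)
      (Bool.rec (motive := fun _ => Bool)
      false
      (steps T N fuel ⟨c.S, c.U, Nat.add c.W (Nat.shiftLeft (nat_lit 1) (Nat.mul (nat_lit 4) q)),
          Nat.sub c.F (nat_lit 1), c.t, c.b⟩ (Nat.shiftRight z (nat_lit 1)) k)
      (bigB c.S (Nat.sub c.F (nat_lit 1)) c.t))
      false
      (Nat.ble (nat_lit 15) (nib c.W q)))
      (Nat.beq (Nat.land z (nat_lit 1)) (nat_lit 0))

/-- unit : solid and light : solid for all `q < n`. -/
noncomputable def nlB (T : Tr) (N : ℕ) (c : CS) (m tw : ℕ) : ℕ → ℕ → (ℕ → Bool) → Bool :=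
  Nat.rec (motive := fun _ => ℕ → (ℕ → Bool) → Bool) (fun z k => k z)
    (fun n ih z k => Bool.rec (motive := fun _ => Bool)
      (Bool.rec (motive := fun _ => Bool)
      (steps T N fuel ⟨Nat.lor c.S (Nat.shiftLeft (nat_lit 1) m), addU c.U n m, c.W,
          Nat.sub c.F (nat_lit 2), c.t, c.b⟩
          (Nat.shiftRight z (nat_lit 1)) (fun z' => lItem T N c m n z' (fun z'' => ih z'' k)))
      (steps T N fuel ⟨Nat.lor c.S (Nat.shiftLeft (nat_lit 1) m), addU c.U m n, c.W,
          Nat.sub c.F (nat_lit 2), c.t, c.b⟩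
          (Nat.shiftRight z (nat_lit 1)) (fun z' => lItem T N c m n z' (fun z'' => ih z'' k)))
      (Nat.beq (Nat.land z (nat_lit 1)) (nat_lit 0)))
      (ih z k)
      (bitN tw n))

/-- unit : unit and light : unit. -/
noncomputable def nnB (T : Tr) (N : ℕ) (c : CS) (m z : ℕ) : Bool :=
  steps T N fuel ⟨Nat.lor c.S (Nat.shiftLeft (nat_lit 3) m), addU c.U m (Nat.succ m), c.W,
    Nat.sub c.F (nat_lit 4), c.t, Nat.succ c.b⟩ z (fun z' =>
    Bool.rec (motive := fun _ => Bool)
      false
      (steps T N fuel ⟨Nat.lor c.S (Nat.shiftLeft (nat_lit 1) m), c.U,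
        Nat.add c.W (Nat.shiftLeft (nat_lit 1) (Nat.mul (nat_lit 4) m)),
        Nat.sub c.F (nat_lit 3), c.t, Nat.succ c.b⟩ z' (fun _ => true))
      (bigB (Nat.lor c.S (Nat.shiftLeft (nat_lit 1) m)) (Nat.sub c.F (nat_lit 3)) c.t))

/-- Mask of the relations between elements `< m`. -/
def fmM (m : ℕ) : ℕ :=
  Nat.mul (Nat.mod colM (Nat.shiftLeft (nat_lit 1) (Nat.mul (nat_lit 16) m)))
    (Nat.sub (Nat.shiftLeft (nat_lit 1) m) (nat_lit 1))

/-- Transitivity. -/
noncomputable def trB (U : ℕ) : ℕ → Bool :=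
  Nat.rec (motive := fun _ => Bool) true
    (fun n ih => Bool.rec (motive := fun _ => Bool)
      false
      ih
      (subB (Nat.mul (colU U n) (rowU U n)) U))

/-- No element is the `t`-th largest one. -/
noncomputable def nrB (U m t : ℕ) : ℕ → Bool :=
  Nat.rec (motive := fun _ => Bool) true
    (fun n ih => Bool.rec (motive := fun _ => Bool)
      ih
      (Bool.rec (motive := fun _ => Bool)
      ih
      false
      (Nat.beq (Nat.add (Nat.succ (popc (rowU U n))) (Nat.mod (colU U n) (nat_lit 65535))) m))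
      (Nat.beq (Nat.succ (popc (rowU U n))) t))

/-- The relation of an entry is a strict order on `0, .., m - 1`; the unused parts are zero. -/
noncomputable def soB (e : EN) : Bool :=
  Bool.rec (motive := fun _ => Bool)
      false
      (Bool.rec (motive := fun _ => Bool)
      false
      (Bool.rec (motive := fun _ => Bool)
      false
      (Bool.rec (motive := fun _ => Bool)
      false
      (Nat.beq (Nat.shiftRight e.W (Nat.mul (nat_lit 4) e.m)) (nat_lit 0))
      (trB e.U e.m))
      (Nat.beq (Nat.land e.U diagM) (nat_lit 0)))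
      (subB e.U (fmM e.m)))
      (Nat.ble e.m (nat_lit 14))

/-- The concrete state of an entry. -/
def EN.cs (e : EN) : CS :=
  ⟨Nat.sub (Nat.shiftLeft (nat_lit 1) e.m) (nat_lit 1), e.U, e.W, e.F, e.t, e.b⟩

/-- Node test. -/
noncomputable def nodeB (T : Tr) (N : ℕ) (e : EN) (z : ℕ) : Bool :=
  Bool.rec (motive := fun _ => Bool)
      false
      (Bool.rec (motive := fun _ => Bool)
      false
      (Bool.rec (motive := fun _ => Bool)
      false
      (Bool.rec (motive := fun _ => Bool)
      (qOut T N e.cs (twM e.U e.W (Nat.pred e.m)) e.m z (fun z' =>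
          nlB T N e.cs e.m (twM e.U e.W (Nat.pred e.m)) e.m z' (fun z'' =>
          nnB T N e.cs e.m z'')))
      (Bool.rec (motive := fun _ => Bool)
      false
      (qOut T N e.cs (twM e.U e.W (Nat.pred e.m)) e.m z (fun _ => true))
      (nrB e.U e.m e.t e.m))
      (Nat.beq e.F (nat_lit 0)))
      (bigB e.cs.S e.F e.t))
      (Nat.ble (nat_lit 1) e.b))
      (Nat.ble (nat_lit 2) e.t)

/-- The test of one entry with its certificate `z`. -/
noncomputable def entryB (T : Tr) (N : ℕ) (e : EN) (z : ℕ) : Bool :=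
  Bool.rec (motive := fun _ => Bool)
      false
      (Bool.rec (motive := fun _ => Bool)
      (nodeB T N e (Nat.shiftRight z (nat_lit 1)))
      (leafB e.cs)
      (Nat.beq (Nat.land z (nat_lit 1)) (nat_lit 0)))
      (soB e)

/-- The test of consecutive entries. -/
noncomputable def chunkB (T : Tr) (N : ℕ) (i : ℕ) (zs : List ℕ) : Bool :=
  List.rec (motive := fun _ => ℕ → Bool) (fun _ => true)
    (fun z _ ih i => Bool.rec (motive := fun _ => Bool)
      false
      (ih (Nat.succ i))
      (T.get i (fun e => entryB T N e z))) zs i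

end Pool.Agent.Sel
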