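import Pool.Agent.H8.Sel.Sound2

/-!
# Leaf potentials of the children of a state from the up-sets of the state
-/

set_option linter.unusedSectionVars false

namespace Pool.Agent.Sel

open Finset

/-- Coefficient of an up-set with `c` elements. -/
def kap (F t c : ℕ) : ℕ := if c < t then 2 ^ c * fl F (t - 1 - c) else 0

/-- Indicator. -/
def ind (Q : Finset ℕ) (x : ℕ) : ℕ := if x ∈ Q then 1 else 0

theorem ind_pos {Q : Finset ℕ} {x : ℕ} (h : x ∈ Q) : ind Q x = 1 := if_pos h

theorem ind_neg {Q : Finset ℕ} {x : ℕ} (h : x ∉ Q) : ind Q x = 0 := if_neg h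

/-- The roots of `S \ Q`. -/
noncomputable def rt (S : Finset ℕ) (rel : ℕ → ℕ → Prop) (Q : Finset ℕ) : Finset ℕ := by
  classical
  exact (S \ Q).filter (fun x => ∀ z ∈ S \ Q, ¬ rel x z)

theorem mem_rt {S : Finset ℕ} {rel : ℕ → ℕ → Prop} {Q : Finset ℕ} {x : ℕ} :
    x ∈ rt S rel Q ↔ x ∈ S ∧ x ∉ Q ∧ ∀ z ∈ S, z ∉ Q → ¬ rel x z := by
  classical
  unfold rt
  rw [mem_filter, mem_sdiff]
  constructor
  · rintro ⟨⟨h1, h2⟩, h3⟩
    exact ⟨h1, h2, fun z hz hzQ => h3 z (mem_sdiff.2 ⟨hz, hzQ⟩)⟩
  · rintro ⟨h1, h2, h3⟩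
    exact ⟨⟨h1, h2⟩, fun z hz => h3 z (mem_sdiff.1 hz).1 (mem_sdiff.1 hz).2⟩

theorem roots_eq (S : Finset ℕ) (rel : ℕ → ℕ → Prop) (Q : Finset ℕ) :
    roots rel (S \ Q) = (rt S rel Q).card := by
  classical
  rfl

theorem roots_ge {S : Finset ℕ} {rel : ℕ → ℕ → Prop} {A : Finset ℕ} (hA : A ⊆ S)
    (h : ∀ x ∈ A, ∀ z ∈ S, ¬ rel x z) : A.card ≤ roots rel S := by
  classical
  unfold roots
  refine card_le_card fun x hx => ?_
  rw [mem_filter]
  exact ⟨hA hx, h x hx⟩

/-- The value of an up-set. -/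
noncomputable def vl (t : ℕ) (S : Finset ℕ) (rel : ℕ → ℕ → Prop) (w : ℕ → ℕ) (F : ℕ)
    (T : Finset ℕ) : ℕ :=
  2 ^ T.card * fl F (t - 1 - T.card) * 2 ^ ((∑ x ∈ T, w x) + roots rel (S \ T))

theorem leafSum_ge {t : ℕ} {S : Finset ℕ} {rel : ℕ → ℕ → Prop} {w : ℕ → ℕ} {F : ℕ}
    (A : Finset (Finset ℕ)) (h : ∀ T ∈ A, T ⊆ S ∧ PUp t S rel T) :
    ∑ T ∈ A, vl t S rel w F T ≤ leafSum t S rel w F := by
  classical
  unfold leafSum
  refine sum_le_sum_of_subset fun T hT => ?_
  rw [mem_filter, mem_powerset]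
  exact h T hT

/-- One family. -/
theorem leafSum_ge1 {t : ℕ} {S : Finset ℕ} {rel : ℕ → ℕ → Prop} {w : ℕ → ℕ} {F : ℕ}
    {A : Finset (Finset ℕ)} {g : Finset ℕ → ℕ}
    (h : ∀ T ∈ A, g T = 0 ∨ (T ⊆ S ∧ PUp t S rel T ∧ g T ≤ vl t S rel w F T)) :
    ∑ T ∈ A, g T ≤ leafSum t S rel w F := by
  classical
  refine le_trans ?_ (leafSum_ge (w := w) (F := F) (A.filter (fun T => T ⊆ S ∧ PUp t S rel T))
    (fun T hT => (mem_filter.1 hT).2))
  rw [sum_filter]
  refine sum_le_sum fun T hT => ?_
  rcases h T hT with h0 | ⟨h1, h2, h3⟩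
  · rw [h0]; exact Nat.zero_le _
  · rw [if_pos ⟨h1, h2⟩]; exact h3

/-- Two families `T` and `insert k T`. -/
theorem leafSum_ge2 {t k : ℕ} {S : Finset ℕ} {rel : ℕ → ℕ → Prop} {w : ℕ → ℕ} {F : ℕ}
    {A : Finset (Finset ℕ)} {g0 g1 : Finset ℕ → ℕ} (hk : ∀ T ∈ A, k ∉ T)
    (h0 : ∀ T ∈ A, g0 T = 0 ∨ (T ⊆ S ∧ PUp t S rel T ∧ g0 T ≤ vl t S rel w F T))
    (h1 : ∀ T ∈ A, g1 T = 0 ∨ (insert k T ⊆ S ∧ PUp t S rel (insert k T) ∧
      g1 T ≤ vl t S rel w F (insert k T))) :
    ∑ T ∈ A, (g0 T + g1 T) ≤ leafSum t S rel w F := by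
  classical
  have hdisj : Disjoint A (A.image (insert k)) := by
    rw [disjoint_left]
    intro T hT hT'
    obtain ⟨T', _, rfl⟩ := mem_image.1 hT'
    exact hk _ hT (mem_insert_self k T')
  have hinj : ∀ T ∈ A, ∀ T' ∈ A, insert k T = insert k T' → T = T' := by
    intro T hT T' hT' h
    have := congrArg (fun Z => Z.erase k) h
    simpa [erase_insert (hk T hT), erase_insert (hk T' hT')] using this
  have h2 := leafSum_ge1 (t := t) (S := S) (rel := rel) (w := w) (F := F)
    (A := A ∪ A.image (insert k)) (g := fun T => if k ∈ T then g1 (T.erase k) else g0 T) ?_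
  · refine le_trans (le_of_eq ?_) h2
    rw [sum_union hdisj, sum_image hinj, sum_add_distrib]
    congr 1
    · exact sum_congr rfl fun T hT => by rw [if_neg (hk T hT)]
    · exact sum_congr rfl fun T hT => by
        rw [if_pos (mem_insert_self k T), erase_insert (hk T hT)]
  · intro T hT
    rcases mem_union.1 hT with hT | hT
    · simp only [if_neg (hk T hT)]
      exact h0 T hT
    · obtain ⟨T', hT', rfl⟩ := mem_image.1 hT
      simp only [if_pos (mem_insert_self k T'), erase_insert (hk T' hT')]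
      exact h1 T' hT'

/-- Three families `T`, `insert k' T` and `insert k (insert k' T)`. -/
theorem leafSum_ge3 {t k k' : ℕ} {S : Finset ℕ} {rel : ℕ → ℕ → Prop} {w : ℕ → ℕ} {F : ℕ}
    {A : Finset (Finset ℕ)} {g0 g1 g2 : Finset ℕ → ℕ} (hkk : k ≠ k') (hk : ∀ T ∈ A, k ∉ T)
    (hk' : ∀ T ∈ A, k' ∉ T)
    (h0 : ∀ T ∈ A, g0 T = 0 ∨ (T ⊆ S ∧ PUp t S rel T ∧ g0 T ≤ vl t S rel w F T))
    (h1 : ∀ T ∈ A, g1 T = 0 ∨ (insert k' T ⊆ S ∧ PUp t S rel (insert k' T) ∧
      g1 T ≤ vl t S rel w F (insert k' T)))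
    (h2 : ∀ T ∈ A, g2 T = 0 ∨ (insert k (insert k' T) ⊆ S ∧
      PUp t S rel (insert k (insert k' T)) ∧ g2 T ≤ vl t S rel w F (insert k (insert k' T)))) :
    ∑ T ∈ A, (g0 T + g1 T + g2 T) ≤ leafSum t S rel w F := by
  classical
  have hdisj : Disjoint A (A.image (insert k')) := by
    rw [disjoint_left]
    intro T hT hT'
    obtain ⟨T', _, rfl⟩ := mem_image.1 hT'
    exact hk' _ hT (mem_insert_self k' T')
  have hinj : ∀ T ∈ A, ∀ T' ∈ A, insert k' T = insert k' T' → T = T' := by
    intro T hT T' hT' h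
    have := congrArg (fun Z => Z.erase k') h
    simpa [erase_insert (hk' T hT), erase_insert (hk' T' hT')] using this
  have h3 := leafSum_ge2 (t := t) (k := k) (S := S) (rel := rel) (w := w) (F := F)
    (A := A ∪ A.image (insert k'))
    (g0 := fun T => if k' ∈ T then g1 (T.erase k') else g0 T)
    (g1 := fun T => if k' ∈ T then g2 (T.erase k') else 0) ?_ ?_ ?_
  · refine le_trans (le_of_eq ?_) h3
    rw [sum_union hdisj, sum_image hinj]
    have e1 : ∀ T ∈ A, ((if k' ∈ T then g1 (T.erase k') else g0 T) +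
        (if k' ∈ T then g2 (T.erase k') else 0)) = g0 T := by
      intro T hT
      rw [if_neg (hk' T hT), if_neg (hk' T hT), add_zero]
    have e2 : ∀ T ∈ A, ((if k' ∈ insert k' T then g1 ((insert k' T).erase k') else
        g0 (insert k' T)) + (if k' ∈ insert k' T then g2 ((insert k' T).erase k') else 0)) =
        g1 T + g2 T := by
      intro T hT
      rw [if_pos (mem_insert_self k' T), if_pos (mem_insert_self k' T),
        erase_insert (hk' T hT)]
    rw [sum_congr rfl e1, sum_congr rfl e2, ← sum_add_distrib]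
    exact sum_congr rfl fun T _ => by ring
  · intro T hT
    rcases mem_union.1 hT with hT | hT
    · exact hk T hT
    · obtain ⟨T', hT', rfl⟩ := mem_image.1 hT
      rw [mem_insert, not_or]
      exact ⟨hkk, hk T' hT'⟩
  · intro T hT
    rcases mem_union.1 hT with hT | hT
    · simp only [if_neg (hk' T hT)]
      exact h0 T hT
    · obtain ⟨T', hT', rfl⟩ := mem_image.1 hT
      simp only [if_pos (mem_insert_self k' T'), erase_insert (hk' T' hT')]
      exact h1 T' hT'
  · intro T hT
    rcases mem_union.1 hT with hT | hT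
    · left
      simp only [if_neg (hk' T hT)]
    · obtain ⟨T', hT', rfl⟩ := mem_image.1 hT
      simp only [if_pos (mem_insert_self k' T'), erase_insert (hk' T' hT')]
      exact h2 T' hT'

section

variable {t : ℕ} {S : Finset ℕ} {rel : ℕ → ℕ → Prop} {w : ℕ → ℕ} {F : ℕ}
  {A : Finset (Finset ℕ)}

/-- The exponent of an up-set. -/
noncomputable def ex (S : Finset ℕ) (rel : ℕ → ℕ → Prop) (w : ℕ → ℕ) (Q : Finset ℕ) : ℕ :=
  (∑ x ∈ Q, w x) + (rt S rel Q).card

/-- Non-roots of the rest. -/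
noncomputable def nr (S : Finset ℕ) (rel : ℕ → ℕ → Prop) (Q : Finset ℕ) : Finset ℕ :=
  (S \ Q) \ rt S rel Q

theorem mem_nr {Q : Finset ℕ} {x : ℕ} : x ∈ nr S rel Q ↔ x ∈ S ∧ x ∉ Q ∧ x ∉ rt S rel Q := by
  unfold nr
  rw [mem_sdiff, mem_sdiff]
  tauto

/-- `2 [x non-root] + [x root]`. -/
noncomputable def vf (S : Finset ℕ) (rel : ℕ → ℕ → Prop) (Q : Finset ℕ) (x : ℕ) : ℕ :=
  2 * ind (nr S rel Q) x + ind (rt S rel Q) x

theorem vf_of_mem {Q : Finset ℕ} {x : ℕ} (h : x ∈ Q) : vf S rel Q x = 0 := by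
  unfold vf
  rw [ind_neg, ind_neg]
  · exact fun h2 => (mem_rt.1 h2).2.1 h
  · exact fun h2 => (mem_nr.1 h2).2.1 h

theorem vf_of_rt {Q : Finset ℕ} {x : ℕ} (h : x ∈ rt S rel Q) : vf S rel Q x = 1 := by
  unfold vf
  rw [ind_neg, ind_pos h]
  exact fun h2 => (mem_nr.1 h2).2.2 h

theorem vf_of_nr {Q : Finset ℕ} {x : ℕ} (h : x ∈ nr S rel Q) : vf S rel Q x = 2 := by
  unfold vf
  rw [ind_pos h, ind_neg]
  exact fun h2 => (mem_nr.1 h).2.2 h2

theorem cases3 {Q : Finset ℕ} {x : ℕ} (hx : x ∈ S) :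
    x ∈ Q ∨ x ∈ rt S rel Q ∨ x ∈ nr S rel Q := by
  by_cases h1 : x ∈ Q
  · exact Or.inl h1
  · by_cases h2 : x ∈ rt S rel Q
    · exact Or.inr (Or.inl h2)
    · exact Or.inr (Or.inr (mem_nr.2 ⟨hx, h1, h2⟩))

theorem kap_of_lt {F t c : ℕ} (h : c < t) : kap F t c = 2 ^ c * fl F (t - 1 - c) := if_pos h

theorem kap_of_ge {F t c : ℕ} (h : t ≤ c) : kap F t c = 0 := if_neg (not_lt.2 h)

/-- solid : solid -/
theorem child_rq (hA : ∀ Q ∈ A, Q ⊆ S ∧ PUp t S rel Q) {a b : ℕ} (ha : a ∈ S) (_hb : b ∈ S) :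
    ∑ Q ∈ A, kap F t Q.card * 2 ^ ex S rel w Q *
      ((2 * ind Q a + ind (rt S rel Q) a) * ind Q b + vf S rel Q a) ≤
      2 * leafSum t S (add rel a b) w F := by
  classical
  -- the value of `Q` for the child
  have key : ∀ Q ∈ A, ¬ (a ∈ Q ∧ b ∉ Q) → PUp t S (add rel a b) Q ∧
      kap F t Q.card * 2 ^ ex S rel w Q *
      ((2 * ind Q a + ind (rt S rel Q) a) * ind Q b + vf S rel Q a) ≤
      2 * vl t S (add rel a b) w F Q := by
    intro Q hQ hab
    obtain ⟨hQS, hc, hup⟩ := hA Q hQ
    refine ⟨⟨hc, ?_⟩, ?_⟩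
    · rintro c hcQ d hd (h1 | ⟨h1, h2⟩)
      · exact hup c hcQ d hd h1
      · have haQ : a ∈ Q := by
          rcases h1 with rfl | h1
          · exact hcQ
          · exact hup c hcQ a ha h1
        have hbQ : b ∈ Q := by
          by_contra h3
          exact hab ⟨haQ, h3⟩
        rcases h2 with rfl | h2
        · exact hbQ
        · exact hup b hbQ d hd h2
    · -- roots
      have hroot : ∀ x ∈ rt S rel Q, (x ≠ a ∨ b ∈ Q) → ∀ z ∈ S \ Q, ¬ add rel a b x z := by
        rintro x hx hxa z hz (h1 | ⟨h1, h2⟩)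
        · exact (mem_rt.1 hx).2.2 z (mem_sdiff.1 hz).1 (mem_sdiff.1 hz).2 h1
        · by_cases hbQ : b ∈ Q
          · rcases h2 with rfl | h2
            · exact (mem_sdiff.1 hz).2 hbQ
            · exact (mem_sdiff.1 hz).2 (hup b hbQ z (mem_sdiff.1 hz).1 h2)
          · have hxa' : x ≠ a := by
              rcases hxa with h | h
              · exact h
              · exact absurd h hbQ
            have haQ : a ∉ Q := fun h => hab ⟨h, hbQ⟩
            rcases h1 with h1 | h1
            · exact hxa' h1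
            · exact (mem_rt.1 hx).2.2 a ha haQ h1
      have hsub : rt S rel Q ⊆ S \ Q := fun x hx =>
        mem_sdiff.2 ⟨(mem_rt.1 hx).1, (mem_rt.1 hx).2.1⟩
      -- the main inequality
      have hmain : 2 ^ (rt S rel Q).card *
          ((2 * ind Q a + ind (rt S rel Q) a) * ind Q b + vf S rel Q a) ≤
          2 * 2 ^ roots (add rel a b) (S \ Q) := by
        by_cases hbQ : b ∈ Q
        · have h1 : (rt S rel Q).card ≤ roots (add rel a b) (S \ Q) :=
            roots_ge hsub (fun x hx => hroot x hx (Or.inr hbQ))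
          have h2 : (2 * ind Q a + ind (rt S rel Q) a) * ind Q b + vf S rel Q a = 2 := by
            rw [ind_pos hbQ]
            rcases cases3 (rel := rel) (Q := Q) ha with h | h | h
            · rw [ind_pos h, ind_neg (fun h2 => (mem_rt.1 h2).2.1 h), vf_of_mem h]
            · rw [ind_neg (mem_rt.1 h).2.1, ind_pos h, vf_of_rt h]
            · rw [ind_neg (mem_nr.1 h).2.1, ind_neg (mem_nr.1 h).2.2, vf_of_nr h]
          rw [h2, mul_comm]
          exact Nat.mul_le_mul_left 2 (Nat.pow_le_pow_right (by norm_num) h1)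
        · have haQ : a ∉ Q := fun h => hab ⟨h, hbQ⟩
          rw [ind_neg hbQ, mul_zero, zero_add]
          rcases cases3 (rel := rel) (Q := Q) ha with h | h | h
          · exact absurd h haQ
          · rw [vf_of_rt h, mul_one]
            have h1 : ((rt S rel Q).erase a).card ≤ roots (add rel a b) (S \ Q) :=
              roots_ge ((erase_subset _ _).trans hsub) (fun x hx =>
                hroot x (mem_erase.1 hx).2 (Or.inl (mem_erase.1 hx).1))
            rw [card_erase_of_mem h] at h1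
            have h2 : (rt S rel Q).card ≤ roots (add rel a b) (S \ Q) + 1 := by omega
            calc 2 ^ (rt S rel Q).card ≤ 2 ^ (roots (add rel a b) (S \ Q) + 1) :=
                  Nat.pow_le_pow_right (by norm_num) h2
              _ = _ := by rw [pow_succ, mul_comm]
          · rw [vf_of_nr h, mul_comm]
            have hne : ∀ x ∈ rt S rel Q, x ≠ a := by
              rintro x hx rfl
              exact (mem_nr.1 h).2.2 hx
            have h1 : (rt S rel Q).card ≤ roots (add rel a b) (S \ Q) :=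
              roots_ge hsub (fun x hx => hroot x hx (Or.inl (hne x hx)))
            exact Nat.mul_le_mul_left 2 (Nat.pow_le_pow_right (by norm_num) h1)
      rw [kap_of_lt hc]
      unfold ex vl
      rw [pow_add, pow_add]
      calc 2 ^ Q.card * fl F (t - 1 - Q.card) * (2 ^ (∑ x ∈ Q, w x) * 2 ^ (rt S rel Q).card) *
            ((2 * ind Q a + ind (rt S rel Q) a) * ind Q b + vf S rel Q a)
          = (2 ^ Q.card * fl F (t - 1 - Q.card) * 2 ^ (∑ x ∈ Q, w x)) * (2 ^ (rt S rel Q).card *
            ((2 * ind Q a + ind (rt S rel Q) a) * ind Q b + vf S rel Q a)) := by ring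
        _ ≤ (2 ^ Q.card * fl F (t - 1 - Q.card) * 2 ^ (∑ x ∈ Q, w x)) *
            (2 * 2 ^ roots (add rel a b) (S \ Q)) := Nat.mul_le_mul_left _ hmain
        _ = _ := by ring
  have h1 := leafSum_ge (t := t) (S := S) (rel := add rel a b) (w := w) (F := F)
    (A.filter (fun Q => ¬ (a ∈ Q ∧ b ∉ Q))) (fun Q hQ =>
      ⟨(hA Q (mem_filter.1 hQ).1).1, (key Q (mem_filter.1 hQ).1 (mem_filter.1 hQ).2).1⟩)
  refine le_trans ?_ (Nat.mul_le_mul_left 2 h1)
  rw [mul_sum, sum_filter]
  refine sum_le_sum fun Q hQ => ?_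
  by_cases hab : a ∈ Q ∧ b ∉ Q
  · rw [if_neg (not_not.2 hab), ind_neg hab.2, vf_of_mem hab.1]
    simp
  · rw [if_pos hab]
    exact (key Q hQ hab).2

theorem child_l1 (hA : ∀ Q ∈ A, Q ⊆ S ∧ PUp t S rel Q) {q : ℕ} :
    ∑ Q ∈ A, kap F t Q.card * 2 ^ ex S rel w Q * (1 + ind Q q) ≤
      leafSum t S rel (Function.update w q (w q + 1)) F := by
  classical
  refine leafSum_ge1 (fun Q hQ => Or.inr ⟨(hA Q hQ).1, (hA Q hQ).2, ?_⟩)
  rw [kap_of_lt (hA Q hQ).2.1]
  unfold ex vl
  rw [roots_eq]
  have h1 : ∑ x ∈ Q, Function.update w q (w q + 1) x = ∑ x ∈ Q, w x + ind Q q := by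
    by_cases hq : q ∈ Q
    · rw [ind_pos hq, ← add_sum_erase Q _ hq, ← add_sum_erase Q w hq, Function.update_self]
      have : ∑ x ∈ Q.erase q, Function.update w q (w q + 1) x = ∑ x ∈ Q.erase q, w x :=
        sum_congr rfl fun x hx => Function.update_of_ne (mem_erase.1 hx).1 _ _
      rw [this]
      ring
    · rw [ind_neg hq, add_zero]
      refine sum_congr rfl fun x hx => Function.update_of_ne ?_ _ _
      rintro rfl
      exact hq hx
  rw [h1]
  have h2 : 1 + ind Q q = 2 ^ ind Q q := by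
    by_cases hq : q ∈ Q
    · rw [ind_pos hq]; rfl
    · rw [ind_neg hq]; rfl
  rw [h2, pow_add, pow_add, pow_add]
  exact le_of_eq (by ring)

theorem child_l2 (hA : ∀ Q ∈ A, Q ⊆ S ∧ PUp t S rel Q) {q : ℕ} (hq : q ∈ S) (S' : Finset ℕ)
    (hS' : ∀ a, a ∈ S' ↔ a ∈ S ∧ ¬ (a = q ∨ rel a q)) :
    ∑ Q ∈ A, kap F t Q.card * 2 ^ ex S rel w Q * vf S rel Q q ≤
      2 * leafSum t S' rel w F := by
  classical
  have key : ∀ Q ∈ A, q ∉ Q → (Q ⊆ S' ∧ PUp t S' rel Q) ∧
      kap F t Q.card * 2 ^ ex S rel w Q * vf S rel Q q ≤ 2 * vl t S' rel w F Q := by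
    intro Q hQ hqQ
    obtain ⟨hQS, hc, hup⟩ := hA Q hQ
    refine ⟨⟨?_, hc, ?_⟩, ?_⟩
    · intro a ha
      rw [hS']
      refine ⟨hQS ha, ?_⟩
      rintro (rfl | h)
      · exact hqQ ha
      · exact hqQ (hup a ha q hq h)
    · intro a ha c hc h
      exact hup a ha c ((hS' c).1 hc).1 h
    · have hroot : ∀ x ∈ rt S rel Q, x ≠ q → x ∈ S' \ Q ∧ ∀ z ∈ S' \ Q, ¬ rel x z := by
        intro x hx hxq
        obtain ⟨h1, h2, h3⟩ := mem_rt.1 hx
        refine ⟨mem_sdiff.2 ⟨(hS' x).2 ⟨h1, ?_⟩, h2⟩, ?_⟩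
        · rintro (h4 | h4)
          · exact hxq h4
          · exact h3 q hq hqQ h4
        · intro z hz
          exact h3 z ((hS' z).1 (mem_sdiff.1 hz).1).1 (mem_sdiff.1 hz).2
      have hmain : 2 ^ (rt S rel Q).card * vf S rel Q q ≤ 2 * 2 ^ roots rel (S' \ Q) := by
        rcases cases3 (rel := rel) (Q := Q) hq with h | h | h
        · exact absurd h hqQ
        · rw [vf_of_rt h, mul_one]
          have h1 : ((rt S rel Q).erase q).card ≤ roots rel (S' \ Q) :=
            roots_ge (fun x hx => (hroot x (mem_erase.1 hx).2 (mem_erase.1 hx).1).1)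
              (fun x hx => (hroot x (mem_erase.1 hx).2 (mem_erase.1 hx).1).2)
          rw [card_erase_of_mem h] at h1
          have h2 : (rt S rel Q).card ≤ roots rel (S' \ Q) + 1 := by omega
          calc 2 ^ (rt S rel Q).card ≤ 2 ^ (roots rel (S' \ Q) + 1) :=
                Nat.pow_le_pow_right (by norm_num) h2
            _ = _ := by rw [pow_succ, mul_comm]
        · rw [vf_of_nr h, mul_comm]
          have hne : ∀ x ∈ rt S rel Q, x ≠ q := by
            rintro x hx rfl
            exact (mem_nr.1 h).2.2 hx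
          have h1 : (rt S rel Q).card ≤ roots rel (S' \ Q) :=
            roots_ge (fun x hx => (hroot x hx (hne x hx)).1)
              (fun x hx => (hroot x hx (hne x hx)).2)
          exact Nat.mul_le_mul_left 2 (Nat.pow_le_pow_right (by norm_num) h1)
      rw [kap_of_lt hc]
      unfold ex vl
      rw [pow_add, pow_add]
      calc 2 ^ Q.card * fl F (t - 1 - Q.card) * (2 ^ (∑ x ∈ Q, w x) * 2 ^ (rt S rel Q).card) *
            vf S rel Q q
          = (2 ^ Q.card * fl F (t - 1 - Q.card) * 2 ^ (∑ x ∈ Q, w x)) *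
            (2 ^ (rt S rel Q).card * vf S rel Q q) := by ring
        _ ≤ (2 ^ Q.card * fl F (t - 1 - Q.card) * 2 ^ (∑ x ∈ Q, w x)) *
            (2 * 2 ^ roots rel (S' \ Q)) := Nat.mul_le_mul_left _ hmain
        _ = _ := by ring
  have h1 := leafSum_ge (t := t) (S := S') (rel := rel) (w := w) (F := F)
    (A.filter (fun Q => q ∉ Q)) (fun Q hQ =>
      (key Q (mem_filter.1 hQ).1 (mem_filter.1 hQ).2).1)
  refine le_trans ?_ (Nat.mul_le_mul_left 2 h1)
  rw [mul_sum, sum_filter]
  refine sum_le_sum fun Q hQ => ?_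
  by_cases hqQ : q ∈ Q
  · rw [if_neg (not_not.2 hqQ), vf_of_mem hqQ]
    simp
  · rw [if_pos hqQ]
    exact (key Q hQ hqQ).2

theorem sum_upd {Q : Finset ℕ} {k v : ℕ} (hk : k ∉ Q) :
    ∑ x ∈ Q, Function.update w k v x = ∑ x ∈ Q, w x := by
  refine sum_congr rfl fun x hx => Function.update_of_ne ?_ _ _
  rintro rfl
  exact hk hx

theorem sum_upd_insert {Q : Finset ℕ} {k v : ℕ} (hk : k ∉ Q) :
    ∑ x ∈ insert k Q, Function.update w k v x = v + ∑ x ∈ Q, w x := by
  rw [sum_insert hk, Function.update_self, sum_upd hk]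

/-- the value of an up-set with a lower bound for its roots -/
theorem vl_ge {t F : ℕ} {S' : Finset ℕ} {rel' : ℕ → ℕ → Prop} {w' : ℕ → ℕ} {T : Finset ℕ}
    {c e : ℕ} (hT : T.card = c) (hct : c < t)
    (he : e ≤ (∑ x ∈ T, w' x) + roots rel' (S' \ T)) :
    kap F t c * 2 ^ e ≤ vl t S' rel' w' F T := by
  rw [kap_of_lt hct]
  unfold vl
  rw [hT]
  exact Nat.mul_le_mul_left _ (Nat.pow_le_pow_right (by norm_num) he)

theorem child_n1 (hA : ∀ Q ∈ A, Q ⊆ S ∧ PUp t S rel Q) {q k : ℕ} (_hq : q ∈ S) (hk : k ∉ S) :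
    ∑ Q ∈ A, (kap F t Q.card * 2 ^ ex S rel w Q * (1 + ind Q q) +
      kap F t (Q.card + 1) * 2 ^ ex S rel w Q * ind Q q) ≤
      leafSum t (insert k S) (add (iso rel k) k q) (Function.update w k 0) F := by
  classical
  have hkQ : ∀ Q ∈ A, k ∉ Q := fun Q hQ h => hk ((hA Q hQ).1 h)
  have hroot : ∀ Q ∈ A, ∀ x ∈ rt S rel Q, ∀ z ∈ insert k S, z ∉ Q →
      ¬ add (iso rel k) k q x z := by
    rintro Q hQ x hx z hz hzQ (⟨h1, h2, h3⟩ | ⟨h1, h2⟩)
    · rcases mem_insert.1 hz with rfl | hz
      · exact h2 rfl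
      · exact (mem_rt.1 hx).2.2 z hz hzQ h3
    · rcases h1 with rfl | ⟨h1, h3, h4⟩
      · exact hk (mem_rt.1 hx).1
      · exact h3 rfl
  refine leafSum_ge2 (k := k) hkQ ?_ ?_
  · intro Q hQ
    obtain ⟨hQS, hc, hup⟩ := hA Q hQ
    right
    refine ⟨hQS.trans (subset_insert k S), ⟨hc, ?_⟩, ?_⟩
    · rintro a ha c hcS (⟨h1, h2, h3⟩ | ⟨h1, h2⟩)
      · rcases mem_insert.1 hcS with rfl | hcS
        · exact absurd rfl h2
        · exact hup a ha c hcS h3
      · rcases h1 with rfl | ⟨h1, h3, h4⟩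
        · exact absurd ha (hkQ Q hQ)
        · exact absurd rfl h3
    · have hsdiff : ∀ x ∈ rt S rel Q, x ∈ insert k S \ Q := fun x hx =>
        mem_sdiff.2 ⟨mem_insert_of_mem (mem_rt.1 hx).1, (mem_rt.1 hx).2.1⟩
      by_cases hqQ : q ∈ Q
      · have hkr : ∀ z ∈ insert k S \ Q, ¬ add (iso rel k) k q k z := by
          rintro z hz (⟨h1, _⟩ | ⟨_, h2⟩)
          · exact h1 rfl
          · rcases h2 with rfl | ⟨h2, h3, h4⟩
            · exact (mem_sdiff.1 hz).2 hqQ
            · rcases mem_insert.1 (mem_sdiff.1 hz).1 with rfl | hzS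
              · exact h3 rfl
              · exact (mem_sdiff.1 hz).2 (hup q hqQ z hzS h4)
        have h1 : (insert k (rt S rel Q)).card ≤
            roots (add (iso rel k) k q) (insert k S \ Q) := by
          refine roots_ge ?_ ?_
          · intro x hx
            rcases mem_insert.1 hx with rfl | hx
            · exact mem_sdiff.2 ⟨mem_insert_self _ _, hkQ Q hQ⟩
            · exact hsdiff x hx
          · intro x hx z hz
            rcases mem_insert.1 hx with rfl | hx
            · exact hkr z hz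
            · exact hroot Q hQ x hx z (mem_sdiff.1 hz).1 (mem_sdiff.1 hz).2
        rw [card_insert_of_notMem (fun h => hk (mem_rt.1 h).1)] at h1
        rw [ind_pos hqQ]
        have h2 := vl_ge (F := F) (t := t) (S' := insert k S) (rel' := add (iso rel k) k q)
          (w' := Function.update w k 0) (T := Q) (c := Q.card) (e := ex S rel w Q + 1) rfl hc (by
            rw [sum_upd (hkQ Q hQ)]
            unfold ex
            omega)
        rw [pow_succ] at h2
        calc _ = kap F t Q.card * (2 ^ ex S rel w Q * 2) := by ring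
          _ ≤ _ := h2
      · rw [ind_neg hqQ, add_zero, mul_one]
        refine vl_ge rfl hc ?_
        rw [sum_upd (hkQ Q hQ)]
        unfold ex
        have h1 : (rt S rel Q).card ≤ roots (add (iso rel k) k q) (insert k S \ Q) :=
          roots_ge hsdiff (fun x hx z hz =>
            hroot Q hQ x hx z (mem_sdiff.1 hz).1 (mem_sdiff.1 hz).2)
        omega
  · intro Q hQ
    obtain ⟨hQS, hc, hup⟩ := hA Q hQ
    by_cases hqQ : q ∈ Q
    · by_cases hct : Q.card + 1 < t
      · right
        refine ⟨insert_subset_insert k hQS, ⟨?_, ?_⟩, ?_⟩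
        · rw [card_insert_of_notMem (hkQ Q hQ)]; exact hct
        · rintro a ha c hcS (⟨h1, h2, h3⟩ | ⟨h1, h2⟩)
          · rcases mem_insert.1 ha with rfl | ha
            · exact absurd rfl h1
            · rcases mem_insert.1 hcS with rfl | hcS
              · exact absurd rfl h2
              · exact mem_insert_of_mem (hup a ha c hcS h3)
          · rcases h2 with rfl | ⟨h2, h3, h4⟩
            · exact mem_insert_of_mem hqQ
            · rcases mem_insert.1 hcS with rfl | hcS
              · exact mem_insert_self _ _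
              · exact mem_insert_of_mem (hup q hqQ c hcS h4)
        · rw [ind_pos hqQ, mul_one]
          refine vl_ge (card_insert_of_notMem (hkQ Q hQ)) hct ?_
          rw [sum_upd_insert (hkQ Q hQ)]
          unfold ex
          have h1 : (rt S rel Q).card ≤
              roots (add (iso rel k) k q) (insert k S \ insert k Q) := by
            refine roots_ge ?_ ?_
            · intro x hx
              refine mem_sdiff.2 ⟨mem_insert_of_mem (mem_rt.1 hx).1, ?_⟩
              rw [mem_insert, not_or]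
              refine ⟨?_, (mem_rt.1 hx).2.1⟩
              rintro rfl
              exact hk (mem_rt.1 hx).1
            · intro x hx z hz
              refine hroot Q hQ x hx z (mem_sdiff.1 hz).1 ?_
              exact fun h => (mem_sdiff.1 hz).2 (mem_insert_of_mem h)
          omega
      · left
        rw [kap_of_ge (not_lt.1 hct), zero_mul, zero_mul]
    · left
      rw [ind_neg hqQ, mul_zero]

theorem child_n2 (hA : ∀ Q ∈ A, Q ⊆ S ∧ PUp t S rel Q) {q k : ℕ} (hq : q ∈ S) (hk : k ∉ S) :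
    ∑ Q ∈ A, (kap F t Q.card * 2 ^ ex S rel w Q * vf S rel Q q +
      kap F t (Q.card + 1) * 2 ^ ex S rel w Q) ≤
      leafSum t (insert k S) (add (iso rel k) q k) (Function.update w k 0) F := by
  classical
  have hkQ : ∀ Q ∈ A, k ∉ Q := fun Q hQ h => hk ((hA Q hQ).1 h)
  have hqk : q ≠ k := fun h => hk (h ▸ hq)
  have hroot : ∀ Q ∈ A, ∀ x ∈ rt S rel Q, (x ≠ q ∧ q ∉ Q) → ∀ z ∈ insert k S, z ∉ Q →
      ¬ add (iso rel k) q k x z := by
    rintro Q hQ x hx hxq z hz hzQ (⟨h1, h2, h3⟩ | ⟨h1, h2⟩)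
    · rcases mem_insert.1 hz with rfl | hz
      · exact h2 rfl
      · exact (mem_rt.1 hx).2.2 z hz hzQ h3
    · rcases h1 with rfl | ⟨h1, h3, h4⟩
      · exact hxq.1 rfl
      · exact (mem_rt.1 hx).2.2 q hq hxq.2 h4
  refine leafSum_ge2 (k := k) hkQ ?_ ?_
  · intro Q hQ
    obtain ⟨hQS, hc, hup⟩ := hA Q hQ
    by_cases hqQ : q ∈ Q
    · left
      rw [vf_of_mem hqQ, mul_zero]
    right
    refine ⟨hQS.trans (subset_insert k S), ⟨hc, ?_⟩, ?_⟩
    · rintro a ha c hcS (⟨h1, h2, h3⟩ | ⟨h1, h2⟩)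
      · rcases mem_insert.1 hcS with rfl | hcS
        · exact absurd rfl h2
        · exact hup a ha c hcS h3
      · rcases h1 with rfl | ⟨h1, h3, h4⟩
        · exact absurd ha hqQ
        · exact absurd (hup a ha q hq h4) hqQ
    · have hsdiff : ∀ x ∈ rt S rel Q, x ∈ insert k S \ Q := fun x hx =>
        mem_sdiff.2 ⟨mem_insert_of_mem (mem_rt.1 hx).1, (mem_rt.1 hx).2.1⟩
      have hkr : ∀ z ∈ insert k S \ Q, ¬ add (iso rel k) q k k z := by
        rintro z hz (⟨h1, _⟩ | ⟨h1, h2⟩)
        · exact h1 rfl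
        · rcases h1 with h1 | ⟨h1, _⟩
          · exact hqk h1.symm
          · exact h1 rfl
      have h1 : (insert k ((rt S rel Q).erase q)).card ≤
          roots (add (iso rel k) q k) (insert k S \ Q) := by
        refine roots_ge ?_ ?_
        · intro x hx
          rcases mem_insert.1 hx with rfl | hx
          · exact mem_sdiff.2 ⟨mem_insert_self _ _, hkQ Q hQ⟩
          · exact hsdiff x (mem_erase.1 hx).2
        · intro x hx z hz
          rcases mem_insert.1 hx with rfl | hx
          · exact hkr z hz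
          · exact hroot Q hQ x (mem_erase.1 hx).2 ⟨(mem_erase.1 hx).1, hqQ⟩ z
              (mem_sdiff.1 hz).1 (mem_sdiff.1 hz).2
      rw [card_insert_of_notMem (fun h => hk (mem_rt.1 (mem_erase.1 h).2).1)] at h1
      rcases cases3 (rel := rel) (Q := Q) hq with h | h | h
      · exact absurd h hqQ
      · rw [vf_of_rt h, mul_one]
        rw [card_erase_of_mem h] at h1
        refine vl_ge rfl hc ?_
        rw [sum_upd (hkQ Q hQ)]
        unfold ex
        omega
      · rw [vf_of_nr h]
        rw [erase_eq_of_notMem (mem_nr.1 h).2.2] at h1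
        have h2 := vl_ge (F := F) (t := t) (S' := insert k S) (rel' := add (iso rel k) q k)
          (w' := Function.update w k 0) (T := Q) (c := Q.card) (e := ex S rel w Q + 1) rfl hc (by
            rw [sum_upd (hkQ Q hQ)]
            unfold ex
            omega)
        rw [pow_succ] at h2
        calc _ = kap F t Q.card * (2 ^ ex S rel w Q * 2) := by ring
          _ ≤ _ := h2
  · intro Q hQ
    obtain ⟨hQS, hc, hup⟩ := hA Q hQ
    by_cases hct : Q.card + 1 < t
    · right
      refine ⟨insert_subset_insert k hQS, ⟨?_, ?_⟩, ?_⟩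
      · rw [card_insert_of_notMem (hkQ Q hQ)]; exact hct
      · rintro a ha c hcS (⟨h1, h2, h3⟩ | ⟨h1, h2⟩)
        · rcases mem_insert.1 ha with rfl | ha
          · exact absurd rfl h1
          · rcases mem_insert.1 hcS with rfl | hcS
            · exact absurd rfl h2
            · exact mem_insert_of_mem (hup a ha c hcS h3)
        · rcases h2 with rfl | ⟨h2, _⟩
          · exact mem_insert_self _ _
          · exact absurd rfl h2
      · refine vl_ge (card_insert_of_notMem (hkQ Q hQ)) hct ?_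
        rw [sum_upd_insert (hkQ Q hQ)]
        unfold ex
        have h1 : (rt S rel Q).card ≤
            roots (add (iso rel k) q k) (insert k S \ insert k Q) := by
          refine roots_ge ?_ ?_
          · intro x hx
            refine mem_sdiff.2 ⟨mem_insert_of_mem (mem_rt.1 hx).1, ?_⟩
            rw [mem_insert, not_or]
            refine ⟨?_, (mem_rt.1 hx).2.1⟩
            rintro rfl
            exact hk (mem_rt.1 hx).1
          · rintro x hx z hz (⟨h1, h2, h3⟩ | ⟨h1, h2⟩)
            · rcases mem_insert.1 (mem_sdiff.1 hz).1 with rfl | hzS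
              · exact h2 rfl
              · exact (mem_rt.1 hx).2.2 z hzS
                  (fun h => (mem_sdiff.1 hz).2 (mem_insert_of_mem h)) h3
            · rcases h2 with rfl | ⟨h2, _⟩
              · exact (mem_sdiff.1 hz).2 (mem_insert_self _ _)
              · exact h2 rfl
        omega
    · left
      rw [kap_of_ge (not_lt.1 hct), zero_mul]

theorem child_ln (hA : ∀ Q ∈ A, Q ⊆ S ∧ PUp t S rel Q) {k : ℕ} (hk : k ∉ S) :
    ∑ Q ∈ A, (kap F t Q.card * 2 ^ ex S rel w Q * 2 +
      kap F t (Q.card + 1) * 2 ^ ex S rel w Q * 2) ≤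
      leafSum t (insert k S) (iso rel k) (Function.update w k 1) F := by
  classical
  have hkQ : ∀ Q ∈ A, k ∉ Q := fun Q hQ h => hk ((hA Q hQ).1 h)
  have hroot : ∀ Q ∈ A, ∀ x ∈ rt S rel Q, ∀ z ∈ insert k S, z ∉ Q → ¬ iso rel k x z := by
    rintro Q hQ x hx z hz hzQ ⟨h1, h2, h3⟩
    rcases mem_insert.1 hz with rfl | hz
    · exact h2 rfl
    · exact (mem_rt.1 hx).2.2 z hz hzQ h3
  refine leafSum_ge2 (k := k) hkQ ?_ ?_
  · intro Q hQ
    obtain ⟨hQS, hc, hup⟩ := hA Q hQ
    right
    refine ⟨hQS.trans (subset_insert k S), ⟨hc, ?_⟩, ?_⟩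
    · rintro a ha c hcS ⟨h1, h2, h3⟩
      rcases mem_insert.1 hcS with rfl | hcS
      · exact absurd rfl h2
      · exact hup a ha c hcS h3
    · have h1 : (insert k (rt S rel Q)).card ≤ roots (iso rel k) (insert k S \ Q) := by
        refine roots_ge ?_ ?_
        · intro x hx
          rcases mem_insert.1 hx with rfl | hx
          · exact mem_sdiff.2 ⟨mem_insert_self _ _, hkQ Q hQ⟩
          · exact mem_sdiff.2 ⟨mem_insert_of_mem (mem_rt.1 hx).1, (mem_rt.1 hx).2.1⟩
        · intro x hx z hz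
          rcases mem_insert.1 hx with rfl | hx
          · exact fun h => h.1 rfl
          · exact hroot Q hQ x hx z (mem_sdiff.1 hz).1 (mem_sdiff.1 hz).2
      rw [card_insert_of_notMem (fun h => hk (mem_rt.1 h).1)] at h1
      have h2 := vl_ge (F := F) (t := t) (S' := insert k S) (rel' := iso rel k)
        (w' := Function.update w k 1) (T := Q) (c := Q.card) (e := ex S rel w Q + 1) rfl hc (by
          rw [sum_upd (hkQ Q hQ)]
          unfold ex
          omega)
      rw [pow_succ] at h2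
      calc _ = kap F t Q.card * (2 ^ ex S rel w Q * 2) := by ring
        _ ≤ _ := h2
  · intro Q hQ
    obtain ⟨hQS, hc, hup⟩ := hA Q hQ
    by_cases hct : Q.card + 1 < t
    · right
      refine ⟨insert_subset_insert k hQS, ⟨?_, ?_⟩, ?_⟩
      · rw [card_insert_of_notMem (hkQ Q hQ)]; exact hct
      · rintro a ha c hcS ⟨h1, h2, h3⟩
        rcases mem_insert.1 ha with rfl | ha
        · exact absurd rfl h1
        · rcases mem_insert.1 hcS with rfl | hcS
          · exact absurd rfl h2
          · exact mem_insert_of_mem (hup a ha c hcS h3)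
      · have h1 : (rt S rel Q).card ≤ roots (iso rel k) (insert k S \ insert k Q) := by
          refine roots_ge ?_ ?_
          · intro x hx
            refine mem_sdiff.2 ⟨mem_insert_of_mem (mem_rt.1 hx).1, ?_⟩
            rw [mem_insert, not_or]
            refine ⟨?_, (mem_rt.1 hx).2.1⟩
            rintro rfl
            exact hk (mem_rt.1 hx).1
          · intro x hx z hz
            exact hroot Q hQ x hx z (mem_sdiff.1 hz).1
              (fun h => (mem_sdiff.1 hz).2 (mem_insert_of_mem h))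
        have h2 := vl_ge (F := F) (t := t) (S' := insert k S) (rel' := iso rel k)
          (w' := Function.update w k 1) (T := insert k Q) (c := Q.card + 1)
          (e := ex S rel w Q + 1) (card_insert_of_notMem (hkQ Q hQ)) hct (by
            rw [sum_upd_insert (hkQ Q hQ)]
            unfold ex
            omega)
        rw [pow_succ] at h2
        calc _ = kap F t (Q.card + 1) * (2 ^ ex S rel w Q * 2) := by ring
          _ ≤ _ := h2
    · left
      rw [kap_of_ge (not_lt.1 hct), zero_mul, zero_mul]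

theorem child_nn (hA : ∀ Q ∈ A, Q ⊆ S ∧ PUp t S rel Q) {k k' : ℕ} (hk : k ∉ S) (hk' : k' ∉ S)
    (hkk : k ≠ k') :
    ∑ Q ∈ A, (kap F t Q.card * 2 ^ ex S rel w Q * 2 +
      kap F t (Q.card + 1) * 2 ^ ex S rel w Q * 2 + kap F t (Q.card + 2) * 2 ^ ex S rel w Q) ≤
      leafSum t (insert k' (insert k S)) (add (iso (iso rel k) k') k k')
        (Function.update (Function.update w k 0) k' 0) F := by
  classical
  have hkQ : ∀ Q ∈ A, k ∉ Q := fun Q hQ h => hk ((hA Q hQ).1 h)
  have hk'Q : ∀ Q ∈ A, k' ∉ Q := fun Q hQ h => hk' ((hA Q hQ).1 h)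
  set R' := add (iso (iso rel k) k') k k' with hR'
  -- description of the new relation
  have hRel : ∀ x z, R' x z → (x = k ∧ z = k') ∨ (x ≠ k ∧ x ≠ k' ∧ z ≠ k ∧ z ≠ k' ∧ rel x z) := by
    rintro x z (⟨h1, h2, h3, h4, h5⟩ | ⟨h1, h2⟩)
    · exact Or.inr ⟨h3, h1, h4, h2, h5⟩
    · have hx : x = k := by
        rcases h1 with h1 | ⟨_, _, _, h4, _⟩
        · exact h1
        · exact absurd rfl h4
      have hz : z = k' := by
        rcases h2 with h2 | ⟨h3, _⟩
        · exact h2
        · exact absurd rfl h3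
      exact Or.inl ⟨hx, hz⟩
  have hroot : ∀ Q ∈ A, ∀ x ∈ rt S rel Q, ∀ z, z ∉ Q → z ∈ insert k' (insert k S) →
      ¬ R' x z := by
    intro Q hQ x hx z hzQ hz h
    rcases hRel x z h with ⟨rfl, rfl⟩ | ⟨h1, h2, h3, h4, h5⟩
    · exact hk (mem_rt.1 hx).1
    · rcases mem_insert.1 hz with rfl | hz
      · exact h4 rfl
      · rcases mem_insert.1 hz with rfl | hz
        · exact h3 rfl
        · exact (mem_rt.1 hx).2.2 z hz hzQ h5
  have hrtk : ∀ Q ∈ A, k ∉ rt S rel Q := fun Q _ h => hk (mem_rt.1 h).1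
  have hrtk' : ∀ Q ∈ A, k' ∉ rt S rel Q := fun Q _ h => hk' (mem_rt.1 h).1
  have hk'top : ∀ z, ¬ R' k' z := by
    intro z h
    rcases hRel _ _ h with ⟨h1, _⟩ | ⟨_, h2, _⟩
    · exact hkk h1.symm
    · exact h2 rfl
  have hup' : ∀ Q ∈ A, ∀ a ∈ Q, ∀ c ∈ insert k' (insert k S), R' a c → c ∈ Q := by
    intro Q hQ a ha c hc h
    rcases hRel a c h with ⟨rfl, rfl⟩ | ⟨h1, h2, h3, h4, h5⟩
    · exact absurd ha (hkQ Q hQ)
    · rcases mem_insert.1 hc with rfl | hc
      · exact absurd rfl h4
      · rcases mem_insert.1 hc with rfl | hc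
        · exact absurd rfl h3
        · exact (hA Q hQ).2.2 a ha c hc h5
  have hw0 : ∀ Q ∈ A, ∑ x ∈ Q, Function.update (Function.update w k 0) k' 0 x =
      ∑ x ∈ Q, w x := fun Q hQ => by rw [sum_upd (hk'Q Q hQ), sum_upd (hkQ Q hQ)]
  have hw1 : ∀ Q ∈ A, ∑ x ∈ insert k' Q, Function.update (Function.update w k 0) k' 0 x =
      ∑ x ∈ Q, w x := fun Q hQ => by
    rw [sum_upd_insert (hk'Q Q hQ), sum_upd (hkQ Q hQ), zero_add]
  have hkQ' : ∀ Q ∈ A, k ∉ insert k' Q := by
    intro Q hQ h
    rcases mem_insert.1 h with h | h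
    · exact hkk h
    · exact hkQ Q hQ h
  have hw2 : ∀ Q ∈ A, ∑ x ∈ insert k (insert k' Q),
      Function.update (Function.update w k 0) k' 0 x = ∑ x ∈ Q, w x := fun Q hQ => by
    rw [sum_insert (hkQ' Q hQ), hw1 Q hQ, Function.update_of_ne hkk, Function.update_self,
      zero_add]
  refine leafSum_ge3 (k := k) (k' := k') hkk hkQ hk'Q ?_ ?_ ?_
  · intro Q hQ
    obtain ⟨hQS, hc, hup⟩ := hA Q hQ
    right
    refine ⟨hQS.trans ((subset_insert k S).trans (subset_insert k' _)), ⟨hc, hup' Q hQ⟩, ?_⟩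
    have h1 : (insert k' (rt S rel Q)).card ≤ roots R' (insert k' (insert k S) \ Q) := by
      refine roots_ge ?_ ?_
      · intro x hx
        rcases mem_insert.1 hx with rfl | hx
        · exact mem_sdiff.2 ⟨mem_insert_self _ _, hk'Q Q hQ⟩
        · exact mem_sdiff.2 ⟨mem_insert_of_mem (mem_insert_of_mem (mem_rt.1 hx).1),
            (mem_rt.1 hx).2.1⟩
      · intro x hx z hz
        rcases mem_insert.1 hx with rfl | hx
        · exact hk'top z
        · exact hroot Q hQ x hx z (mem_sdiff.1 hz).2 (mem_sdiff.1 hz).1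
    rw [card_insert_of_notMem (hrtk' Q hQ)] at h1
    have h2 := vl_ge (F := F) (t := t) (S' := insert k' (insert k S)) (rel' := R')
      (w' := Function.update (Function.update w k 0) k' 0) (T := Q) (c := Q.card)
      (e := ex S rel w Q + 1) rfl hc (by
        rw [hw0 Q hQ]
        unfold ex
        omega)
    rw [pow_succ] at h2
    calc _ = kap F t Q.card * (2 ^ ex S rel w Q * 2) := by ring
      _ ≤ _ := h2
  · intro Q hQ
    obtain ⟨hQS, hc, hup⟩ := hA Q hQ
    by_cases hct : Q.card + 1 < t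
    · right
      refine ⟨insert_subset_insert k' (hQS.trans (subset_insert k S)), ⟨?_, ?_⟩, ?_⟩
      · rw [card_insert_of_notMem (hk'Q Q hQ)]; exact hct
      · intro a ha c hcS h
        rcases mem_insert.1 ha with rfl | ha
        · exact absurd h (hk'top c)
        · exact mem_insert_of_mem (hup' Q hQ a ha c hcS h)
      · have h1 : (insert k (rt S rel Q)).card ≤
            roots R' (insert k' (insert k S) \ insert k' Q) := by
          refine roots_ge ?_ ?_
          · intro x hx
            rcases mem_insert.1 hx with rfl | hx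
            · exact mem_sdiff.2 ⟨mem_insert_of_mem (mem_insert_self _ _), hkQ' Q hQ⟩
            · refine mem_sdiff.2 ⟨mem_insert_of_mem (mem_insert_of_mem (mem_rt.1 hx).1), ?_⟩
              rw [mem_insert, not_or]
              refine ⟨?_, (mem_rt.1 hx).2.1⟩
              rintro rfl
              exact hrtk' Q hQ hx
          · intro x hx z hz
            have hzQ : z ∉ Q := fun h => (mem_sdiff.1 hz).2 (mem_insert_of_mem h)
            rcases mem_insert.1 hx with rfl | hx
            · intro h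
              rcases hRel _ _ h with ⟨_, rfl⟩ | ⟨h1, _⟩
              · exact (mem_sdiff.1 hz).2 (mem_insert_self _ _)
              · exact h1 rfl
            · exact hroot Q hQ x hx z hzQ (mem_sdiff.1 hz).1
        rw [card_insert_of_notMem (hrtk Q hQ)] at h1
        have h2 := vl_ge (F := F) (t := t) (S' := insert k' (insert k S)) (rel' := R')
          (w' := Function.update (Function.update w k 0) k' 0) (T := insert k' Q)
          (c := Q.card + 1) (e := ex S rel w Q + 1) (card_insert_of_notMem (hk'Q Q hQ)) hct (by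
            rw [hw1 Q hQ]
            unfold ex
            omega)
        rw [pow_succ] at h2
        calc _ = kap F t (Q.card + 1) * (2 ^ ex S rel w Q * 2) := by ring
          _ ≤ _ := h2
    · left
      rw [kap_of_ge (not_lt.1 hct), zero_mul, zero_mul]
  · intro Q hQ
    obtain ⟨hQS, hc, hup⟩ := hA Q hQ
    by_cases hct : Q.card + 2 < t
    · right
      have hcard : (insert k (insert k' Q)).card = Q.card + 2 := by
        rw [card_insert_of_notMem (hkQ' Q hQ), card_insert_of_notMem (hk'Q Q hQ)]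
      refine ⟨?_, ⟨?_, ?_⟩, ?_⟩
      · intro x hx
        rcases mem_insert.1 hx with rfl | hx
        · exact mem_insert_of_mem (mem_insert_self _ _)
        · rcases mem_insert.1 hx with rfl | hx
          · exact mem_insert_self _ _
          · exact mem_insert_of_mem (mem_insert_of_mem (hQS hx))
      · rw [hcard]; exact hct
      · intro a ha c hcS h
        rcases mem_insert.1 ha with rfl | ha
        · rcases hRel _ _ h with ⟨_, rfl⟩ | ⟨h1, _⟩
          · exact mem_insert_of_mem (mem_insert_self _ _)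
          · exact absurd rfl h1
        · rcases mem_insert.1 ha with rfl | ha
          · exact absurd h (hk'top c)
          · exact mem_insert_of_mem (mem_insert_of_mem (hup' Q hQ a ha c hcS h))
      · have h1 : (rt S rel Q).card ≤
            roots R' (insert k' (insert k S) \ insert k (insert k' Q)) := by
          refine roots_ge ?_ ?_
          · intro x hx
            refine mem_sdiff.2 ⟨mem_insert_of_mem (mem_insert_of_mem (mem_rt.1 hx).1), ?_⟩
            rw [mem_insert, mem_insert, not_or, not_or]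
            refine ⟨?_, ?_, (mem_rt.1 hx).2.1⟩
            · rintro rfl
              exact hrtk Q hQ hx
            · rintro rfl
              exact hrtk' Q hQ hx
          · intro x hx z hz
            have hzQ : z ∉ Q := fun h =>
              (mem_sdiff.1 hz).2 (mem_insert_of_mem (mem_insert_of_mem h))
            exact hroot Q hQ x hx z hzQ (mem_sdiff.1 hz).1
        refine vl_ge hcard hct ?_
        rw [hw2 Q hQ]
        unfold ex
        omega
    · left
      rw [kap_of_ge (not_lt.1 hct), zero_mul]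

end

end Pool.Agent.Sel
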