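import Pool.Agent.H8.Sel.Visit

/-!
# Lanes of combinations of the classes of the profile
-/

set_option linter.unusedSectionVars false

namespace Pool.Agent.Sel

open Finset

/-! ### coefficients -/

theorem fl_succ_le (F i : ℕ) : fl F i ≤ fl (F + 1) i := by
  unfold fl
  rcases Nat.even_or_odd' F with ⟨M, rfl | rfl⟩
  · have e1 : 2 * M / 2 = M := by omega
    have e2 : 2 * M % 2 = 0 := by omega
    have e3 : (2 * M + 1) / 2 = M := by omega
    have e4 : (2 * M + 1) % 2 = 1 := by omega
    rw [e1, e2, e3, e4]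
    omega
  · have e1 : (2 * M + 1) / 2 = M := by omega
    have e2 : (2 * M + 1) % 2 = 1 := by omega
    have e3 : (2 * M + 1 + 1) / 2 = M + 1 := by omega
    have e4 : (2 * M + 1 + 1) % 2 = 0 := by omega
    rw [e1, e2, e3, e4, choose_succ_cc]
    omega

theorem fl_mono {F F' : ℕ} (h : F' ≤ F) (i : ℕ) : fl F' i ≤ fl F i :=
  monotone_nat_of_le_succ (f := fun F => fl F i) (fun F => fl_succ_le F i) h

theorem kap_mono {F F' : ℕ} (h : F' ≤ F) (t c : ℕ) : kap F' t c ≤ kap F t c := by
  unfold kap
  split_ifs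
  · exact Nat.mul_le_mul_left _ (fl_mono h _)
  · exact le_rfl

theorem ch2_eq (a : ℕ) : ch2 a = a.choose 2 := by
  rw [Nat.choose_two_right]
  rfl

theorem ch3_eq (a : ℕ) : ch3 a = a.choose 3 := by
  rw [Nat.choose_eq_descFactorial_div_factorial]
  have h : ch3 a = a * (a - 1) * (a - 1 - 1) / 6 := rfl
  have h2 : a.descFactorial 3 = (a - 2) * ((a - 1) * ((a - 0) * 1)) := rfl
  rw [h, h2]
  have h3 : Nat.factorial 3 = 6 := rfl
  rw [h3]
  congr 1
  have h4 : a - 1 - 1 = a - 2 := by omega
  rw [h4, Nat.sub_zero]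
  ring

theorem fl_zero (F : ℕ) : fl F 0 = 2 := by
  unfold fl cc
  simp

theorem fl1_eq (F : ℕ) : fl1 F = fl F 1 := by
  unfold fl cc fl1
  simp only [Nat.choose_one_right, Nat.choose_zero_right, mul_one]
  omega

theorem fl2_eq (F : ℕ) : fl2 F = fl F 2 := by
  have h : fl2 F = 2 * ch2 (F / 2) + (F % 2) * (F / 2) := rfl
  rw [h, ch2_eq]
  unfold fl cc
  simp only [Nat.choose_one_right]

theorem fl3_eq (F : ℕ) : fl3 F = fl F 3 := by
  have h : fl3 F = 2 * ch3 (F / 2) + (F % 2) * ch2 (F / 2) := rfl
  rw [h, ch2_eq, ch3_eq]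
  rfl

/-! ### a profile with bounded coefficients -/

/-- Packed number of a family of up-sets. -/
structure Prf (m U W t K : ℕ) (A : Finset (Finset ℕ)) (G : ℕ) : Prop where
  hA : ∀ Q ∈ A, Q ⊆ range m ∧ PUp t (range m) (rl0 U) Q
  hG : G = ∑ Q ∈ A, ctr m U W Q
  hK : 2 * (K * ∑ Q ∈ A, 2 ^ ex (range m) (rl0 U) (cw W) Q) < 2 ^ 32
  hK1 : 1 ≤ K

/-- class sums -/
noncomputable def cs0 (m U W : ℕ) (A : Finset (Finset ℕ)) (c x y : ℕ) : ℕ :=
  ∑ Q ∈ A.filter (fun Q => Q.card = c), 2 ^ ex (range m) (rl0 U) (cw W) Q *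
    bet (range m) (rl0 U) Q x y

theorem pk2_sum {ι : Type*} (A : Finset ι) (a : ι → ℕ → ℕ → ℕ) :
    ∑ Q ∈ A, pk2 (a Q) = pk2 (fun x y => ∑ Q ∈ A, a Q x y) := by
  unfold pk2
  rw [pk_sum]
  exact pk_congr fun x _ => pk_sum _ _ _ _

theorem pk2_smul (k : ℕ) (a : ℕ → ℕ → ℕ) : k * pk2 a = pk2 (fun x y => k * a x y) := by
  unfold pk2
  rw [pk_smul]
  exact pk_congr fun x _ => pk_smul _ _ _ _

theorem pk2_add (a b : ℕ → ℕ → ℕ) : pk2 a + pk2 b = pk2 (fun x y => a x y + b x y) := by
  unfold pk2
  rw [pk_add]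
  exact pk_congr fun x _ => pk_add _ _ _ _

theorem pk2_congr {a b : ℕ → ℕ → ℕ} (h : ∀ x y, a x y = b x y) : pk2 a = pk2 b := by
  unfold pk2
  exact pk_congr fun x _ => pk_congr fun y _ => h x y

theorem row_lt {a : ℕ → ℕ} (h : ∀ y, a y < 2 ^ 32) : pk 32 16 a < 2 ^ 512 := by
  have := pk_lt (s := 32) (n := 16) (a := a) (fun y _ => h y)
  have e : 32 * 16 = 512 := by norm_num
  rwa [e] at this

theorem pk2_lt {a : ℕ → ℕ → ℕ} (h : ∀ x y, a x y < 2 ^ 32) : pk2 a < 2 ^ 8192 := by
  have := pk_lt (s := 512) (n := 16) (a := fun x => pk 32 16 (a x)) (fun x _ => row_lt (h x))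
  have e : 512 * 16 = 8192 := by norm_num
  rwa [e] at this

theorem lane_pk2 {a : ℕ → ℕ → ℕ} (h : ∀ x y, a x y < 2 ^ 32) {x y : ℕ} (hx : x < 16)
    (hy : y < 16) : lane (pk2 a) (16 * x + y) = a x y := by
  have h0 : lane (pk2 a) (16 * x + y) = (pk2 a >>> (32 * (16 * x + y))) % 2 ^ 32 := rfl
  rw [h0]
  have e1 : 32 * (16 * x + y) = 512 * x + 32 * y := by ring
  rw [e1, Nat.shiftRight_add, Nat.shiftRight_eq_div_pow, Nat.shiftRight_eq_div_pow]
  obtain ⟨r, hr⟩ := pk_div (s := 512) (n := 16) (a := fun x => pk 32 16 (a x)) hx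
    (fun i _ => row_lt (h i))
  have h1 : pk2 a / 2 ^ (512 * x) = pk 32 16 (a x) + 2 ^ 512 * r := hr
  rw [h1]
  obtain ⟨r', hr'⟩ := pk_div (s := 32) (n := 16) (a := a x) hy (fun i _ => h x i)
  have e2 : (512 : ℕ) = 32 * y + (32 + (480 - 32 * y)) := by omega
  have e3 : pk 32 16 (a x) + 2 ^ 512 * r = pk 32 16 (a x) + 2 ^ (32 * y) *
      (2 ^ 32 * (2 ^ (480 - 32 * y) * r)) := by
    conv_lhs => rw [e2]
    rw [pow_add, pow_add]
    ring
  rw [e3, Nat.add_mul_div_left _ _ (by positivity), hr']
  have e4 : a x y + 2 ^ 32 * r' + 2 ^ 32 * (2 ^ (480 - 32 * y) * r) =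
      a x y + 2 ^ 32 * (r' + 2 ^ (480 - 32 * y) * r) := by ring
  rw [e4, Nat.add_mul_mod_self_left, Nat.mod_eq_of_lt (h x y)]

section

variable {m U W t K : ℕ} {A : Finset (Finset ℕ)} {G : ℕ}

theorem sum_bet_le (B : Finset (Finset ℕ)) (hB : B ⊆ A) (c : Finset ℕ → ℕ) {M : ℕ}
    (hc : ∀ Q ∈ A, c Q ≤ M) (x y : ℕ) :
    ∑ Q ∈ B, c Q * (2 ^ ex (range m) (rl0 U) (cw W) Q * bet (range m) (rl0 U) Q x y) ≤
      2 * (M * ∑ Q ∈ A, 2 ^ ex (range m) (rl0 U) (cw W) Q) := by
  rw [mul_sum, mul_sum]
  refine le_trans (sum_le_sum_of_subset hB) (sum_le_sum fun Q hQ => ?_)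
  calc c Q * (2 ^ ex (range m) (rl0 U) (cw W) Q * bet (range m) (rl0 U) Q x y) ≤
      M * (2 ^ ex (range m) (rl0 U) (cw W) Q * 2) :=
        Nat.mul_le_mul (hc Q hQ) (Nat.mul_le_mul_left _ bet_le)
    _ = _ := by ring

theorem cs0_lt (h : Prf m U W t K A G) (c x y : ℕ) : cs0 m U W A c x y < 2 ^ 32 := by
  have h1 := sum_bet_le (m := m) (U := U) (W := W) (A := A)
    (A.filter (fun Q => Q.card = c)) (filter_subset _ _)
    (fun _ => 1) (M := 1) (fun _ _ => le_rfl) x y
  unfold cs0
  refine lt_of_le_of_lt (le_trans ?_ h1) (lt_of_le_of_lt ?_ h.hK)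
  · exact sum_le_sum fun Q _ => by rw [one_mul]
  · exact Nat.mul_le_mul_left _ (Nat.mul_le_mul_right _ h.hK1)

theorem G_eq (h : Prf m U W t K A G) (ht : t ≤ 4) :
    G = pk 8192 5 (fun c => if c < 4 then pk2 (cs0 m U W A c) else
      ∑ Q ∈ A, 2 ^ ex (range m) (rl0 U) (cw W) Q) := by
  have e0 : 8192 * 4 = 32768 := by norm_num
  rw [pk_succ, e0, h.hG]
  simp only [lt_self_iff_false, if_false]
  have e1 : ∑ Q ∈ A, ctr m U W Q = ∑ Q ∈ A, 2 ^ (8192 * Q.card) *
      pk2 (fun x y => 2 ^ ex (range m) (rl0 U) (cw W) Q * bet (range m) (rl0 U) Q x y) +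
      (∑ Q ∈ A, 2 ^ ex (range m) (rl0 U) (cw W) Q) * 2 ^ 32768 := by
    rw [sum_mul, ← sum_add_distrib]
    refine sum_congr rfl fun Q _ => ?_
    unfold ctr ctb
    rw [← pk2_smul]
    generalize (2 : ℕ) ^ 32768 = p
    generalize (2 : ℕ) ^ (8192 * Q.card) = q
    ring
  rw [e1, add_left_inj]
  have hmaps : ∀ Q ∈ A, Q.card ∈ range 4 := fun Q hQ => by
    have := (h.hA Q hQ).2.1
    rw [mem_range]
    omega
  rw [← sum_fiberwise_of_maps_to hmaps]
  unfold pk
  refine sum_congr rfl fun c hc => ?_
  simp only [if_pos (mem_range.1 hc)]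
  rw [mul_comm (pk2 _)]
  have e2 : pk2 (cs0 m U W A c) = ∑ Q ∈ A.filter (fun Q => Q.card = c),
      pk2 (fun x y => 2 ^ ex (range m) (rl0 U) (cw W) Q * bet (range m) (rl0 U) Q x y) := by
    rw [pk2_sum]
    rfl
  rw [e2, mul_sum]
  refine sum_congr rfl fun Q hQ => ?_
  rw [(mem_filter.1 hQ).2]

theorem class_eq (h : Prf m U W t K A G) (ht : t ≤ 4) {c : ℕ} (hc : c < 4) :
    (G >>> (8192 * c)) % 2 ^ 8192 = pk2 (cs0 m U W A c) := by
  rw [G_eq h ht, Nat.shiftRight_eq_div_pow, pk_lane (by omega)]
  · rw [if_pos hc]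
  · intro i hi
    have : i < 4 := by omega
    simp only [if_pos this]
    exact pk2_lt (cs0_lt h i)

theorem cmb_eq' (G a b c d : ℕ) : cmb G a b c d = (a * (G % 2 ^ 8192) +
    b * ((G >>> 8192) % 2 ^ 8192)) + (c * ((G >>> 16384) % 2 ^ 8192) +
      d * ((G >>> 24576) % 2 ^ 8192)) := by
  unfold cmb
  have e : ∀ x, Nat.mod x (nat_lit 0x1000000000000000000000000000000000000000000000000000000000000000000000000000000000000000000000000000000000000000000000000000000000000000000000000000000000000000000000000000000000000000000000000000000000000000000000000000000000000000000000000000000000000000000000000000000000000000000000000000000000000000000000000000000000000000000000000000000000000000000000000000000000000000000000000000000000000000000000000000000000000000000000000000000000000000000000000000000000000000000000000000000000000000000000000000000000000000000000000000000000000000000000000000000000000000000000000000000000000000000000000000000000000000000000000000000000000000000000000000000000000000000000000000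00000000000000000000000000000000000000000000000000000000000000000000000000000000000000000000000000000000000000000000000000000000000000000000000000000000000000000000000000000000000000000000000000000000000000000000000000000000000000000000000000000000000000000000000000000000000000000000000000000000000000000000000000000000000000000000000000000000000000000000000000000000000000000000000000000000000000000000000000000000000000000000000000000000000000000000000000000000000000000000000000000000000000000000000000000000000000000000000000000000000000000000000000000000000000000000000000000000000000000000000000000000000000000000000000000000000000000000000000000000000000000000000000000000000000000000000000000000000000000000000000000000000000000000000000000000000000000000000000000000000000000000000000000000000000000000000000000000000000000000000000000000000000000000000000000000000000000000000000000000000000000000000000000000000000000000000000000000000000000000000000000000000000000000000000000000000000000000000000000000000000000000000000000000000000000000000000000000000000000000000000000000000000000000000000000000000000000000000000000000000000000000000000000000000000000000000000000000000000000000000000000000000000000000000000000000000000000000000000000000000000000000000000000000000000000000000000000000000000000000000000000000000000000000000000000000000000000000000000000)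 = x % 2 ^ 8192 := by
    intro x
    have e2 : (nat_lit 0x1000000000000000000000000000000000000000000000000000000000000000000000000000000000000000000000000000000000000000000000000000000000000000000000000000000000000000000000000000000000000000000000000000000000000000000000000000000000000000000000000000000000000000000000000000000000000000000000000000000000000000000000000000000000000000000000000000000000000000000000000000000000000000000000000000000000000000000000000000000000000000000000000000000000000000000000000000000000000000000000000000000000000000000000000000000000000000000000000000000000000000000000000000000000000000000000000000000000000000000000000000000000000000000000000000000000000000000000000000000000000000000000000000000000000000000000000000000000000000000000000000000000000000000000000000000000000000000000000000000000000000000000000000000000000000000000000000000000000000000000000000000000000000000000000000000000000000000000000000000000000000000000000000000000000000000000000000000000000000000000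00000000000000000000000000000000000000000000000000000000000000000000000000000000000000000000000000000000000000000000000000000000000000000000000000000000000000000000000000000000000000000000000000000000000000000000000000000000000000000000000000000000000000000000000000000000000000000000000000000000000000000000000000000000000000000000000000000000000000000000000000000000000000000000000000000000000000000000000000000000000000000000000000000000000000000000000000000000000000000000000000000000000000000000000000000000000000000000000000000000000000000000000000000000000000000000000000000000000000000000000000000000000000000000000000000000000000000000000000000000000000000000000000000000000000000000000000000000000000000000000000000000000000000000000000000000000000000000000000000000000000000000000000000000000000000000000000000000000000000000000000000000000000000000000000000000000000000000000000000000000000000000000000000000000000000000000000000000000000000000000000000000000000000000000000000000000000000000000000000000000000000000000000000000000000000000000000000000000000000000000000000000000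 : ℕ) = 2 ^ 8192 := by decide +kernel
    rw [e2]
    rfl
  simp only [e]
  rfl

/-- **Lanes of a combination.** -/
theorem lane_cmb (h : Prf m U W t K A G) (ht : t ≤ 4) (f : ℕ → ℕ) (hf : ∀ c < 4, f c ≤ K)
    {x y : ℕ} (hx : x < 16) (hy : y < 16) :
    lane (cmb G (f 0) (f 1) (f 2) (f 3)) (16 * x + y) =
      ∑ Q ∈ A, f Q.card * 2 ^ ex (range m) (rl0 U) (cw W) Q * bet (range m) (rl0 U) Q x y := by
  have c0 := class_eq h ht (c := 0) (by norm_num)
  have c1 := class_eq h ht (c := 1) (by norm_num)
  have c2 := class_eq h ht (c := 2) (by norm_num)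
  have c3 := class_eq h ht (c := 3) (by norm_num)
  have e0 : 8192 * 0 = 0 := rfl
  have e1 : 8192 * 1 = 8192 := rfl
  have e2 : 8192 * 2 = 16384 := rfl
  have e3 : 8192 * 3 = 24576 := rfl
  rw [e0, Nat.shiftRight_zero] at c0
  rw [e1] at c1
  rw [e2] at c2
  rw [e3] at c3
  have hmaps : ∀ Q ∈ A, Q.card ∈ range 4 := fun Q hQ => by
    have := (h.hA Q hQ).2.1
    rw [mem_range]
    omega
  have key : ∀ x y, f 0 * cs0 m U W A 0 x y + f 1 * cs0 m U W A 1 x y +
      (f 2 * cs0 m U W A 2 x y + f 3 * cs0 m U W A 3 x y) =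
      ∑ Q ∈ A, f Q.card * (2 ^ ex (range m) (rl0 U) (cw W) Q * bet (range m) (rl0 U) Q x y) := by
    intro x y
    rw [← sum_fiberwise_of_maps_to hmaps]
    have e : ∀ c, ∑ Q ∈ A.filter (fun Q => Q.card = c), f Q.card *
        (2 ^ ex (range m) (rl0 U) (cw W) Q * bet (range m) (rl0 U) Q x y) =
        f c * cs0 m U W A c x y := by
      intro c
      unfold cs0
      rw [mul_sum]
      exact sum_congr rfl fun Q hQ => by rw [(mem_filter.1 hQ).2]
    simp only [e, sum_range_succ, sum_range_zero, zero_add]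
    ring
  have hcmb : cmb G (f 0) (f 1) (f 2) (f 3) = pk2 (fun x y => ∑ Q ∈ A, f Q.card *
      (2 ^ ex (range m) (rl0 U) (cw W) Q * bet (range m) (rl0 U) Q x y)) := by
    rw [cmb_eq', c0, c1, c2, c3, pk2_smul, pk2_smul, pk2_smul, pk2_smul, pk2_add, pk2_add, pk2_add]
    exact pk2_congr key
  rw [hcmb, lane_pk2 _ hx hy]
  · exact sum_congr rfl fun Q _ => by ring
  · intro x y
    refine lt_of_le_of_lt (sum_bet_le A (Finset.Subset.refl A) (fun Q => f Q.card) (M := K) ?_ x y)
      h.hK
    intro Q hQ
    exact hf _ (mem_range.1 (hmaps Q hQ))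

/-! ### the coefficients of `cmbK`, `cmbK1`, `cmbK2` -/

theorem t_cases (h1 : 2 ≤ t) (h2 : t ≤ 4) : t = 2 ∨ t = 3 ∨ t = 4 := by omega

theorem cmbK_eq (G F : ℕ) (h1 : 2 ≤ t) (h2 : t ≤ 4) :
    cmbK G F t = cmb G (kap F t 0) (kap F t 1) (kap F t 2) (kap F t 3) := by
  rcases t_cases h1 h2 with rfl | rfl | rfl
  · have h : cmbK G F 2 = cmb G (fl1 F) 4 0 0 := rfl
    rw [h]
    simp [kap, fl1_eq, fl_zero]
  · have h : cmbK G F 3 = cmb G (fl2 F) (2 * fl1 F) 8 0 := rfl
    rw [h]
    simp [kap, fl1_eq, fl2_eq, fl_zero]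
  · have h : cmbK G F 4 = cmb G (fl3 F) (2 * fl2 F) (4 * fl1 F) 16 := rfl
    rw [h]
    simp [kap, fl1_eq, fl2_eq, fl3_eq, fl_zero]

theorem cmbK1_eq (G F : ℕ) (h1 : 2 ≤ t) (h2 : t ≤ 4) :
    cmbK1 G F t = cmb G (kap F t 1) (kap F t 2) (kap F t 3) (kap F t 4) := by
  rcases t_cases h1 h2 with rfl | rfl | rfl
  · have h : cmbK1 G F 2 = cmb G 4 0 0 0 := rfl
    rw [h]
    simp [kap, fl_zero]
  · have h : cmbK1 G F 3 = cmb G (2 * fl1 F) 8 0 0 := rfl
    rw [h]
    simp [kap, fl1_eq, fl_zero]
  · have h : cmbK1 G F 4 = cmb G (2 * fl2 F) (4 * fl1 F) 16 0 := rfl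
    rw [h]
    simp [kap, fl1_eq, fl2_eq, fl_zero]

theorem cmbK2_eq (G F : ℕ) (h1 : 2 ≤ t) (h2 : t ≤ 4) :
    cmbK2 G F t = cmb G (kap F t 2) (kap F t 3) (kap F t 4) (kap F t 5) := by
  rcases t_cases h1 h2 with rfl | rfl | rfl
  · have h : cmbK2 G F 2 = 0 := rfl
    rw [h, cmb_eq']
    simp [kap]
  · have h : cmbK2 G F 3 = cmb G 8 0 0 0 := rfl
    rw [h]
    simp [kap, fl_zero]
  · have h : cmbK2 G F 4 = cmb G (4 * fl1 F) 16 0 0 := rfl
    rw [h]
    simp [kap, fl1_eq, fl_zero]

theorem kap_le_sumK (F : ℕ) (h1 : 2 ≤ t) (h2 : t ≤ 4) (c : ℕ) : kap F t c ≤ sumK F t := by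
  rcases t_cases h1 h2 with rfl | rfl | rfl
  · have h : sumK F 2 = fl1 F + 4 := rfl
    rw [h, fl1_eq]
    match c with
    | 0 => simp [kap]
    | 1 => simp [kap, fl_zero]
    | c + 2 => rw [kap_of_ge (by omega)]; omega
  · have h : sumK F 3 = fl2 F + 2 * fl1 F + 8 := rfl
    rw [h, fl1_eq, fl2_eq]
    match c with
    | 0 => simp [kap]; omega
    | 1 => simp [kap]; omega
    | 2 => simp [kap, fl_zero]
    | c + 3 => rw [kap_of_ge (by omega)]; omega
  · have h : sumK F 4 = fl3 F + 2 * fl2 F + (4 * fl1 F + 16) := rfl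
    rw [h, fl1_eq, fl2_eq, fl3_eq]
    match c with
    | 0 => simp [kap]; omega
    | 1 => simp [kap]; omega
    | 2 => simp [kap]; omega
    | 3 => simp [kap, fl_zero]; omega
    | c + 4 => rw [kap_of_ge (by omega)]; omega

theorem sumK_pos (F : ℕ) (h1 : 2 ≤ t) (h2 : t ≤ 4) : 1 ≤ sumK F t := by
  rcases t_cases h1 h2 with rfl | rfl | rfl
  · have h : sumK F 2 = fl1 F + 4 := rfl
    omega
  · have h : sumK F 3 = fl2 F + 2 * fl1 F + 8 := rfl
    omega
  · have h : sumK F 4 = fl3 F + 2 * fl2 F + (4 * fl1 F + 16) := rfl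
    omega

/-- Lanes of `cmbK`. -/
theorem lane_K {F F' : ℕ} (h : Prf m U W t (sumK F t) A G) (h1 : 2 ≤ t) (h2 : t ≤ 4) (hF : F' ≤ F)
    {x y : ℕ} (hx : x < 16) (hy : y < 16) : lane (cmbK G F' t) (16 * x + y) =
      ∑ Q ∈ A, kap F' t Q.card * 2 ^ ex (range m) (rl0 U) (cw W) Q *
        bet (range m) (rl0 U) Q x y := by
  rw [cmbK_eq G F' h1 h2]
  exact lane_cmb h h2 (fun c => kap F' t c) (fun c _ => (kap_mono hF t c).trans
    (kap_le_sumK F h1 h2 c)) hx hy

theorem lane_K1 {F F' : ℕ} (h : Prf m U W t (sumK F t) A G) (h1 : 2 ≤ t) (h2 : t ≤ 4) (hF : F' ≤ F)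
    {x y : ℕ} (hx : x < 16) (hy : y < 16) : lane (cmbK1 G F' t) (16 * x + y) =
      ∑ Q ∈ A, kap F' t (Q.card + 1) * 2 ^ ex (range m) (rl0 U) (cw W) Q *
        bet (range m) (rl0 U) Q x y := by
  rw [cmbK1_eq G F' h1 h2]
  exact lane_cmb h h2 (fun c => kap F' t (c + 1)) (fun c _ => (kap_mono hF t _).trans
    (kap_le_sumK F h1 h2 _)) hx hy

theorem lane_K2 {F F' : ℕ} (h : Prf m U W t (sumK F t) A G) (h1 : 2 ≤ t) (h2 : t ≤ 4) (hF : F' ≤ F)
    {x y : ℕ} (hx : x < 16) (hy : y < 16) : lane (cmbK2 G F' t) (16 * x + y) =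
      ∑ Q ∈ A, kap F' t (Q.card + 2) * 2 ^ ex (range m) (rl0 U) (cw W) Q *
        bet (range m) (rl0 U) Q x y := by
  rw [cmbK2_eq G F' h1 h2]
  exact lane_cmb h h2 (fun c => kap F' t (c + 2)) (fun c _ => (kap_mono hF t _).trans
    (kap_le_sumK F h1 h2 _)) hx hy

/-- The profile of an entry which passes the overflow test. -/
theorem prf_of {F : ℕ} (hR : RelOK m U) (h1 : 2 ≤ t) (h2 : t ≤ 4)
    (h : Nat.ble (Nat.mul 2 (Nat.mul (sumK F t) (Nat.shiftRight (profile m U W t) 32768)))
      4294967295 = true) : ∃ A, Prf m U W t (sumK F t) A (profile m U W t) := by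
  obtain ⟨A, hA, hG⟩ := profile_spec (W := W) hR (t := t) (by omega)
  refine ⟨A, hA, hG, ?_, sumK_pos F h1 h2⟩
  rw [ble_iff] at h
  have h3 : 2 * (sumK F t * (profile m U W t >>> 32768)) ≤ 4294967295 := h
  have h4 : ∑ Q ∈ A, 2 ^ ex (range m) (rl0 U) (cw W) Q ≤ profile m U W t >>> 32768 := by
    rw [Nat.shiftRight_eq_div_pow, Nat.le_div_iff_mul_le (by positivity), hG, sum_mul]
    refine sum_le_sum fun Q _ => ?_
    unfold ctr ctb
    exact Nat.mul_le_mul_left _ (Nat.le_add_left _ _)
  have h5 : 2 * (sumK F t * ∑ Q ∈ A, 2 ^ ex (range m) (rl0 U) (cw W) Q) ≤ 4294967295 :=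
    le_trans (Nat.mul_le_mul_left _ (Nat.mul_le_mul_left _ h4)) h3
  have h6 : (2 : ℕ) ^ 32 = 4294967296 := by norm_num
  omega

end

end Pool.Agent.Sel
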