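import Pool.Agent.H8.Sel.Prof
import Pool.Agent.H8.Sel.Child

/-!
# Packed numbers
-/

set_option linter.unusedSectionVars false

namespace Pool.Agent.Sel

open Finset

/-- Packed number: lanes of `s` bits. -/
def pk (s n : ℕ) (a : ℕ → ℕ) : ℕ := ∑ i ∈ range n, a i * 2 ^ (s * i)

theorem pk_succ (s n : ℕ) (a : ℕ → ℕ) : pk s (n + 1) a = pk s n a + a n * 2 ^ (s * n) :=
  sum_range_succ _ _

theorem pk_congr {s n : ℕ} {a b : ℕ → ℕ} (h : ∀ i < n, a i = b i) : pk s n a = pk s n b :=
  sum_congr rfl fun i hi => by rw [h i (mem_range.1 hi)]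

theorem pk_add (s n : ℕ) (a b : ℕ → ℕ) : pk s n a + pk s n b = pk s n (fun i => a i + b i) := by
  unfold pk
  rw [← sum_add_distrib]
  exact sum_congr rfl fun i _ => by ring

theorem pk_smul (s n k : ℕ) (a : ℕ → ℕ) : k * pk s n a = pk s n (fun i => k * a i) := by
  unfold pk
  rw [mul_sum]
  exact sum_congr rfl fun i _ => by ring

theorem pk_sum {ι : Type*} (s n : ℕ) (A : Finset ι) (a : ι → ℕ → ℕ) :
    ∑ Q ∈ A, pk s n (a Q) = pk s n (fun i => ∑ Q ∈ A, a Q i) := by
  unfold pk
  rw [sum_comm]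
  exact sum_congr rfl fun i _ => by rw [sum_mul]

theorem pk_lt {s : ℕ} {a : ℕ → ℕ} : ∀ {n : ℕ}, (∀ i < n, a i < 2 ^ s) → pk s n a < 2 ^ (s * n) := by
  intro n
  induction n with
  | zero => intro _; simp [pk]
  | succ n ih =>
    intro h
    rw [pk_succ]
    have h1 := ih (fun i hi => h i (by omega))
    have h2 := h n (by omega)
    have h3 : s * (n + 1) = s * n + s := by ring
    rw [h3, pow_add]
    calc pk s n a + a n * 2 ^ (s * n) < 2 ^ (s * n) + a n * 2 ^ (s * n) := by omega
      _ = 2 ^ (s * n) * (a n + 1) := by ring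
      _ ≤ 2 ^ (s * n) * 2 ^ s := Nat.mul_le_mul_left _ h2

theorem pk_split {s n j : ℕ} {a : ℕ → ℕ} (hj : j < n) :
    ∃ r, pk s n a = pk s j a + 2 ^ (s * j) * (a j + 2 ^ s * r) := by
  induction n with
  | zero => omega
  | succ n ih =>
    rcases Nat.lt_succ_iff_lt_or_eq.1 hj with h | rfl
    · obtain ⟨r, hr⟩ := ih h
      obtain ⟨d, rfl⟩ := Nat.exists_eq_add_of_lt h
      refine ⟨r + a (j + d + 1) * 2 ^ (s * d), ?_⟩
      rw [pk_succ, hr]
      have : s * (j + d + 1) = s * j + s + s * d := by ring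
      rw [this, pow_add, pow_add]
      ring
    · exact ⟨0, by rw [pk_succ]; ring⟩

theorem pk_div {s n j : ℕ} {a : ℕ → ℕ} (hj : j < n) (h : ∀ i < j, a i < 2 ^ s) :
    ∃ r, pk s n a / 2 ^ (s * j) = a j + 2 ^ s * r := by
  obtain ⟨r, hr⟩ := pk_split (a := a) (s := s) hj
  refine ⟨r, ?_⟩
  rw [hr, Nat.add_mul_div_left _ _ (by positivity), Nat.div_eq_of_lt (pk_lt h), zero_add]

theorem pk_lane {s n j : ℕ} {a : ℕ → ℕ} (hj : j < n) (h : ∀ i ≤ j, a i < 2 ^ s) :
    pk s n a / 2 ^ (s * j) % 2 ^ s = a j := by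
  obtain ⟨r, hr⟩ := pk_div hj (fun i hi => h i hi.le)
  rw [hr, Nat.add_mul_mod_self_left, Nat.mod_eq_of_lt (h j le_rfl)]

theorem pk_testBit {s n : ℕ} (hs : 0 < s) {a : ℕ → ℕ} (h : ∀ i < n, a i < 2 ^ s) (p : ℕ) :
    (pk s n a).testBit p = (decide (p / s < n) && (a (p / s)).testBit (p % s)) := by
  by_cases hp : p / s < n
  · obtain ⟨r, hr⟩ := pk_div (j := p / s) hp (fun i hi => h i (by omega))
    have h1 : p = s * (p / s) + p % s := (Nat.div_add_mod p s).symm
    have h2 : (pk s n a).testBit (s * (p / s) + p % s) =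
        (pk s n a / 2 ^ (s * (p / s))).testBit (p % s) := by
      rw [← Nat.shiftRight_eq_div_pow, Nat.testBit_shiftRight]
    rw [← h1] at h2
    rw [h2, hr]
    have h3 : a (p / s) + 2 ^ s * r = 2 ^ s * r + a (p / s) := by ring
    rw [h3, Nat.testBit_two_pow_mul_add _ (h _ hp), if_pos (Nat.mod_lt _ hs)]
    simp [hp]
  · have h1 : pk s n a < 2 ^ p := by
      refine lt_of_lt_of_le (pk_lt h) (Nat.pow_le_pow_right (by norm_num) ?_)
      calc s * n ≤ s * (p / s) := Nat.mul_le_mul_left _ (not_lt.1 hp)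
        _ ≤ p := Nat.mul_div_le p s
    rw [Nat.testBit_lt_two_pow h1]
    simp [hp]

theorem pk_land {s n : ℕ} (hs : 0 < s) {a b : ℕ → ℕ} (ha : ∀ i < n, a i < 2 ^ s)
    (hb : ∀ i < n, b i < 2 ^ s) : pk s n a &&& pk s n b = pk s n (fun i => a i &&& b i) := by
  refine Nat.eq_of_testBit_eq fun p => ?_
  rw [Nat.testBit_and, pk_testBit hs ha, pk_testBit hs hb,
    pk_testBit hs (fun i hi => lt_of_le_of_lt Nat.and_le_left (ha i hi)), Nat.testBit_and]
  cases decide (p / s < n) <;> simp

/-! ### masks -/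

/-- Bit mask of a set. -/
def msk (A : Finset ℕ) : ℕ := ∑ x ∈ A, 2 ^ x

/-- Row mask. -/
def rowm (A : Finset ℕ) : ℕ := ∑ x ∈ A, 2 ^ (512 * x)

/-- Column mask. -/
def colm (A : Finset ℕ) : ℕ := ∑ x ∈ A, 2 ^ (32 * x)

theorem sum_ind {A : Finset ℕ} {n : ℕ} (hA : A ⊆ range n) (f : ℕ → ℕ) :
    ∑ x ∈ A, f x = ∑ x ∈ range n, ind A x * f x := by
  rw [← sum_filter_add_sum_filter_not (range n) (fun x => x ∈ A)]
  have h1 : ∑ x ∈ (range n).filter (fun x => x ∉ A), ind A x * f x = 0 :=
    sum_eq_zero fun x hx => by rw [ind_neg (mem_filter.1 hx).2, zero_mul]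
  rw [h1, add_zero]
  have h2 : (range n).filter (fun x => x ∈ A) = A := by
    ext x
    rw [mem_filter]
    exact ⟨fun h => h.2, fun h => ⟨hA h, h⟩⟩
  rw [h2]
  exact sum_congr rfl fun x hx => by rw [ind_pos hx, one_mul]

theorem ind_le (A : Finset ℕ) (x : ℕ) : ind A x ≤ 1 := by
  unfold ind
  split_ifs <;> norm_num

theorem msk_eq {A : Finset ℕ} {n : ℕ} (hA : A ⊆ range n) : msk A = pk 1 n (ind A) := by
  unfold msk pk
  rw [sum_ind hA]
  simp only [one_mul]

theorem rowm_eq {A : Finset ℕ} {n : ℕ} (hA : A ⊆ range n) : rowm A = pk 512 n (ind A) := by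
  unfold rowm pk
  rw [sum_ind hA]

theorem colm_eq {A : Finset ℕ} {n : ℕ} (hA : A ⊆ range n) : colm A = pk 32 n (ind A) := by
  unfold colm pk
  rw [sum_ind hA]

theorem ind_testBit0 (A : Finset ℕ) (x : ℕ) : (ind A x).testBit 0 = decide (x ∈ A) := by
  by_cases h : x ∈ A
  · rw [ind_pos h]; simp [h]
  · rw [ind_neg h]; simp [h]

theorem msk_testBit {A : Finset ℕ} {n : ℕ} (hA : A ⊆ range n) (i : ℕ) :
    (msk A).testBit i = decide (i ∈ A) := by
  rw [msk_eq hA, pk_testBit one_pos (fun i _ => lt_of_le_of_lt (ind_le A i) (by norm_num)),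
    Nat.div_one, Nat.mod_one, ind_testBit0]
  by_cases h : i ∈ A
  · have := mem_range.1 (hA h)
    simp [h, this]
  · simp [h]

theorem msk_lt {A : Finset ℕ} {n : ℕ} (hA : A ⊆ range n) : msk A < 2 ^ n := by
  rw [msk_eq hA]
  have := pk_lt (s := 1) (n := n) (a := ind A) (fun i _ => lt_of_le_of_lt (ind_le A i) (by norm_num))
  rwa [one_mul] at this

theorem rowm_testBit {A : Finset ℕ} {n : ℕ} (hA : A ⊆ range n) (x : ℕ) :
    (rowm A).testBit (512 * x) = decide (x ∈ A) := by
  rw [rowm_eq hA, pk_testBit (by norm_num)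
    (fun i _ => lt_of_le_of_lt (ind_le A i) (by norm_num)),
    Nat.mul_div_cancel_left _ (by norm_num), Nat.mul_mod_right, ind_testBit0]
  by_cases h : x ∈ A
  · have := mem_range.1 (hA h)
    simp [h, this]
  · simp [h]

theorem msk_range (m : ℕ) : msk (range m) = 2 ^ m - 1 := by
  have h : ∀ m, msk (range m) + 1 = 2 ^ m := by
    intro m
    induction m with
    | zero => simp [msk]
    | succ m ih =>
      unfold msk at ih ⊢
      rw [sum_range_succ, pow_succ]
      omega
  rw [← h m]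
  omega

theorem two_pow_512_mod : ∀ x, 2 ^ (512 * x) % (2 ^ 512 - 1) = 1 := by
  intro x
  rw [pow_mul, Nat.pow_mod]
  have h : (2 ^ 512) % (2 ^ 512 - 1) = 1 := by decide +kernel
  have h2 : 1 % (2 ^ 512 - 1) = 1 := by decide +kernel
  rw [h, one_pow, h2]

theorem rowm_mod {A : Finset ℕ} (hA : A.card < 2 ^ 512 - 1) : rowm A % (2 ^ 512 - 1) = A.card := by
  unfold rowm
  rw [sum_nat_mod, sum_congr rfl (fun x _ => two_pow_512_mod x), sum_const, smul_eq_mul, mul_one,
    Nat.mod_eq_of_lt hA]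

theorem cntR_eq {A : Finset ℕ} {n : ℕ} (hA : A ⊆ range n) (hn : n ≤ 14) : cntR (rowm A) = A.card := by
  have h : cntR (rowm A) = rowm A % (2 ^ 512 - 1) := by
    have h2 : (2 ^ 512 - 1 : ℕ) = 0xffffffffffffffffffffffffffffffffffffffffffffffffffffffffffffffffffffffffffffffffffffffffffffffffffffffffffffffffffffffffffffffff := by
      decide +kernel
    rw [h2]
    rfl
  rw [h]
  refine rowm_mod ?_
  calc A.card ≤ (range n).card := card_le_card hA
    _ = n := card_range n
    _ ≤ 14 := hn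
    _ < 2 ^ 512 - 1 := by decide +kernel

theorem rep14_eq : rep14 = pk 512 14 (fun _ => 1) := by decide +kernel

theorem hh14_eq : hh14 = pk 512 14 (fun _ => 32767) := by decide +kernel

theorem wide_eq (U : ℕ) : ∀ m, wide U m = pk 512 m (rowU U) := by
  intro m
  induction m with
  | zero => rfl
  | succ m ih =>
    have h : wide U (m + 1) = wide U m + (rowU U m) <<< (512 * m) := rfl
    rw [h, ih, pk_succ, Nat.shiftLeft_eq]

theorem pk_extend {s m n : ℕ} (hmn : m ≤ n) (a : ℕ → ℕ) :
    pk s m a = pk s n (fun x => if x < m then a x else 0) := by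
  unfold pk
  have h : range m ⊆ range n := range_subset_range.2 hmn
  rw [← sum_subset h]
  · exact sum_congr rfl fun x hx => by simp only [if_pos (mem_range.1 hx)]
  · intro x _ hx
    rw [mem_range] at hx
    simp only [if_neg hx, zero_mul]

theorem nroots_eq {U m Nm : ℕ} (hm : m ≤ 14) (hN : Nm < 2 ^ 14) :
    nroots (wide U m) Nm = rowm ((range m).filter (fun x => rowU U x &&& Nm ≠ 0)) := by
  have h0 : nroots (wide U m) Nm = (((wide U m &&& (Nm * rep14)) + hh14) >>> 15) &&& rep14 := rfl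
  have hsub : (range m).filter (fun x => rowU U x &&& Nm ≠ 0) ⊆ range 14 := fun x hx =>
    mem_range.2 (lt_of_lt_of_le (mem_range.1 (mem_filter.1 hx).1) hm)
  have h512 : (2 : ℕ) ^ 14 < 2 ^ 512 := Nat.pow_lt_pow_right (by norm_num) (by norm_num)
  have h16 : (65536 : ℕ) < 2 ^ 512 := by
    have : (65536 : ℕ) = 2 ^ 16 := by norm_num
    rw [this]
    exact Nat.pow_lt_pow_right (by norm_num) (by norm_num)
  rw [h0, wide_eq, pk_extend hm, rep14_eq, hh14_eq, pk_smul, pk_land (by norm_num) _ _,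
    pk_add, rowm_eq hsub]
  · refine Nat.eq_of_testBit_eq fun p => ?_
    set v : ℕ → ℕ := fun i => (if i < m then rowU U i else 0) &&& Nm * 1 with hv
    have hv14 : ∀ i, v i < 2 ^ 14 := fun i => lt_of_le_of_lt Nat.and_le_right (by
      rw [mul_one]; exact hN)
    have hlt : ∀ i < 14, v i + 32767 < 2 ^ 512 := fun i _ => by
      have := hv14 i
      have : v i + 32767 < 65536 := by omega
      omega
    rw [Nat.testBit_and, Nat.testBit_shiftRight, pk_testBit (by norm_num) hlt,
      pk_testBit (by norm_num) (fun _ _ => Nat.one_lt_two_pow (by norm_num)),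
      pk_testBit (by norm_num) (fun i _ => lt_of_le_of_lt (ind_le _ i)
        (Nat.one_lt_two_pow (by norm_num)))]
    by_cases hp : p / 512 < 14
    · by_cases hp0 : p % 512 = 0
      · have e1 : (15 + p) / 512 = p / 512 := by omega
        have e2 : (15 + p) % 512 = 15 := by omega
        rw [e1, e2, hp0, ind_testBit0]
        have e3 : (v (p / 512) + 32767).testBit 15 =
            decide (p / 512 ∈ (range m).filter (fun x => rowU U x &&& Nm ≠ 0)) := by
          rw [Nat.testBit_eq_decide_div_mod_eq]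
          congr 1
          rw [mem_filter, mem_range]
          have h1 := hv14 (p / 512)
          by_cases h2 : p / 512 < m
          · have h3 : v (p / 512) = rowU U (p / 512) &&& Nm := by
              rw [hv]
              simp only [if_pos h2, mul_one]
            rw [← h3]
            simp only [h2, true_and, eq_iff_iff]
            omega
          · have h3 : v (p / 512) = 0 := by
              rw [hv]
              simp only [if_neg h2, Nat.zero_and]
            rw [h3]
            simp [h2]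
        rw [e3]
        simp [hp]
      · have e1 : ∀ b : ℕ, b ≤ 1 → b.testBit (p % 512) = false := by
          intro b hb
          refine Nat.testBit_lt_two_pow (lt_of_le_of_lt hb (Nat.one_lt_two_pow hp0))
        rw [e1 1 le_rfl, e1 _ (ind_le _ _)]
        simp
    · simp [hp]
  · intro i _
    split_ifs
    · exact lt_trans (rowU_lt U i) h16
    · positivity
  · intro i _
    rw [mul_one]
    omega

end Pool.Agent.Sel
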