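import Pool.Agent.H8.Sel.Bits
import Pool.Agent.H14.Sel.Main

/-!
# Soundness of the kernel checker, part 1: steps and comparison with the table
-/

set_option linter.unusedSectionVars false

namespace Pool.Agent.Sel

open Finset

/-- The entry `i` of the table. -/
def Tr.find : Tr → ℕ → Option EN
  | .nil, _ => none
  | .node e l r, i => if i = 1 then some e else
      if i % 2 = 0 then l.find (i >>> 1) else r.find (i >>> 1)

theorem Tr.get_sound {T : Tr} : ∀ {i : ℕ} {k : EN → Bool}, T.get i k = true →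
    ∃ e, T.find i = some e ∧ k e = true := by
  induction T with
  | nil => intro i k h; exact absurd h (by simp [Tr.get])
  | node e l r ihl ihr =>
    intro i k h
    change Bool.rec (motive := fun _ => Bool) (Bool.rec (motive := fun _ => Bool)
      (r.get (i >>> 1) k) (l.get (i >>> 1) k) (Nat.beq (Nat.land i 1) 0)) (k e)
      (Nat.beq i 1) = true at h
    rw [Tr.find]
    rcases r3 h with ⟨h1, h2⟩ | ⟨h1, h2⟩
    · rw [beq_iff] at h1
      rw [if_pos h1]
      exact ⟨e, rfl, h2⟩
    · rw [beq_false] at h1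
      rw [if_neg h1]
      rcases r3 h2 with ⟨h3, h4⟩ | ⟨h3, h4⟩
      · rw [beq_iff, land_eq, Nat.and_one_is_mod] at h3
        rw [if_pos h3]
        exact ihl h4
      · rw [beq_false, land_eq, Nat.and_one_is_mod] at h3
        rw [if_neg h3]
        exact ihr h4

theorem cw_div (K a : ℕ) : cw (K / 16) a = cw K (a + 1) := by
  unfold cw
  have : K / 16 = K >>> 4 := by rw [Nat.shiftRight_eq_div_pow]
  rw [this, ← Nat.shiftRight_add]
  congr 2
  ring

theorem cw_zero (K : ℕ) : cw K 0 = K % 16 := rfl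

theorem rl_sound (U W : ℕ) : ∀ (n K W' s acc msk : ℕ) (k : ℕ → ℕ → Bool),
    rl U W n K W' s acc msk k = true →
    ∃ acc' msk', k acc' msk' = true ∧
      (∀ i, msk'.testBit i = true ↔ (msk.testBit i = true ∨ ∃ a < n, cw K a = i)) ∧
      (∀ i, acc.testBit i = true → acc'.testBit i = true) ∧
      (∀ a < n, ∀ d < 16, crel U (cw K a) d = true → acc'.testBit (s + 16 * a + d) = true) ∧
      (∀ a < n, msk.testBit (cw K a) = false) ∧
      (∀ a < n, ∀ b < n, cw K a = cw K b → a = b) ∧
      (∀ a < n, cw W' a ≤ cw W (cw K a)) := by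
  intro n
  induction n with
  | zero =>
    intro K W' s acc msk k h
    refine ⟨acc, msk, h, ?_, fun _ h => h, ?_, ?_, ?_, ?_⟩
    · intro i
      simp
    all_goals intro a ha; exact absurd ha (Nat.not_lt_zero a)
  | succ n ih =>
    intro K W' s acc msk k h
    change Bool.rec (motive := fun _ => Bool) false (Bool.rec (motive := fun _ => Bool) false
      (rl U W n (K / 16) (W' / 16) (s + 16) (acc ||| (rowU U (K % 16)) <<< s)
        (msk ||| (1 <<< (K % 16))) k) (Nat.ble (W' % 16) (nib W (K % 16))))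
      (Nat.beq (Nat.land (Nat.shiftRight msk (K % 16)) 1) 0) = true at h
    obtain ⟨h1, h⟩ := r1 h
    obtain ⟨h2, h⟩ := r1 h
    rw [land1_beq0, Bool.not_eq_true'] at h1
    rw [ble_iff] at h2
    obtain ⟨acc', msk', hk, c1, c2, c3, c4, c5, c6⟩ := ih _ _ _ _ _ _ h
    have hm : ∀ i, (msk ||| (1 <<< (K % 16))).testBit i = (msk.testBit i || decide (K % 16 = i)) := by
      intro i
      rw [Nat.testBit_or, Nat.one_shiftLeft, Nat.testBit_two_pow]
    refine ⟨acc', msk', hk, ?_, ?_, ?_, ?_, ?_, ?_⟩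
    · intro i
      rw [c1, hm, Bool.or_eq_true, decide_eq_true_iff]
      constructor
      · rintro ((h3 | h3) | ⟨a, ha, h3⟩)
        · exact Or.inl h3
        · exact Or.inr ⟨0, Nat.succ_pos n, h3⟩
        · rw [cw_div] at h3
          exact Or.inr ⟨a + 1, Nat.succ_lt_succ ha, h3⟩
      · rintro (h3 | ⟨a, ha, h3⟩)
        · exact Or.inl (Or.inl h3)
        · cases a with
          | zero => exact Or.inl (Or.inr h3)
          | succ a => exact Or.inr ⟨a, Nat.lt_of_succ_lt_succ ha, by rw [cw_div]; exact h3⟩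
    · intro i hi
      apply c2
      rw [Nat.testBit_or, hi, Bool.true_or]
    · intro a ha d hd hU
      cases a with
      | zero =>
        apply c2
        rw [Nat.testBit_or, Nat.testBit_shiftLeft, rowU_testBit]
        have e1 : s + 16 * 0 + d - s = d := by omega
        have e2 : s + 16 * 0 + d ≥ s := by omega
        rw [e1]
        simp only [e2, hd, decide_true, Bool.true_and]
        rw [cw_zero] at hU
        rw [hU, Bool.or_true]
      | succ a =>
        have := c3 a (Nat.lt_of_succ_lt_succ ha) d hd (by rw [cw_div]; exact hU)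
        have e1 : s + 16 * (a + 1) + d = s + 16 + 16 * a + d := by ring
        rw [e1]
        exact this
    · intro a ha
      cases a with
      | zero => exact h1
      | succ a =>
        have := c4 a (Nat.lt_of_succ_lt_succ ha)
        rw [cw_div, hm, Bool.or_eq_false_iff] at this
        exact this.1
    · intro a ha b hb hab
      cases a with
      | zero =>
        cases b with
        | zero => rfl
        | succ b =>
          exfalso
          have := c4 b (Nat.lt_of_succ_lt_succ hb)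
          rw [cw_div, hm, Bool.or_eq_false_iff, decide_eq_false_iff_not] at this
          exact this.2 hab
      | succ a =>
        cases b with
        | zero =>
          exfalso
          have := c4 a (Nat.lt_of_succ_lt_succ ha)
          rw [cw_div, hm, Bool.or_eq_false_iff, decide_eq_false_iff_not] at this
          exact this.2 hab.symm
        | succ b =>
          rw [c5 a (Nat.lt_of_succ_lt_succ ha) b (Nat.lt_of_succ_lt_succ hb) (by
            rw [cw_div, cw_div]; exact hab)]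
    · intro a ha
      cases a with
      | zero => exact h2
      | succ a =>
        have := c6 a (Nat.lt_of_succ_lt_succ ha)
        rw [cw_div, cw_div] at this
        exact this

theorem cl_sound (U : ℕ) : ∀ (n K s acc : ℕ),
    (∀ i, acc.testBit i = true → (cl U n K s acc).testBit i = true) ∧
    (∀ a < n, ∀ c < 16, crel U c (cw K a) = true →
      (cl U n K s acc).testBit (s + 16 * c + a) = true) := by
  intro n
  induction n with
  | zero =>
    intro K s acc
    exact ⟨fun _ h => h, fun a ha => absurd ha (Nat.not_lt_zero a)⟩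
  | succ n ih =>
    intro K s acc
    have h0 : cl U (n + 1) K s acc =
      cl U n (K / 16) (s + 1) (acc ||| (colU U (K % 16)) <<< s) := rfl
    obtain ⟨c1, c2⟩ := ih (K / 16) (s + 1) (acc ||| (colU U (K % 16)) <<< s)
    rw [h0]
    refine ⟨?_, ?_⟩
    · intro i hi
      apply c1
      rw [Nat.testBit_or, hi, Bool.true_or]
    · intro a ha c hc hU
      cases a with
      | zero =>
        apply c1
        have e1 : s + 16 * c + 0 - s = 16 * c := by omega
        have e2 : s + 16 * c + 0 ≥ s := by omega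
        rw [Nat.testBit_or, Nat.testBit_shiftLeft, e1, colU_testBit16 hc]
        rw [cw_zero] at hU
        simp only [e2, hU, decide_true, Bool.true_and, Bool.or_true]
      | succ a =>
        have := c2 a (Nat.lt_of_succ_lt_succ ha) c hc (by rw [cw_div]; exact hU)
        have e1 : s + 16 * c + (a + 1) = s + 1 + 16 * c + a := by ring
        rw [e1]
        exact this

/-- The abstract state of an entry. -/
def EN.dec (e : EN) : AS where
  S := range e.m
  rel a b := crel e.U a b = true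
  w a := cw e.W a
  F := e.F
  t := e.t
  b := (e.b : ℤ) - 64

/-- Facts about entries which pass the test `soB`. -/
structure SoE (e : EN) : Prop where
  m14 : e.m ≤ 14
  lt : ∀ a b, b < 16 → crel e.U a b = true → a < e.m ∧ b < e.m
  irr : ∀ a < 16, crel e.U a a = false
  tr : ∀ a < 16, ∀ b < 16, ∀ c < 16, crel e.U a b = true → crel e.U b c = true →
    crel e.U a c = true
  w0 : ∀ a, e.m ≤ a → cw e.W a = 0

theorem trB_sound {U : ℕ} : ∀ n, trB U n = true → ∀ b < n, ∀ a < 16, ∀ c < 16,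
    crel U a b = true → crel U b c = true → crel U a c = true := by
  intro n
  induction n with
  | zero => intro _ b hb; exact absurd hb (Nat.not_lt_zero b)
  | succ n ih =>
    intro h b hb a ha c hc hab hbc
    change Bool.rec (motive := fun _ => Bool) false (trB U n)
      (subB (colU U n * rowU U n) U) = true at h
    obtain ⟨h1, h2⟩ := r1 h
    rcases Nat.lt_succ_iff_lt_or_eq.1 hb with hb | rfl
    · exact ih h2 b hb a ha c hc hab hbc
    · rw [lor_beq] at h1
      refine h1 (16 * a + c) ?_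
      rw [mul_blk (rowU_lt U b) a _ (fun i hi => colU_mod hi) c hc, colU_testBit16 ha,
        rowU_testBit]
      simp [hab, hbc, hc]

theorem diagM_testBit_aux : ∀ a < 16, diagM.testBit (16 * a + a) = true := by decide +kernel

theorem fmM_spec {m : ℕ} (hm : m ≤ 14) {a b : ℕ} (hb : b < 16)
    (h : crel (fmM m) a b = true) : a < m ∧ b < m := by
  have h0 : fmM m = (colM % (1 <<< (16 * m))) * ((1 <<< m) - 1) := rfl
  unfold crel at h
  have e0 : (1 <<< (16 * m)) = 2 ^ (16 * m) := Nat.one_shiftLeft _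
  have e1 : (1 <<< m) = 2 ^ m := Nat.one_shiftLeft _
  rw [h0, e0, e1, mul_blk (r := 2 ^ m - 1) _ a _ _ b hb, Bool.and_eq_true] at h
  · obtain ⟨h1, h2⟩ := h
    rw [Nat.testBit_mod_two_pow, Bool.and_eq_true, decide_eq_true_iff] at h1
    rw [Nat.testBit_two_pow_sub_one, decide_eq_true_iff] at h2
    omega
  · have : 2 ^ m ≤ 2 ^ 14 := Nat.pow_le_pow_right (by norm_num) hm
    have e2 : (2 : ℕ) ^ 14 = 16384 := by norm_num
    omega
  · intro i hi
    rw [Nat.testBit_mod_two_pow, Bool.and_eq_true, colM_testBit, Bool.and_eq_true] at hi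
    simpa using hi.2.2

theorem soB_sound {e : EN} (h : soB e = true) : SoE e := by
  unfold soB at h
  obtain ⟨h1, h⟩ := r1 h
  obtain ⟨h2, h⟩ := r1 h
  obtain ⟨h3, h⟩ := r1 h
  obtain ⟨h4, h5⟩ := r1 h
  have hm : e.m ≤ 14 := ble_iff.1 h1
  have hlt : ∀ a b, b < 16 → crel e.U a b = true → a < e.m ∧ b < e.m := by
    intro a b hb hab
    exact fmM_spec hm hb (lor_beq.1 h2 _ hab)
  refine ⟨hm, hlt, ?_, ?_, ?_⟩
  · intro a ha
    rw [beq_iff, land_eq] at h3
    have h6 : (e.U &&& diagM).testBit (16 * a + a) = false := by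
      rw [h3, Nat.zero_testBit]
    rw [Nat.testBit_and, diagM_testBit_aux a ha, Bool.and_true] at h6
    exact h6
  · intro a ha b hb c hc hab hbc
    exact trB_sound _ h4 b (hlt a b hb hab).2 a ha c hc hab hbc
  · intro a ha
    rw [beq_iff, shr_eq] at h5
    have h5' : e.W >>> (4 * e.m) = 0 := h5
    unfold cw
    have : 4 * a = 4 * e.m + 4 * (a - e.m) := by omega
    rw [this, Nat.shiftRight_add, h5', Nat.zero_shiftRight]

/-- All entries are strict orders. -/
def GoodT (T : Tr) (N : ℕ) : Prop := ∀ i ≤ N, ∀ e, T.find i = some e → SoE e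

/-- The set of abstract states of the table. -/
def tset (T : Tr) (N : ℕ) : Set AS := {a | ∃ i ≤ N, ∃ e, T.find i = some e ∧ a = e.dec}

/-- A concrete state from which a table entry can be reached. -/
def OkC (T : Tr) (N : ℕ) (c : CS) : Prop := ∀ (ι : Type) [DecidableEq ι] (j B : ℕ),
  RW ι j B c.dec → ∃ e ∈ tset T N, ∃ B' ≤ B, RW ι j B' e

theorem cw_lt (W a : ℕ) : cw W a < 16 := Nat.mod_lt _ (by norm_num)

theorem finB_sound {T : Tr} {N : ℕ} (hG : GoodT T N) {c : CS} {z : ℕ} {k : ℕ → Bool}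
    (h : finB T N c z k = true) : OkC T N c ∧ ∃ z', k z' = true := by
  unfold finB at h
  obtain ⟨h1, h⟩ := r1 h
  obtain ⟨e, he, h⟩ := Tr.get_sound h
  obtain ⟨h2, h⟩ := r1 h
  obtain ⟨h3, h⟩ := r1 h
  obtain ⟨h4, h⟩ := r1 h
  obtain ⟨acc, msk, h, c1, c2, c3, c4, c5, c6⟩ := rl_sound _ _ _ _ _ _ _ _ _ h
  obtain ⟨h5, h⟩ := r1 h
  obtain ⟨h6, h⟩ := r1 h
  rw [ble_iff] at h1 h2 h4
  rw [beq_iff] at h3 h5
  rw [lor_beq] at h6
  have hSo := hG _ h1 e he
  refine ⟨?_, _, h⟩
  intro ι _ j B hRW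
  refine ⟨e.dec, ⟨_, h1, e, he, rfl⟩, B, le_rfl, ?_⟩
  set K := Nat.shiftRight z 20 with hK
  obtain ⟨-, c8⟩ := cl_sound acc e.m K 0 0
  have hmm := hSo.m14
  refine hRW.relabel e.dec (cw K) ?_ ?_ ?_ ?_ ?_ ?_ ?_ h2 h3.symm.symm ?_
  · intro a ha
    change a ∈ range e.m at ha
    rw [mem_range] at ha
    rw [CS.mem_dec]
    refine ⟨cw_lt _ _, ?_⟩
    rw [← h5, c1]
    exact Or.inr ⟨a, ha, rfl⟩
  · intro a ha b hb hab
    change a ∈ range e.m at ha
    change b ∈ range e.m at hb
    rw [mem_range] at ha hb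
    exact c5 a ha b hb hab
  · intro i hi
    rw [CS.mem_dec, ← h5, c1] at hi
    obtain ⟨-, h7 | ⟨a, ha, h7⟩⟩ := hi
    · exact absurd h7 (by rw [Nat.zero_testBit]; simp)
    · exact ⟨a, mem_range.2 ha, h7⟩
  · intro a ha b hb hab
    change a ∈ range e.m at ha
    change b ∈ range e.m at hb
    rw [mem_range] at ha hb
    change crel c.U (cw K a) (cw K b) = true at hab
    show crel e.U a b = true
    have h7 := c3 a ha (cw K b) (cw_lt _ _) hab
    have h7' : crel acc a (cw K b) = true := by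
      unfold crel
      have e1 : 0 + 16 * a + cw K b = 16 * a + cw K b := by ring
      rw [← e1]
      exact h7
    have h8 := c8 b hb a (by omega) h7'
    refine h6 (16 * a + b) ?_
    have e1 : 0 + 16 * a + b = 16 * a + b := by ring
    rw [← e1]
    exact h8
  · intro a ha
    change a ∈ range e.m at ha
    rw [mem_range] at ha
    show ¬ crel e.U a a = true
    rw [hSo.irr a (by omega)]
    simp
  · intro a ha b hb d hd hab hbd
    change a ∈ range e.m at ha
    change b ∈ range e.m at hb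
    change d ∈ range e.m at hd
    rw [mem_range] at ha hb hd
    exact hSo.tr a (by omega) b (by omega) d (by omega) hab hbd
  · intro a ha
    change a ∈ range e.m at ha
    rw [mem_range] at ha
    exact c6 a ha
  · show (c.b : ℤ) - 64 ≤ (e.b : ℤ) - 64
    omega

theorem cw_add {W x : ℕ} (hx : cw W x < 15) (a : ℕ) :
    cw (Nat.add W (Nat.shiftLeft 1 (4 * x))) a = if a = x then cw W x + 1 else cw W a := by
  have h0 : Nat.add W (Nat.shiftLeft 1 (4 * x)) = W + 2 ^ (4 * x) := by
    rw [shl_eq, Nat.one_shiftLeft]; rfl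
  rw [h0]
  unfold cw at hx ⊢
  simp only [Nat.shiftRight_eq_div_pow] at hx ⊢
  have h16 : ∀ n, 2 ^ (4 * n) = 16 ^ n := fun n => by rw [pow_mul]; norm_num
  simp only [h16] at hx ⊢
  rcases lt_trichotomy a x with h1 | h1 | h1
  · rw [if_neg (by omega)]
    obtain ⟨d, rfl⟩ := Nat.exists_eq_add_of_lt h1
    have e1 : 16 ^ (a + d + 1) = 16 ^ a * (16 * 16 ^ d) := by ring
    rw [e1, Nat.add_mul_div_left _ _ (by positivity), Nat.add_mul_mod_self_left]
  · subst h1
    rw [if_pos rfl]
    have e1 : W + 16 ^ a = W + 16 ^ a * 1 := by ring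
    rw [e1, Nat.add_mul_div_left _ _ (by positivity)]
    omega
  · rw [if_neg (by omega)]
    obtain ⟨d, rfl⟩ := Nat.exists_eq_add_of_lt h1
    have e1 : 16 ^ (x + d + 1) = 16 ^ x * 16 * 16 ^ d := by ring
    have e2 : W + 16 ^ x = W + 16 ^ x * 1 := by ring
    rw [e1, ← Nat.div_div_eq_div_mul, ← Nat.div_div_eq_div_mul, e2,
      Nat.add_mul_div_left _ _ (by positivity), ← Nat.div_div_eq_div_mul, ← Nat.div_div_eq_div_mul]
    have : (W / 16 ^ x + 1) / 16 = W / 16 ^ x / 16 := by omega
    rw [this]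

theorem bigB_sound {c : CS} (h : bigB c.S c.F c.t = true) : Big c.dec := by
  unfold Big
  show c.t ≤ ((range 16).filter (fun i => c.S.testBit i = true)).card + (c.F + 1) / 2
  rw [← popc_spec]
  unfold bigB at h
  rcases r3 h with ⟨h1, -⟩ | ⟨-, h1⟩
  · rw [ble_iff] at h1
    have : c.t ≤ (c.F + 1) / 2 := h1
    omega
  · rw [ble_iff] at h1
    exact h1

theorem erase_S {c : CS} {g : ℕ} (hg : g ∈ c.dec.S) {c' : CS}
    (h : c'.S = Nat.xor c.S (Nat.shiftLeft 1 g)) : c'.dec.S = c.dec.S.erase g := by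
  ext i
  rw [mem_erase, CS.mem_dec, CS.mem_dec, h, xor_eq, Nat.testBit_xor, testBit_pow1]
  rw [CS.mem_dec] at hg
  by_cases hig : i = g
  · subst hig
    simp [hg.2]
  · have : decide (g = i) = false := by simp [Ne.symm hig]
    rw [this, Bool.xor_false]
    simp [hig]

theorem min_of_col {c : CS} {g : ℕ} (h : Nat.beq (colU c.U g) 0 = true) :
    ∀ a ∈ c.dec.S, ¬ c.dec.rel a g := by
  intro a ha h2
  rw [CS.mem_dec] at ha
  rw [beq_iff] at h
  change crel c.U a g = true at h2
  rw [← colU_testBit16 ha.1, h, Nat.zero_testBit] at h2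
  exact absurd h2 (by simp)

theorem max_of_row {c : CS} {g : ℕ} (h : Nat.beq (rowU c.U g) 0 = true) :
    ∀ a ∈ c.dec.S, ¬ c.dec.rel g a := by
  intro a ha h2
  rw [CS.mem_dec] at ha
  rw [beq_iff] at h
  change crel c.U g a = true at h2
  have := rowU_testBit c.U g a
  rw [h2, h, Nat.zero_testBit] at this
  simp [ha.1] at this

/-- Relations can be added. -/
theorem RW.addrel {ι : Type*} [DecidableEq ι] {j B : ℕ} {e : AS} (h : RW ι j B e) {a b : ℕ}
    (ha : a ∈ e.S) (hb : b ∈ e.S) (hab : a ≠ b) (hba : ¬ e.rel b a) :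
    RW ι j B { e with rel := add e.rel a b } := by
  obtain ⟨X, R, v, φ, hz, hwin, hB⟩ := h
  have hz' := hz.addrel ha hb hab hba { e with rel := add e.rel a b } rfl rfl rfl le_rfl
  exact ⟨X, _, v, φ, hz', hwin.mono_R _ hz'.so.tr (fun p _ q _ h => Or.inl h), hB⟩

theorem stepB_sound {kind g x : ℕ} {c : CS} {f : CS → Bool} (hg : g < 16) (hx : x < 16)
    (h : stepB kind g x c f = true) : ∃ c', f c' = true ∧
      ∀ (ι : Type) [DecidableEq ι] (j B : ℕ), RW ι j B c.dec → ∃ B' ≤ B, RW ι j B' c'.dec := by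
  unfold stepB at h
  obtain ⟨hS, h⟩ := r1 h
  rw [bitN_eq] at hS
  have hgS : g ∈ c.dec.S := CS.mem_dec.2 ⟨hg, hS⟩
  rcases r3 h with ⟨-, h⟩ | ⟨-, h⟩
  · -- del
    obtain ⟨h1, h⟩ := r1 h
    obtain ⟨h2, h⟩ := r1 h
    refine ⟨_, h, ?_⟩
    intro ι _ j B hRW
    set c' : CS := ⟨Nat.xor c.S (Nat.shiftLeft 1 g), clrRow c.U g, c.W, c.F, c.t, c.b⟩ with hc'
    have hS' : c'.dec.S = c.dec.S.erase g := erase_S hgS rfl
    have hbig : Big (c.dec.del g) := by
      have := bigB_sound (c := c') h2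
      unfold Big at this ⊢
      rw [hS'] at this
      exact this
    refine ⟨B, le_rfl, (hRW.drop_free hgS (min_of_col h1) hbig).congr hS' ?_ (fun _ _ => le_rfl)
      le_rfl rfl le_rfl⟩
    intro a ha b hb
    change a ∈ c.dec.S.erase g at ha
    change b ∈ c.dec.S.erase g at hb
    rw [mem_erase, CS.mem_dec] at ha hb
    show crel c.U a b = true ↔ crel (clrRow c.U g) a b = true
    rw [clrRow_spec hb.2.1]
    simp [ha.1]
  rcases r3 h with ⟨-, h⟩ | ⟨-, h⟩
  · -- delRoot
    obtain ⟨h1, h⟩ := r1 h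
    obtain ⟨h2, h⟩ := r1 h
    obtain ⟨h3, h⟩ := r1 h
    obtain ⟨h4, h⟩ := r1 h
    refine ⟨_, h, ?_⟩
    intro ι _ j B hRW
    set c' : CS := ⟨Nat.xor c.S (Nat.shiftLeft 1 g), c.U, c.W, c.F, c.t, Nat.sub c.b 1⟩ with hc'
    have hS' : c'.dec.S = c.dec.S.erase g := erase_S hgS rfl
    have hbig : Big (c.dec.delRoot g) := by
      have := bigB_sound (c := c') h3
      unfold Big at this ⊢
      rw [hS'] at this
      exact this
    obtain ⟨h5, h6⟩ := hRW.drop_root hgS (min_of_col h1) (max_of_row h2) hbig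
    refine ⟨B - 1, Nat.sub_le _ _, h6.congr hS' (fun _ _ _ _ => Iff.rfl) (fun _ _ => le_rfl)
      le_rfl rfl ?_⟩
    show (c.b : ℤ) - 64 - 1 ≤ ((Nat.sub c.b 1 : ℕ) : ℤ) - 64
    have : 1 ≤ c.b := ble_iff.1 h4
    have h7 : Nat.sub c.b 1 = c.b - 1 := rfl
    rw [h7]
    omega
  rcases r3 h with ⟨-, h⟩ | ⟨-, h⟩
  · -- tok
    obtain ⟨h1, h⟩ := r1 h
    obtain ⟨h2, h⟩ := r1 h
    obtain ⟨h3, h⟩ := r1 h
    obtain ⟨h4, h⟩ := r1 h
    obtain ⟨h5, h⟩ := r2 h
    obtain ⟨h6, h⟩ := r1 h
    refine ⟨_, h, ?_⟩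
    intro ι _ j B hRW
    set c' : CS := ⟨Nat.xor c.S (Nat.shiftLeft 1 g), clrRow c.U g,
            Nat.add c.W (Nat.shiftLeft 1 (Nat.mul 4 x)), c.F, c.t, c.b⟩ with hc'
    have hS' : c'.dec.S = c.dec.S.erase g := erase_S hgS rfl
    rw [bitN_eq] at h2 h3
    have hxS : x ∈ c.dec.S := CS.mem_dec.2 ⟨hx, h2⟩
    have hgx : crel c.U g x = true := by
      rw [rowU_testBit, Bool.and_eq_true] at h3
      exact h3.2
    rw [lor_beq] at h4
    have hbig : Big (c.dec.tok g x) := by
      have := bigB_sound (c := c') h6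
      unfold Big at this ⊢
      rw [hS'] at this
      exact this
    have hw : cw c.W x < 15 := ble_false.1 h5
    refine ⟨B, le_rfl, (hRW.drop_token hgS hxS (min_of_col h1) hgx ?_ hbig).congr hS' ?_ ?_
      le_rfl rfl le_rfl⟩
    · intro z hz hgz
      rw [CS.mem_dec] at hz
      change crel c.U g z = true at hgz
      have h7 : (rowU c.U g).testBit z = true := by
        rw [rowU_testBit, hgz]
        simp [hz.1]
      have h8 := h4 z h7
      rw [lor_eq, Nat.testBit_or, testBit_pow1, rowU_testBit] at h8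
      simp only [Bool.or_eq_true, Bool.and_eq_true, decide_eq_true_iff] at h8
      rcases h8 with h8 | h8
      · exact Or.inr h8.2
      · exact Or.inl h8.symm
    · intro a ha b hb
      change a ∈ c.dec.S.erase g at ha
      change b ∈ c.dec.S.erase g at hb
      rw [mem_erase, CS.mem_dec] at ha hb
      show crel c.U a b = true ↔ crel (clrRow c.U g) a b = true
      rw [clrRow_spec hb.2.1]
      simp [ha.1]
    · intro a ha
      show cw (Nat.add c.W (Nat.shiftLeft 1 (4 * x))) a ≤
        Function.update (cw c.W) x (cw c.W x + 1) a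
      rw [cw_add hw]
      by_cases hax : a = x
      · subst hax
        rw [if_pos rfl, Function.update_self]
      · rw [if_neg hax, Function.update_of_ne hax]
  rcases r3 h with ⟨-, h⟩ | ⟨-, h⟩
  · -- top
    obtain ⟨h1, h⟩ := r1 h
    obtain ⟨h2, h⟩ := r1 h
    obtain ⟨h3, h⟩ := r1 h
    refine ⟨_, h, ?_⟩
    intro ι _ j B hRW
    set c' : CS := ⟨Nat.xor c.S (Nat.shiftLeft 1 g), clrCol c.U g, c.W, c.F,
            Nat.sub c.t 1, Nat.sub c.b (nib c.W g)⟩ with hc'
    have hS' : c'.dec.S = c.dec.S.erase g := erase_S hgS rfl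
    obtain ⟨B', hB', h6⟩ := hRW.top hgS (max_of_row h1) (ble_iff.1 h2)
    refine ⟨B', hB', h6.congr hS' ?_ (fun _ _ => le_rfl) le_rfl rfl ?_⟩
    · intro a ha b hb
      change a ∈ c.dec.S.erase g at ha
      change b ∈ c.dec.S.erase g at hb
      rw [mem_erase, CS.mem_dec] at ha hb
      show crel c.U a b = true ↔ crel (clrCol c.U g) a b = true
      rw [clrCol_spec hg ha.2.1 hb.2.1]
      simp [hb.1]
    · show (c.b : ℤ) - 64 - (cw c.W g : ℤ) ≤ ((Nat.sub c.b (nib c.W g) : ℕ) : ℤ) - 64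
      have h7 : cw c.W g ≤ c.b := ble_iff.1 h3
      have h8 : Nat.sub c.b (nib c.W g) = c.b - cw c.W g := rfl
      rw [h8]
      omega
  rcases r3 h with ⟨-, h⟩ | ⟨-, h⟩
  · -- melt
    obtain ⟨h1, h⟩ := r1 h
    obtain ⟨h2, h⟩ := r1 h
    obtain ⟨h3, h⟩ := r1 h
    refine ⟨_, h, ?_⟩
    intro ι _ j B hRW
    set c' : CS := ⟨Nat.xor c.S (Nat.shiftLeft 1 g), c.U, c.W, Nat.add c.F 2, c.t,
      Nat.sub c.b 1⟩ with hc'
    have hS' : c'.dec.S = c.dec.S.erase g := erase_S hgS rfl
    refine ⟨B, le_rfl, (hRW.melt hgS (min_of_col h1) (max_of_row h2)).congr hS'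
      (fun _ _ _ _ => Iff.rfl) (fun _ _ => le_rfl) le_rfl rfl ?_⟩
    show (c.b : ℤ) - 64 - 1 ≤ ((Nat.sub c.b 1 : ℕ) : ℤ) - 64
    have : 1 ≤ c.b := ble_iff.1 h3
    have h7 : Nat.sub c.b 1 = c.b - 1 := rfl
    rw [h7]
    omega
  rcases r3 h with ⟨-, h⟩ | ⟨-, h⟩
  · -- relation
    obtain ⟨h1, h⟩ := r1 h
    obtain ⟨h2, h⟩ := r2 h
    obtain ⟨h3, h⟩ := r2 h
    refine ⟨_, h, ?_⟩
    intro ι _ j B hRW
    rw [bitN_eq] at h1 h3
    rw [beq_false] at h2
    have hxS : x ∈ c.dec.S := CS.mem_dec.2 ⟨hx, h1⟩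
    have hxg : ¬ c.dec.rel x g := by
      rw [rowU_testBit] at h3
      intro h4
      change crel c.U x g = true at h4
      rw [h4] at h3
      simp [hg] at h3
    refine ⟨B, le_rfl, (hRW.addrel hgS hxS h2 hxg).congr rfl ?_ (fun _ _ => le_rfl)
      le_rfl rfl le_rfl⟩
    intro a ha b hb
    change a ∈ c.dec.S at ha
    change b ∈ c.dec.S at hb
    rw [CS.mem_dec] at ha hb
    exact (addU_spec hx ha.1 hb.1).symm
  · exact absurd h (by simp)

theorem steps_sound {T : Tr} {N : ℕ} (hG : GoodT T N) : ∀ (n : ℕ) (c : CS) (z : ℕ)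
    (k : ℕ → Bool), steps T N n c z k = true → OkC T N c ∧ ∃ z', k z' = true := by
  intro n
  induction n with
  | zero => intro c z k h; exact absurd h (by simp [steps])
  | succ n ih =>
    intro c z k h
    change Bool.rec (motive := fun _ => Bool) (Bool.rec (motive := fun _ => Bool)
      (stepB (Nat.land z 7) (Nat.land (Nat.shiftRight z 3) 15)
          (Nat.land (Nat.shiftRight z 7) 15) c
          (fun c' => steps T N n c' (Nat.shiftRight z 11) k))
      (Bool.rec (motive := fun _ => Bool) false (k (Nat.shiftRight z 3)) (leafB c))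
      (Nat.beq (Nat.land z 7) 6))
      (finB T N c (Nat.shiftRight z 3) k) (Nat.beq (Nat.land z 7) 0) = true at h
    rcases r3 h with ⟨-, h⟩ | ⟨-, h⟩
    · exact finB_sound hG h
    rcases r3 h with ⟨-, h⟩ | ⟨-, h⟩
    · obtain ⟨h1, h2⟩ := r1 h
      exact ⟨fun ι _ j B hRW => absurd hRW (leaf (leafB_sound h1)), _, h2⟩
    · have h15 : ∀ y, Nat.land y 15 < 16 := by
        intro y
        have : Nat.land y 15 = y &&& 15 := rfl
        rw [this]
        exact lt_of_le_of_lt Nat.and_le_right (by norm_num)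
      obtain ⟨c', hf, hc'⟩ := stepB_sound (h15 _) (h15 _) h
      obtain ⟨h1, h2⟩ := ih c' _ k hf
      refine ⟨?_, h2⟩
      intro ι _ j B hRW
      obtain ⟨B', hB', h3⟩ := hc' ι j B hRW
      obtain ⟨e, he, B'', hB'', h4⟩ := h1 ι j B' h3
      exact ⟨e, he, B'', hB''.trans hB', h4⟩

end Pool.Agent.Sel
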