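import Pool.Agent.H8.Sel.Twin

/-!
# Soundness of the kernel checker, part 2: entries and tables
-/

set_option linter.unusedSectionVars false

namespace Pool.Agent.Sel

open Finset

theorem ok_of {T : Tr} {N : ℕ} {r : AS} {c : CS} (h : OkC T N c) (hS : c.dec.S = r.S)
    (hrel : ∀ a ∈ r.S, ∀ b ∈ r.S, (r.rel a b ↔ c.dec.rel a b))
    (hw : ∀ a ∈ r.S, c.dec.w a ≤ r.w a) (hF : c.dec.F ≤ r.F) (ht : c.dec.t = r.t)
    (hb : r.b ≤ c.dec.b) (hbig : Big r) : Ok (tset T N) r :=
  ⟨hbig, fun ι _ j B hRW => h ι j B (hRW.congr hS hrel hw hF ht hb)⟩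

theorem cs_S {e : EN} (hm : e.m ≤ 16) : e.cs.dec.S = range e.m := by
  ext i
  rw [CS.mem_dec, mem_range]
  have h : e.cs.S = (1 <<< e.m) - 1 := rfl
  rw [h, Nat.one_shiftLeft, Nat.testBit_two_pow_sub_one, decide_eq_true_iff]
  omega

theorem ins_S {e : EN} (hm : e.m < 16) {c : CS} (h : c.S = Nat.lor e.cs.S (Nat.shiftLeft 1 e.m)) :
    c.dec.S = insert e.m (range e.m) := by
  ext i
  rw [CS.mem_dec, mem_insert, mem_range, h, lor_eq, Nat.testBit_or, testBit_pow1, Bool.or_eq_true,
    decide_eq_true_iff]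
  have h : e.cs.S = (1 <<< e.m) - 1 := rfl
  rw [h, Nat.one_shiftLeft, Nat.testBit_two_pow_sub_one, decide_eq_true_iff]
  omega

theorem ins2_S {e : EN} (hm : e.m < 15) {c : CS}
    (h : c.S = Nat.lor e.cs.S (Nat.shiftLeft 3 e.m)) :
    c.dec.S = insert (e.m + 1) (insert e.m (range e.m)) := by
  have h3 : Nat.shiftLeft 3 e.m = 2 ^ e.m ||| 2 ^ (e.m + 1) := by
    refine Nat.eq_of_testBit_eq fun i => ?_
    rw [shl_eq, Nat.testBit_shiftLeft, Nat.testBit_or, Nat.testBit_two_pow, Nat.testBit_two_pow]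
    by_cases h1 : i < e.m
    · have h2 : ¬ i ≥ e.m := by omega
      have h3 : ¬ e.m = i := by omega
      have h4 : ¬ e.m + 1 = i := by omega
      simp [h2, h3, h4]
    · obtain ⟨d, rfl⟩ := Nat.exists_eq_add_of_le (not_lt.1 h1)
      have h2 : e.m + d ≥ e.m := by omega
      have h3 : e.m + d - e.m = d := by omega
      rw [h3]
      match d with
      | 0 => simp
      | 1 =>
        have h5 : Nat.testBit 3 1 = true := by decide
        simp [h5]
      | d + 2 =>
        have h4 : (3 : ℕ).testBit (d + 2) = false := by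
          apply Nat.testBit_lt_two_pow
          calc 3 < 2 ^ 2 := by norm_num
            _ ≤ 2 ^ (d + 2) := Nat.pow_le_pow_right (by norm_num) (by omega)
        rw [h4]
        simp
  ext i
  rw [CS.mem_dec, mem_insert, mem_insert, mem_range, h, lor_eq, h3, Nat.testBit_or, Nat.testBit_or,
    Nat.testBit_two_pow, Nat.testBit_two_pow]
  have h : e.cs.S = (1 <<< e.m) - 1 := rfl
  rw [h, Nat.one_shiftLeft, Nat.testBit_two_pow_sub_one]
  simp only [Bool.or_eq_true, decide_eq_true_iff]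
  omega

theorem dm_spec (col : ℕ) : ∀ (n acc i : ℕ), (dm col n acc).testBit i =
    (acc.testBit i || (decide (i < n) && col.testBit (16 * i))) := by
  intro n
  induction n with
  | zero => intro acc i; simp [dm]
  | succ n ih =>
    intro acc i
    have h : dm col (n + 1) acc = dm col n (acc ||| (((col >>> (16 * n)) &&& 1) <<< n)) := rfl
    have h1 : (1 : ℕ).testBit (i - n) = decide (0 = i - n) := Nat.testBit_two_pow (n := 0)
    rw [h, ih, Nat.testBit_or, Nat.testBit_shiftLeft, Nat.testBit_and, Nat.testBit_shiftRight,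
      h1]
    by_cases hin : i = n
    · subst hin
      have e1 : i ≥ i := le_rfl
      have e2 : i - i = 0 := by omega
      rw [e2]
      simp
    · by_cases h2 : i < n
      · have e3 : ¬ i ≥ n := by omega
        have e4 : i < n + 1 := by omega
        simp [e3, h2, e4]
      · have e5 : ¬ (0 = i - n) := by omega
        have e6 : ¬ i < n + 1 := by omega
        simp [e6, h2]
        intro _ _ _
        omega

section Node

variable {T : Tr} {N : ℕ} {e : EN}

theorem ok_rq (hS : SoE e) (hb : 1 ≤ e.b) (hbig : Big e.dec) {a b : ℕ} (_ha : a < e.m)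
    (hbm : b < e.m) (h : OkC T N ⟨e.cs.S, addU e.cs.U a b, e.cs.W, e.cs.F, e.cs.t,
      Nat.sub e.cs.b 1⟩) : Ok (tset T N) (e.dec.rq a b) := by
  have hm := hS.m14
  refine ok_of h (cs_S (by omega)) ?_ (fun _ _ => le_rfl) le_rfl rfl ?_ hbig
  · intro c hc d hd
    change c ∈ range e.m at hc
    change d ∈ range e.m at hd
    rw [mem_range] at hc hd
    exact (addU_spec (by omega) (by omega) (by omega)).symm
  · show (e.b : ℤ) - 64 - 1 ≤ ((Nat.sub e.b 1 : ℕ) : ℤ) - 64
    have h7 : Nat.sub e.b 1 = e.b - 1 := rfl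
    rw [h7]
    omega

/-- adding relations is monotone/extensional -/
theorem add_congr {R R' : ℕ → ℕ → Prop} {x y a b : ℕ} (h1 : R a b ↔ R' a b) (h2 : R a x ↔ R' a x)
    (h3 : R y b ↔ R' y b) : add R x y a b ↔ add R' x y a b := by
  unfold add
  rw [h1, h2, h3]

theorem iso_iff (hS : SoE e) {k a b : ℕ} (hk : e.m ≤ k) (hb : b < 16) :
    iso e.dec.rel k a b ↔ crel e.U a b = true := by
  unfold iso
  constructor
  · exact fun h => h.2.2
  · intro h
    have := hS.lt a b hb h
    exact ⟨by omega, by omega, h⟩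

theorem ok_n1 (hS : SoE e) (hbig : Big e.dec) {q : ℕ} (hq : q < e.m)
    (h : OkC T N ⟨Nat.lor e.cs.S (Nat.shiftLeft 1 e.m), addU e.cs.U e.m q, e.cs.W,
      Nat.sub e.cs.F 2, e.cs.t, e.cs.b⟩) : Ok (tset T N) (e.dec.n1 e.m q) := by
  have hm := hS.m14
  refine ok_of h (ins_S (by omega) rfl) ?_ ?_ le_rfl rfl le_rfl ?_
  · intro c hc d hd
    change c ∈ insert e.m (range e.m) at hc
    change d ∈ insert e.m (range e.m) at hd
    rw [mem_insert, mem_range] at hc hd
    show add (iso e.dec.rel e.m) e.m q c d ↔ crel (addU e.U e.m q) c d = true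
    rw [addU_spec (by omega) (by omega) (by omega)]
    exact add_congr (iso_iff hS le_rfl (by omega)) (iso_iff hS le_rfl (by omega))
      (iso_iff hS le_rfl (by omega))
  · intro c hc
    change c ∈ insert e.m (range e.m) at hc
    rw [mem_insert, mem_range] at hc
    show cw e.W c ≤ Function.update e.dec.w e.m 0 c
    by_cases h2 : c = e.m
    · subst h2
      rw [Function.update_self, hS.w0 _ le_rfl]
    · rw [Function.update_of_ne h2]
      exact le_rfl
  · unfold Big at hbig ⊢
    show e.t ≤ (insert e.m (range e.m)).card + (e.F - 2 + 1) / 2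
    change e.t ≤ (range e.m).card + (e.F + 1) / 2 at hbig
    rw [card_insert_of_notMem (by simp)]
    omega

theorem ok_n2 (hS : SoE e) (hbig : Big e.dec) {q : ℕ} (hq : q < e.m)
    (h : OkC T N ⟨Nat.lor e.cs.S (Nat.shiftLeft 1 e.m), addU e.cs.U q e.m, e.cs.W,
      Nat.sub e.cs.F 2, e.cs.t, e.cs.b⟩) : Ok (tset T N) (e.dec.n2 e.m q) := by
  have hm := hS.m14
  refine ok_of h (ins_S (by omega) rfl) ?_ ?_ le_rfl rfl le_rfl ?_
  · intro c hc d hd
    change c ∈ insert e.m (range e.m) at hc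
    change d ∈ insert e.m (range e.m) at hd
    rw [mem_insert, mem_range] at hc hd
    show add (iso e.dec.rel e.m) q e.m c d ↔ crel (addU e.U q e.m) c d = true
    rw [addU_spec (by omega) (by omega) (by omega)]
    exact add_congr (iso_iff hS le_rfl (by omega)) (iso_iff hS le_rfl (by omega))
      (iso_iff hS le_rfl (by omega))
  · intro c hc
    change c ∈ insert e.m (range e.m) at hc
    rw [mem_insert, mem_range] at hc
    show cw e.W c ≤ Function.update e.dec.w e.m 0 c
    by_cases h2 : c = e.m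
    · subst h2
      rw [Function.update_self, hS.w0 _ le_rfl]
    · rw [Function.update_of_ne h2]
      exact le_rfl
  · unfold Big at hbig ⊢
    show e.t ≤ (insert e.m (range e.m)).card + (e.F - 2 + 1) / 2
    change e.t ≤ (range e.m).card + (e.F + 1) / 2 at hbig
    rw [card_insert_of_notMem (by simp)]
    omega

theorem ok_nn (hS : SoE e) (hbig : Big e.dec)
    (h : OkC T N ⟨Nat.lor e.cs.S (Nat.shiftLeft 3 e.m), addU e.cs.U e.m (Nat.succ e.m), e.cs.W,
      Nat.sub e.cs.F 4, e.cs.t, Nat.succ e.cs.b⟩) :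
    Ok (tset T N) (e.dec.nn e.m (e.m + 1)) := by
  have hm := hS.m14
  refine ok_of h (ins2_S (by omega) rfl) ?_ ?_ le_rfl rfl ?_ ?_
  · intro c hc d hd
    change c ∈ insert (e.m + 1) (insert e.m (range e.m)) at hc
    change d ∈ insert (e.m + 1) (insert e.m (range e.m)) at hd
    rw [mem_insert, mem_insert, mem_range] at hc hd
    show add (iso (iso e.dec.rel e.m) (e.m + 1)) e.m (e.m + 1) c d ↔
      crel (addU e.U e.m (e.m + 1)) c d = true
    rw [addU_spec (by omega) (by omega) (by omega)]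
    have h2 : ∀ a b, b < 16 → (iso (iso e.dec.rel e.m) (e.m + 1) a b ↔ crel e.U a b = true) := by
      intro a b hb
      constructor
      · exact fun h => h.2.2.2.2
      · intro h
        have := hS.lt a b hb h
        exact ⟨by omega, by omega, by omega, by omega, h⟩
    exact add_congr (h2 _ _ (by omega)) (h2 _ _ (by omega)) (h2 _ _ (by omega))
  · intro c hc
    change c ∈ insert (e.m + 1) (insert e.m (range e.m)) at hc
    rw [mem_insert, mem_insert, mem_range] at hc
    show cw e.W c ≤ Function.update (Function.update e.dec.w e.m 0) (e.m + 1) 0 c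
    by_cases h3 : c = e.m + 1
    · subst h3
      rw [Function.update_self, hS.w0 _ (by omega)]
    · rw [Function.update_of_ne h3]
      by_cases h2 : c = e.m
      · subst h2
        rw [Function.update_self, hS.w0 _ le_rfl]
      · rw [Function.update_of_ne h2]
        exact le_rfl
  · show (e.b : ℤ) - 64 + 1 ≤ ((Nat.succ e.b : ℕ) : ℤ) - 64
    push_cast
    omega
  · unfold Big at hbig ⊢
    show e.t ≤ (insert (e.m + 1) (insert e.m (range e.m))).card + (e.F - 4 + 1) / 2
    change e.t ≤ (range e.m).card + (e.F + 1) / 2 at hbig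
    rw [card_insert_of_notMem (by simp), card_insert_of_notMem (by simp)]
    omega

theorem ok_ln (hS : SoE e)
    (hb : bigB (Nat.lor e.cs.S (Nat.shiftLeft 1 e.m)) (Nat.sub e.cs.F 3) e.cs.t = true)
    (h : OkC T N ⟨Nat.lor e.cs.S (Nat.shiftLeft 1 e.m), e.cs.U,
      Nat.add e.cs.W (Nat.shiftLeft 1 (Nat.mul 4 e.m)), Nat.sub e.cs.F 3, e.cs.t,
      Nat.succ e.cs.b⟩) : Ok (tset T N) (e.dec.ln e.m) := by
  have hm := hS.m14
  have hSS := ins_S (e := e) (c := ⟨Nat.lor e.cs.S (Nat.shiftLeft 1 e.m), e.cs.U,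
      Nat.add e.cs.W (Nat.shiftLeft 1 (Nat.mul 4 e.m)), Nat.sub e.cs.F 3, e.cs.t,
      Nat.succ e.cs.b⟩) (by omega) rfl
  refine ok_of h hSS ?_ ?_ le_rfl rfl ?_ ?_
  · intro c hc d hd
    change c ∈ insert e.m (range e.m) at hc
    change d ∈ insert e.m (range e.m) at hd
    rw [mem_insert, mem_range] at hc hd
    exact iso_iff hS le_rfl (by omega)
  · intro c hc
    change c ∈ insert e.m (range e.m) at hc
    rw [mem_insert, mem_range] at hc
    show cw (Nat.add e.W (Nat.shiftLeft 1 (4 * e.m))) c ≤ Function.update e.dec.w e.m 1 c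
    rw [cw_add (by rw [hS.w0 _ le_rfl]; norm_num)]
    by_cases h2 : c = e.m
    · subst h2
      rw [if_pos rfl, Function.update_self, hS.w0 _ le_rfl]
    · rw [if_neg h2, Function.update_of_ne h2]
      exact le_rfl
  · show (e.b : ℤ) - 64 + 1 ≤ ((Nat.succ e.b : ℕ) : ℤ) - 64
    push_cast
    omega
  · have := bigB_sound (c := ⟨Nat.lor e.cs.S (Nat.shiftLeft 1 e.m), e.cs.U,
      Nat.add e.cs.W (Nat.shiftLeft 1 (Nat.mul 4 e.m)), Nat.sub e.cs.F 3, e.cs.t,
      Nat.succ e.cs.b⟩) hb
    unfold Big at this ⊢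
    rw [hSS] at this
    exact this

theorem ok_l1 (hS : SoE e) {q : ℕ} (hw : cw e.W q < 15)
    (hb : bigB e.cs.S (Nat.sub e.cs.F 1) e.cs.t = true)
    (h : OkC T N ⟨e.cs.S, e.cs.U, Nat.add e.cs.W (Nat.shiftLeft 1 (Nat.mul 4 q)),
          Nat.sub e.cs.F 1, e.cs.t, e.cs.b⟩) : Ok (tset T N) (e.dec.l1 q) := by
  have hm := hS.m14
  have hSS := cs_S (e := e) (by omega)
  refine ok_of h hSS (fun _ _ _ _ => Iff.rfl) ?_ le_rfl rfl le_rfl ?_
  · intro c _
    show cw (Nat.add e.W (Nat.shiftLeft 1 (4 * q))) c ≤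
      Function.update e.dec.w q (e.dec.w q + 1) c
    rw [cw_add hw]
    by_cases h2 : c = q
    · subst h2
      rw [if_pos rfl, Function.update_self]
      exact le_rfl
    · rw [if_neg h2, Function.update_of_ne h2]
      exact le_rfl
  · have := bigB_sound (c := ⟨e.cs.S, e.cs.U, Nat.add e.cs.W (Nat.shiftLeft 1 (Nat.mul 4 q)),
          Nat.sub e.cs.F 1, e.cs.t, e.cs.b⟩) hb
    unfold Big at this ⊢
    have h2 : (⟨e.cs.S, e.cs.U, Nat.add e.cs.W (Nat.shiftLeft 1 (Nat.mul 4 q)),
          Nat.sub e.cs.F 1, e.cs.t, e.cs.b⟩ : CS).dec.S = e.cs.dec.S := rfl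
    rw [h2, hSS] at this
    exact this

theorem ok_l2 (hS : SoE e) {q : ℕ} (hq : q < e.m) (h1b : 1 ≤ e.b)
    (hb : bigB (Nat.xor e.cs.S (Nat.land e.cs.S (dm (colU e.cs.U q) e.m (Nat.shiftLeft 1 q))))
      e.cs.F e.cs.t = true)
    (h : OkC T N ⟨Nat.xor e.cs.S (Nat.land e.cs.S (dm (colU e.cs.U q) e.m (Nat.shiftLeft 1 q))),
        clrDn e.cs.U q, e.cs.W, e.cs.F, e.cs.t, Nat.sub e.cs.b 1⟩) :
    Ok (tset T N) (e.dec.l2 q) := by
  have hm := hS.m14
  have hi1 : ∀ i, i ∈ (e.dec.l2 q).S ↔ i ∈ range e.m ∧ ¬ (i = q ∨ crel e.U i q = true) := by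
    classical
    intro i
    unfold AS.l2
    exact mem_filter
  have hSS : (⟨Nat.xor e.cs.S (Nat.land e.cs.S (dm (colU e.cs.U q) e.m (Nat.shiftLeft 1 q))),
        clrDn e.cs.U q, e.cs.W, e.cs.F, e.cs.t, Nat.sub e.cs.b 1⟩ : CS).dec.S =
        (e.dec.l2 q).S := by
    classical
    ext i
    have hi0 := hi1 i
    rw [CS.mem_dec, hi0, mem_range]
    show i < 16 ∧ (Nat.xor e.cs.S (Nat.land e.cs.S (dm (colU e.cs.U q) e.m
      (Nat.shiftLeft 1 q)))).testBit i = true ↔ _
    rw [xor_eq, land_eq, Nat.testBit_xor, Nat.testBit_and, dm_spec, testBit_pow1]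
    have h2 : e.cs.S = (1 <<< e.m) - 1 := rfl
    rw [h2, Nat.one_shiftLeft, Nat.testBit_two_pow_sub_one]
    have h3 : e.cs.U = e.U := rfl
    rw [h3]
    by_cases him : i < e.m
    · rw [colU_testBit16 (by omega)]
      have h4 : i < 16 := by omega
      simp only [him, h4, decide_true, Bool.true_and, true_and, not_or]
      by_cases hiq : i = q
      · subst hiq
        simp
      · have h5 : ¬ q = i := fun h => hiq h.symm
        simp [hiq, h5]
    · simp [him]
  refine ok_of h hSS ?_ (fun _ _ => le_rfl) le_rfl rfl ?_ ?_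
  · intro a ha b hb
    rw [hi1, mem_range] at ha hb
    show crel e.U a b = true ↔ crel (clrDn e.U q) a b = true
    rw [clrDn_spec (by omega) (by omega)]
    have h1 : decide (a = q) = false := by
      rw [decide_eq_false_iff_not]
      exact fun h => ha.2 (Or.inl h)
    have h2 : crel e.U a q = false := by
      rw [← Bool.not_eq_true]
      exact fun h => ha.2 (Or.inr h)
    rw [h1, h2]
    simp
  · show (e.b : ℤ) - 64 - 1 ≤ ((Nat.sub e.b 1 : ℕ) : ℤ) - 64
    have h7 : Nat.sub e.b 1 = e.b - 1 := rfl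
    rw [h7]
    omega
  · have := bigB_sound (c := ⟨Nat.xor e.cs.S (Nat.land e.cs.S (dm (colU e.cs.U q) e.m
        (Nat.shiftLeft 1 q))), clrDn e.cs.U q, e.cs.W, e.cs.F, e.cs.t, Nat.sub e.cs.b 1⟩) hb
    unfold Big at this ⊢
    rw [hSS] at this
    exact this

/-- One of the two answers is fine for the pair `a, b`. -/
def GQq (T : Tr) (N : ℕ) (e : EN) (a b : ℕ) : Prop := ¬ e.dec.rel a b → ¬ e.dec.rel b a →
  Ok (tset T N) (e.dec.rq a b) ∨ Ok (tset T N) (e.dec.rq b a)

theorem Tw.gq {u v a b : ℕ} (h : Tw e u v) (hS : SoE e) (ha : a < e.m) (hb : b < e.m)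
    (hg : GQq T N e a b) : GQq T N e (sg u v a) (sg u v b) := by
  have hm := hS.m14
  intro h1 h2
  have h3 : ¬ e.dec.rel a b := by
    change ¬ crel e.U _ _ = true at h1
    rw [h.rel hS (by omega) (by omega)] at h1
    exact h1
  have h4 : ¬ e.dec.rel b a := by
    change ¬ crel e.U _ _ = true at h2
    rw [h.rel hS (by omega) (by omega)] at h2
    exact h2
  rcases hg h3 h4 with h5 | h5
  · exact Or.inl (h.ok_rq hS ha hb h5)
  · exact Or.inr (h.ok_rq hS hb ha h5)

/-- soundness of the inner loop over pairs -/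
theorem qIn_sound (hG : GoodT T N) (hS : SoE e) (hb : 1 ≤ e.b) (hbig : Big e.dec) {b : ℕ}
    (hbm : b < e.m) : ∀ (n z : ℕ) (k : ℕ → Bool), n ≤ b →
    qIn T N e.cs (twM e.U e.W (Nat.pred e.m)) b n z k = true →
    (∀ a, n ≤ a → a < b → GQq T N e a b) →
    (∀ a < b, GQq T N e a b) ∧ ∃ z', k z' = true := by
  intro n
  induction n with
  | zero => intro z k _ h h0; exact ⟨fun a ha => h0 a (Nat.zero_le a) ha, z, h⟩
  | succ n ih =>
    intro z k hn h h0
    change Bool.rec (motive := fun _ => Bool) (Bool.rec (motive := fun _ => Bool)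
      (Bool.rec (motive := fun _ => Bool)
      (Bool.rec (motive := fun _ => Bool)
        (steps T N fuel ⟨e.cs.S, addU e.cs.U b n, e.cs.W, e.cs.F, e.cs.t, Nat.sub e.cs.b 1⟩
              (Nat.shiftRight z 1)
              (fun z' => qIn T N e.cs (twM e.U e.W (Nat.pred e.m)) b n z' k))
        (steps T N fuel ⟨e.cs.S, addU e.cs.U n b, e.cs.W, e.cs.F, e.cs.t, Nat.sub e.cs.b 1⟩
              (Nat.shiftRight z 1)
              (fun z' => qIn T N e.cs (twM e.U e.W (Nat.pred e.m)) b n z' k))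
        (Nat.beq (Nat.land z 1) 0))
        (qIn T N e.cs (twM e.U e.W (Nat.pred e.m)) b n z k)
        (Bool.rec (motive := fun _ => Bool) false (Nat.ble (n + 2) b)
          (bitN (twM e.U e.W (Nat.pred e.m)) n)))
        (qIn T N e.cs (twM e.U e.W (Nat.pred e.m)) b n z k)
      (bitN e.cs.U (16 * b + n)))
      (qIn T N e.cs (twM e.U e.W (Nat.pred e.m)) b n z k)
      (bitN e.cs.U (16 * n + b)) = true at h
    have key : GQq T N e n b ∧
        ∃ z', qIn T N e.cs (twM e.U e.W (Nat.pred e.m)) b n z' k = true := by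
      rcases r3 h with ⟨h1, h⟩ | ⟨-, h⟩
      · rw [bitN_eq] at h1
        exact ⟨fun h2 _ => absurd h1 h2, z, h⟩
      rcases r3 h with ⟨h1, h⟩ | ⟨-, h⟩
      · rw [bitN_eq] at h1
        exact ⟨fun _ h2 => absurd h1 h2, z, h⟩
      rcases r3 h with ⟨h1, h⟩ | ⟨-, h⟩
      · obtain ⟨h1, h2⟩ := r1 h1
        rw [ble_iff] at h2
        have htw := tw_of hS h1
        have h3 := htw.gq hS (by omega) hbm (h0 (n + 1) (by omega) (by omega))
        rw [sg_right, sg_of_ne (by omega) (by omega)] at h3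
        exact ⟨h3, z, h⟩
      rcases r3 h with ⟨-, h⟩ | ⟨-, h⟩
      · obtain ⟨h2, h3⟩ := steps_sound hG _ _ _ _ h
        exact ⟨fun _ _ => Or.inl (ok_rq hS hb hbig (by omega) hbm h2), h3⟩
      · obtain ⟨h2, h3⟩ := steps_sound hG _ _ _ _ h
        exact ⟨fun _ _ => Or.inr (ok_rq hS hb hbig hbm (by omega) h2), h3⟩
    obtain ⟨h1, z', h2⟩ := key
    refine ih z' k (by omega) h2 ?_
    intro a ha hab
    rcases eq_or_lt_of_le ha with rfl | ha
    · exact h1
    · exact h0 a ha hab

theorem qOut_sound (hG : GoodT T N) (hS : SoE e) (hb : 1 ≤ e.b) (hbig : Big e.dec) :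
    ∀ (n z : ℕ) (k : ℕ → Bool), n ≤ e.m →
    qOut T N e.cs (twM e.U e.W (Nat.pred e.m)) n z k = true →
    (∀ b, n ≤ b → b < e.m → ∀ a < b, GQq T N e a b) →
    (∀ b < e.m, ∀ a < b, GQq T N e a b) ∧ ∃ z', k z' = true := by
  intro n
  induction n with
  | zero => intro z k _ h h0; exact ⟨fun b hb => h0 b (Nat.zero_le b) hb, z, h⟩
  | succ n ih =>
    intro z k hn h h0
    change Bool.rec (motive := fun _ => Bool)
      (qIn T N e.cs (twM e.U e.W (Nat.pred e.m)) n n z
        (fun z' => qOut T N e.cs (twM e.U e.W (Nat.pred e.m)) n z' k))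
      (qOut T N e.cs (twM e.U e.W (Nat.pred e.m)) n z k)
      (bitN (twM e.U e.W (Nat.pred e.m)) n) = true at h
    have key : (∀ a < n, GQq T N e a n) ∧
        ∃ z', qOut T N e.cs (twM e.U e.W (Nat.pred e.m)) n z' k = true := by
      rcases r3 h with ⟨h1, h⟩ | ⟨-, h⟩
      · have htw := tw_of hS h1
        have hvm := htw.vm
        refine ⟨?_, z, h⟩
        intro a ha
        have h3 := htw.gq hS (by omega) hvm (h0 (n + 1) (by omega) hvm a (by omega))
        rw [sg_right, sg_of_ne (by omega) (by omega)] at h3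
        exact h3
      · exact qIn_sound hG hS hb hbig (by omega) n z _ le_rfl h
          (fun a h1 h2 => absurd h2 (by omega))
    obtain ⟨h1, z', h2⟩ := key
    refine ih z' k (by omega) h2 ?_
    intro b hnb hbm a hab
    rcases eq_or_lt_of_le hnb with rfl | hnb
    · exact h1 a hab
    · exact h0 b hnb hbm a hab

theorem lItem_sound (hG : GoodT T N) (hS : SoE e) (hb : 1 ≤ e.b) {q : ℕ} (hq : q < e.m) {z : ℕ}
    {k : ℕ → Bool} (h : lItem T N e.cs e.m q z k = true) :
    (Ok (tset T N) (e.dec.l1 q) ∨ Ok (tset T N) (e.dec.l2 q)) ∧ ∃ z', k z' = true := by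
  unfold lItem at h
  rcases r3 h with ⟨-, h⟩ | ⟨-, h⟩
  · obtain ⟨h1, h⟩ := r2 h
    obtain ⟨h2, h⟩ := r1 h
    obtain ⟨h3, h4⟩ := steps_sound hG _ _ _ _ h
    exact ⟨Or.inl (ok_l1 hS (ble_false.1 h1) h2 h3), h4⟩
  · obtain ⟨h2, h⟩ := r1 h
    obtain ⟨h3, h4⟩ := steps_sound hG _ _ _ _ h
    exact ⟨Or.inr (ok_l2 hS hq hb h2 h3), h4⟩

/-- One of the two answers is fine for the moves unit : solid `q` and light : solid `q`. -/
def GLq (T : Tr) (N : ℕ) (e : EN) (q : ℕ) : Prop :=
  (Ok (tset T N) (e.dec.n1 e.m q) ∨ Ok (tset T N) (e.dec.n2 e.m q)) ∧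
    (Ok (tset T N) (e.dec.l1 q) ∨ Ok (tset T N) (e.dec.l2 q))

theorem Tw.gl {u v q : ℕ} (h : Tw e u v) (hS : SoE e) (hq : q < e.m)
    (hg : GLq T N e q) : GLq T N e (sg u v q) := by
  obtain ⟨h1, h2⟩ := hg
  refine ⟨?_, ?_⟩
  · rcases h1 with h1 | h1
    · exact Or.inl (h.ok_n1 hS hq h1)
    · exact Or.inr (h.ok_n2 hS hq h1)
  · rcases h2 with h2 | h2
    · exact Or.inl (h.ok_l1 hS h2)
    · exact Or.inr (h.ok_l2 hS hq h2)

theorem nlB_sound (hG : GoodT T N) (hS : SoE e) (hb : 1 ≤ e.b)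
    (hbig : Big e.dec) : ∀ (n z : ℕ) (k : ℕ → Bool), n ≤ e.m →
    nlB T N e.cs e.m (twM e.U e.W (Nat.pred e.m)) n z k = true →
    (∀ q, n ≤ q → q < e.m → GLq T N e q) →
    (∀ q < e.m, GLq T N e q) ∧ ∃ z', k z' = true := by
  intro n
  induction n with
  | zero => intro z k _ h h0; exact ⟨fun q hq => h0 q (Nat.zero_le q) hq, z, h⟩
  | succ n ih =>
    intro z k hn h h0
    change Bool.rec (motive := fun _ => Bool) (Bool.rec (motive := fun _ => Bool)
        (steps T N fuel ⟨Nat.lor e.cs.S (Nat.shiftLeft 1 e.m), addU e.cs.U n e.m, e.cs.W,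
          Nat.sub e.cs.F 2, e.cs.t, e.cs.b⟩
          (Nat.shiftRight z 1) (fun z' => lItem T N e.cs e.m n z'
            (fun z'' => nlB T N e.cs e.m (twM e.U e.W (Nat.pred e.m)) n z'' k)))
        (steps T N fuel ⟨Nat.lor e.cs.S (Nat.shiftLeft 1 e.m), addU e.cs.U e.m n, e.cs.W,
          Nat.sub e.cs.F 2, e.cs.t, e.cs.b⟩
          (Nat.shiftRight z 1) (fun z' => lItem T N e.cs e.m n z'
            (fun z'' => nlB T N e.cs e.m (twM e.U e.W (Nat.pred e.m)) n z'' k)))
        (Nat.beq (Nat.land z 1) 0)) (nlB T N e.cs e.m (twM e.U e.W (Nat.pred e.m)) n z k)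
        (bitN (twM e.U e.W (Nat.pred e.m)) n) = true at h
    have key : GLq T N e n ∧
        ∃ z', nlB T N e.cs e.m (twM e.U e.W (Nat.pred e.m)) n z' k = true := by
      rcases r3 h with ⟨h1, h⟩ | ⟨-, h⟩
      · have htw := tw_of hS h1
        have hvm := htw.vm
        have h3 := htw.gl hS hvm (h0 (n + 1) (by omega) hvm)
        rw [sg_right] at h3
        exact ⟨h3, z, h⟩
      have key2 : (Ok (tset T N) (e.dec.n1 e.m n) ∨ Ok (tset T N) (e.dec.n2 e.m n)) ∧
          ∃ z', lItem T N e.cs e.m n z' (fun z'' => nlB T N e.cs e.m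
            (twM e.U e.W (Nat.pred e.m)) n z'' k) = true := by
        rcases r3 h with ⟨-, h⟩ | ⟨-, h⟩
        · obtain ⟨h2, h3⟩ := steps_sound hG _ _ _ _ h
          exact ⟨Or.inl (ok_n1 hS hbig (by omega) h2), h3⟩
        · obtain ⟨h2, h3⟩ := steps_sound hG _ _ _ _ h
          exact ⟨Or.inr (ok_n2 hS hbig (by omega) h2), h3⟩
      obtain ⟨h1, z', h2⟩ := key2
      obtain ⟨h3, h4⟩ := lItem_sound hG hS hb (by omega) h2
      exact ⟨⟨h1, h3⟩, h4⟩
    obtain ⟨h1, z', h2⟩ := key
    refine ih z' k (by omega) h2 ?_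
    intro q hnq hqm
    rcases eq_or_lt_of_le hnq with rfl | hnq
    · exact h1
    · exact h0 q hnq hqm

theorem nnB_sound (hG : GoodT T N) (hS : SoE e)
    (hbig : Big e.dec) {z : ℕ} (h : nnB T N e.cs e.m z = true) :
    Ok (tset T N) (e.dec.nn e.m (e.m + 1)) ∧ Ok (tset T N) (e.dec.ln e.m) := by
  unfold nnB at h
  obtain ⟨h1, z', h⟩ := steps_sound hG _ _ _ _ h
  obtain ⟨h2, h⟩ := r1 h
  obtain ⟨h3, -⟩ := steps_sound hG _ _ _ _ h
  exact ⟨ok_nn hS hbig h1, ok_ln hS h2 h3⟩

theorem nrB_sound {U m t : ℕ} : ∀ n, nrB U m t n = true → ∀ c < n,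
    ¬ (popc (rowU U c) + 1 = t ∧ popc (rowU U c) + 1 + colU U c % 65535 = m) := by
  intro n
  induction n with
  | zero => intro _ c hc; exact absurd hc (Nat.not_lt_zero c)
  | succ n ih =>
    intro h c hc
    change Bool.rec (motive := fun _ => Bool) (nrB U m t n) (Bool.rec (motive := fun _ => Bool)
      (nrB U m t n) false (Nat.beq (popc (rowU U n) + 1 + colU U n % 65535) m))
      (Nat.beq (popc (rowU U n) + 1) t) = true at h
    rcases Nat.lt_succ_iff_lt_or_eq.1 hc with hc | rfl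
    · rcases r3 h with ⟨-, h⟩ | ⟨-, h⟩
      · exact ih (r2 h).2 c hc
      · exact ih h c hc
    · rintro ⟨h1, h2⟩
      rcases r3 h with ⟨-, h⟩ | ⟨h3, -⟩
      · have := (r2 h).1
        rw [beq_false] at this
        exact this h2
      · rw [beq_false] at h3
        exact h3 h1

theorem not_resolved (hS : SoE e) (h : nrB e.U e.m e.t e.m = true) : ¬ Resolved e.dec := by
  classical
  rintro ⟨c, hc, Q, hQ, hcQ, hQc, h1, h2, -⟩
  change c ∈ range e.m at hc
  change Q ⊆ range e.m at hQ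
  rw [mem_range] at hc
  have hm := hS.m14
  refine nrB_sound _ h c hc ?_
  change ∀ x ∈ Q, crel e.U c x = true at h1
  change ∀ x ∈ range e.m, x ≠ c → x ∉ Q → crel e.U x c = true at h2
  change Q.card + 1 = e.t at hQc
  have hno : ∀ x < 16, crel e.U c x = true → ¬ crel e.U x c = true := by
    intro x hx h3 h4
    have := hS.tr c (by omega) x hx c (by omega) h3 h4
    rw [hS.irr c (by omega)] at this
    exact absurd this (by simp)
  have hup : popc (rowU e.U c) = Q.card := by
    rw [popc_spec]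
    congr 1
    ext x
    rw [mem_filter, mem_range, rowU_testBit]
    constructor
    · rintro ⟨hx, h3⟩
      simp only [hx, decide_true, Bool.true_and] at h3
      have hxm := (hS.lt c x hx h3).2
      by_contra hxQ
      by_cases hxc : x = c
      · subst hxc
        rw [hS.irr x hx] at h3
        exact absurd h3 (by simp)
      · exact hno x hx h3 (h2 x (mem_range.2 hxm) hxc hxQ)
    · intro hx
      have hxm := mem_range.1 (hQ hx)
      have hx16 : x < 16 := by omega
      refine ⟨hx16, ?_⟩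
      simp [hx16, h1 x hx]
  have hdown : colU e.U c % 65535 = (range e.m \ insert c Q).card := by
    rw [mod_blk 16 (colU e.U c) (fun i hi => ⟨colU_mod hi, by
      have := colU_lt256 hi
      omega⟩)]
    have h3 : ∑ a ∈ range 16, ((colU e.U c).testBit (16 * a)).toNat =
        ((range 16).filter (fun a => crel e.U a c = true)).card := by
      rw [card_filter]
      refine sum_congr rfl fun a ha => ?_
      rw [mem_range] at ha
      rw [colU_testBit16 ha]
      cases crel e.U a c <;> rfl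
    have h4 : (range 16).filter (fun a => crel e.U a c = true) = range e.m \ insert c Q := by
      ext x
      rw [mem_filter, mem_range, mem_sdiff, mem_range, mem_insert, not_or]
      constructor
      · rintro ⟨hx, h5⟩
        refine ⟨(hS.lt x c (by omega) h5).1, ?_, ?_⟩
        · rintro rfl
          rw [hS.irr x hx] at h5
          exact absurd h5 (by simp)
        · intro hxQ
          exact hno x hx (h1 x hxQ) h5
      · rintro ⟨hx, h5, h6⟩
        exact ⟨by omega, h2 x (mem_range.2 hx) h5 h6⟩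
    rw [h3, h4]
    refine Nat.mod_eq_of_lt ?_
    have : (range e.m \ insert c Q).card ≤ e.m := by
      calc _ ≤ (range e.m).card := card_le_card sdiff_subset
        _ = e.m := card_range _
    omega
  have hsub : insert c Q ⊆ range e.m := insert_subset (mem_range.2 hc) hQ
  have hcard : (range e.m \ insert c Q).card = e.m - (Q.card + 1) := by
    rw [card_sdiff_of_subset hsub, card_range, card_insert_of_notMem hcQ]
  have hle : Q.card + 1 ≤ e.m := by
    rw [← card_insert_of_notMem hcQ]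
    calc _ ≤ (range e.m).card := card_le_card hsub
      _ = e.m := card_range _
  rw [hup, hdown, hcard]
  omega

end Node

end Pool.Agent.Sel
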