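import Pool.Agent.H8.Sel.Sound2

/-!
# Tables of states checked by the kernel give lower bounds
-/

set_option linter.unusedSectionVars false

namespace Pool.Agent.Sel

open Finset

variable {T : Tr} {N : ℕ} {e : EN}

theorem big_of_cs (hS : SoE e) (h : bigB e.cs.S e.F e.t = true) : Big e.dec := by
  have hm := hS.m14
  have := bigB_sound (c := e.cs) h
  unfold Big at this ⊢
  rw [cs_S (by omega)] at this
  exact this

theorem nodeB_sound (hG : GoodT T N) (hS : SoE e) {z : ℕ} (h : nodeB T N e z = true) :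
    NodeOK (tset T N) e.dec := by
  unfold nodeB at h
  obtain ⟨h1, h⟩ := r1 h
  obtain ⟨h2, h⟩ := r1 h
  obtain ⟨h3, h⟩ := r1 h
  have hbig : Big e.dec := big_of_cs hS h3
  have hb : 1 ≤ e.b := ble_iff.1 h2
  have sym : (∀ b < e.m, ∀ a < b, ¬ e.dec.rel a b → ¬ e.dec.rel b a →
      Ok (tset T N) (e.dec.rq a b) ∨ Ok (tset T N) (e.dec.rq b a)) →
      ∀ a ∈ e.dec.S, ∀ b ∈ e.dec.S, a ≠ b → ¬ e.dec.rel a b → ¬ e.dec.rel b a →
        Ok (tset T N) (e.dec.rq a b) ∨ Ok (tset T N) (e.dec.rq b a) := by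
    intro hq a ha b hb hab h5 h6
    change a ∈ range e.m at ha
    change b ∈ range e.m at hb
    rw [mem_range] at ha hb
    rcases lt_or_gt_of_ne hab with h7 | h7
    · exact hq b hb a h7 h5 h6
    · exact (hq a ha b h7 h6 h5).symm
  rcases r3 h with ⟨h4, h⟩ | ⟨h4, h⟩
  · obtain ⟨h5, h⟩ := r1 h
    have hF : e.dec.F = 0 := beq_iff.1 h4
    obtain ⟨h6, -⟩ := qOut_sound hG hS hb hbig _ _ _ le_rfl h
      (fun b h1 h2 => absurd h2 (by omega))
    exact ⟨hbig, ble_iff.1 h1, fun _ => not_resolved hS h5, sym h6, fun h => absurd hF h,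
      fun h => absurd hF h, fun h => absurd hF h, fun h => absurd hF h⟩
  · have hF : e.dec.F ≠ 0 := beq_false.1 h4
    obtain ⟨h6, z', h⟩ := qOut_sound hG hS hb hbig _ _ _ le_rfl h
      (fun b h1 h2 => absurd h2 (by omega))
    obtain ⟨h7, z'', h⟩ := nlB_sound hG hS hb hbig _ _ _ le_rfl h
      (fun b h1 h2 => absurd h2 (by omega))
    obtain ⟨h8, h9⟩ := nnB_sound hG hS hbig h
    refine ⟨hbig, ble_iff.1 h1, fun h => absurd h hF, sym h6, ?_, ?_, ?_, ?_⟩
    · intro _ q hq
      change q ∈ range e.m at hq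
      rw [mem_range] at hq
      exact ⟨e.m, fun h10 => lt_irrefl _ (mem_range.1 h10), (h7 q hq).1⟩
    · intro _ q hq
      change q ∈ range e.m at hq
      rw [mem_range] at hq
      exact (h7 q hq).2
    · intro _
      refine ⟨e.m, e.m + 1, fun h10 => lt_irrefl _ (mem_range.1 h10), ?_, by omega, h8⟩
      intro h10
      have : e.m + 1 < e.m := mem_range.1 h10
      omega
    · intro _
      exact ⟨e.m, fun h10 => lt_irrefl _ (mem_range.1 h10), h9⟩

theorem entryB_so {z : ℕ} (h : entryB T N e z = true) : SoE e := soB_sound (r1 h).1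

theorem entryB_sound (hG : GoodT T N) {z : ℕ} (h : entryB T N e z = true) :
    (∀ (ι : Type) [DecidableEq ι] (j B : ℕ), ¬ RW ι j B e.dec) ∨ NodeOK (tset T N) e.dec := by
  unfold entryB at h
  obtain ⟨h1, h⟩ := r1 h
  have hS := soB_sound h1
  have hm := hS.m14
  rcases r3 h with ⟨-, h⟩ | ⟨-, h⟩
  · left
    intro ι _ j B hRW
    refine leaf (leafB_sound h) (hRW.congr (cs_S (by omega)) (fun _ _ _ _ => Iff.rfl)
      (fun _ _ => le_rfl) le_rfl rfl le_rfl)
  · exact Or.inr (nodeB_sound hG hS h)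

/-- The entries `lo, .., hi - 1` are checked. -/
def Chk (T : Tr) (N lo hi : ℕ) : Prop :=
  ∀ i, lo ≤ i → i < hi → ∃ z, T.get i (fun e => entryB T N e z) = true

theorem chunkB_sound : ∀ (zs : List ℕ) (i : ℕ), chunkB T N i zs = true →
    Chk T N i (i + zs.length) := by
  intro zs
  induction zs with
  | nil =>
    intro i _ l h1 h2
    simp only [List.length_nil, add_zero] at h2
    omega
  | cons z zs ih =>
    intro i h l h1 h2
    change Bool.rec (motive := fun _ => Bool) false (chunkB T N (i + 1) zs)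
      (T.get i (fun e => entryB T N e z)) = true at h
    obtain ⟨h3, h4⟩ := r1 h
    rcases eq_or_lt_of_le h1 with rfl | h5
    · exact ⟨z, h3⟩
    · refine ih (i + 1) h4 l h5 ?_
      rw [List.length_cons] at h2
      omega

theorem Chk.trans {a b c : ℕ} (h1 : Chk T N a b) (h2 : Chk T N b c) : Chk T N a c := by
  intro i h3 h4
  rcases lt_or_ge i b with h | h
  · exact h1 i h3 h
  · exact h2 i h h4

theorem Tr.find_zero : ∀ T : Tr, T.find 0 = none := by
  intro T
  induction T with
  | nil => rfl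
  | node e l r ihl _ =>
    rw [Tr.find, if_neg (by norm_num), if_pos (by norm_num)]
    exact ihl

/-- **A checked table is lost for the algorithm.** -/
theorem table_sound (h : Chk T N 1 (N + 1)) : ∀ e ∈ tset T N,
    (∀ (ι : Type) [DecidableEq ι] (j B : ℕ), ¬ RW ι j B e) ∨ NodeOK (tset T N) e := by
  have key : ∀ i ≤ N, ∀ e, T.find i = some e → ∃ z, entryB T N e z = true := by
    intro i hi e he
    have h1 : 1 ≤ i := by
      rcases Nat.eq_zero_or_pos i with rfl | h1
      · rw [Tr.find_zero] at he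
        exact absurd he (by simp)
      · exact h1
    obtain ⟨z, hz⟩ := h i h1 (by omega)
    obtain ⟨e', he', h2⟩ := Tr.get_sound hz
    rw [he, Option.some_inj] at he'
    subst he'
    exact ⟨z, h2⟩
  have hG : GoodT T N := by
    intro i hi e he
    obtain ⟨z, hz⟩ := key i hi e he
    exact entryB_so hz
  rintro _ ⟨i, hi, e, he, rfl⟩
  obtain ⟨z, hz⟩ := key i hi e he
  exact entryB_sound hG hz

theorem start_dec {F t b : ℕ} : (⟨0, 0, 0, F, t, b + 64⟩ : EN).dec = AS.start F t b := by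
  unfold EN.dec AS.start
  have h1 : (fun a b => crel 0 a b = true) = fun (_ _ : ℕ) => False := by
    funext a b
    unfold crel
    rw [Nat.zero_testBit]
    simp
  have h2 : cw 0 = fun _ => 0 := by
    funext a
    unfold cw
    rw [Nat.zero_shiftRight]
  have h3 : (((b + 64 : ℕ) : ℤ) - 64) = (b : ℤ) := by
    push_cast
    ring
  simp only [h1, h2, h3, range_zero]

/-- **Lower bounds from a checked table**: if the entry `1` is the start with fluid `F` (half units)
and budget `b`, then `V t n ≥ n + (t - 1) j + b + 1` for all `n` with `F 2 ^ j ≤ 2 n`. -/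
theorem table_lower (h : Chk T N 1 (N + 1)) (hN : 1 ≤ N) {F t b : ℕ}
    (hs : T.find 1 = some ⟨0, 0, 0, F, t, b + 64⟩) (ht : 1 ≤ t) {n j : ℕ} (hn : 0 < n)
    (hF : F * 2 ^ j ≤ 2 * n) {d' : ℕ}
    (h0 : Win t (Finset.univ : Finset (Fin n)) (fun _ => 0) emp d') :
    n + (t - 1) * j + b + 1 ≤ V t n :=
  fluid_lower (tset T N) (table_sound h) ⟨1, hN, _, hs, start_dec.symm⟩ ht hn hF h0

end Pool.Agent.Sel
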