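import Pool.Agent.H8.Sel.Sound

/-!
# Twins
-/

set_option linter.unusedSectionVars false

namespace Pool.Agent.Sel

open Finset

/-- Isomorphic states. -/
theorem RW.iso {ι : Type*} [DecidableEq ι] {j B : ℕ} {e : AS} (h : RW ι j B e) (e' : AS)
    (κ : ℕ → ℕ) (hmem : ∀ a ∈ e'.S, κ a ∈ e.S)
    (hinj : ∀ a ∈ e'.S, ∀ b ∈ e'.S, κ a = κ b → a = b)
    (hsurj : ∀ c ∈ e.S, ∃ a ∈ e'.S, κ a = c)
    (hrel : ∀ a ∈ e'.S, ∀ b ∈ e'.S, (e.rel (κ a) (κ b) ↔ e'.rel a b))
    (hw : ∀ a ∈ e'.S, e'.w a ≤ e.w (κ a)) (hF : e'.F ≤ e.F) (ht : e'.t = e.t)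
    (hb : e.b ≤ e'.b) : RW ι j B e' := by
  have h0 := h
  obtain ⟨X, R, v, φ, hz, -, -⟩ := h0
  have hR : ∀ a ∈ e'.S, ∀ b ∈ e'.S, (R (φ (κ a)) (φ (κ b)) ↔ e'.rel a b) := fun a ha b hb =>
    (hz.rel _ (hmem a ha) _ (hmem b hb)).trans (hrel a ha b hb)
  refine h.relabel e' κ hmem hinj hsurj (fun a ha b hb => (hrel a ha b hb).1) ?_ ?_ hw hF ht hb
  · intro a ha h2
    exact hz.so.irr _ ((hR a ha a ha).2 h2)
  · intro a ha b hb c hc h2 h3
    exact (hR a ha c hc).1 (hz.so.tr _ _ _ ((hR a ha b hb).2 h2) ((hR b hb c hc).2 h3))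

/-- `u` and `v` are twins of the entry `e`. -/
structure Tw (e : EN) (u v : ℕ) : Prop where
  um : u < e.m
  vm : v < e.m
  row : ∀ a < 16, crel e.U u a = crel e.U v a
  col : ∀ a < 16, crel e.U a u = crel e.U a v
  w : cw e.W u = cw e.W v

/-- the swap -/
def sg (u v a : ℕ) : ℕ := Equiv.swap u v a

theorem sg_inj {u v a b : ℕ} : sg u v a = sg u v b ↔ a = b := (Equiv.swap u v).injective.eq_iff

theorem sg_sg (u v a : ℕ) : sg u v (sg u v a) = a := Equiv.swap_apply_self u v a

theorem sg_of_ne {u v a : ℕ} (h1 : a ≠ u) (h2 : a ≠ v) : sg u v a = a :=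
  Equiv.swap_apply_of_ne_of_ne h1 h2

theorem sg_left (u v : ℕ) : sg u v u = v := Equiv.swap_apply_left u v

theorem sg_right (u v : ℕ) : sg u v v = u := Equiv.swap_apply_right u v

theorem sg_cases (u v a : ℕ) : (a = u ∧ sg u v a = v) ∨ (a = v ∧ sg u v a = u) ∨
    (a ≠ u ∧ a ≠ v ∧ sg u v a = a) := by
  by_cases h1 : a = u
  · exact Or.inl ⟨h1, by rw [h1, sg_left]⟩
  · by_cases h2 : a = v
    · exact Or.inr (Or.inl ⟨h2, by rw [h2, sg_right]⟩)
    · exact Or.inr (Or.inr ⟨h1, h2, sg_of_ne h1 h2⟩)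

section

variable {T : Tr} {N : ℕ} {e : EN} {u v : ℕ}

theorem Tw.lt (h : Tw e u v) {a n : ℕ} (hn : e.m ≤ n) : sg u v a < n ↔ a < n := by
  have := h.um
  have := h.vm
  rcases sg_cases u v a with ⟨h1, h2⟩ | ⟨h1, h2⟩ | ⟨h1, h2, h3⟩ <;> omega

theorem Tw.lt_m (h : Tw e u v) {a : ℕ} : sg u v a < e.m ↔ a < e.m := h.lt le_rfl

theorem Tw.fix (h : Tw e u v) {a : ℕ} (ha : e.m ≤ a) : sg u v a = a := by
  have := h.um
  have := h.vm
  exact sg_of_ne (by omega) (by omega)

theorem Tw.rel (h : Tw e u v) (hS : SoE e) {a b : ℕ} (ha : a < 16) (hb : b < 16) :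
    crel e.U (sg u v a) (sg u v b) = crel e.U a b := by
  have hm := hS.m14
  have hu := h.um
  have hv := h.vm
  have huu : crel e.U u u = false := hS.irr u (by omega)
  have huv : crel e.U u v = false := by rw [← h.col u (by omega)]; exact huu
  have hvu : crel e.U v u = false := by rw [← h.row u (by omega)]; exact huu
  have hvv : crel e.U v v = false := hS.irr v (by omega)
  rcases sg_cases u v a with ⟨h1, h2⟩ | ⟨h1, h2⟩ | ⟨h1, h2, h3⟩ <;>
  rcases sg_cases u v b with ⟨h4, h5⟩ | ⟨h4, h5⟩ | ⟨h4, h5, h6⟩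
  · rw [h2, h5, h1, h4, huu, hvv]
  · rw [h2, h5, h1, h4, hvu, huv]
  · rw [h2, h6, h1, h.row b hb]
  · rw [h2, h5, h1, h4, huv, hvu]
  · rw [h2, h5, h1, h4, huu, hvv]
  · rw [h2, h6, h1, h.row b hb]
  · rw [h3, h5, h4, h.col a ha]
  · rw [h3, h5, h4, h.col a ha]
  · rw [h3, h6]

theorem Tw.wt (h : Tw e u v) (a : ℕ) : cw e.W (sg u v a) = cw e.W a := by
  rcases sg_cases u v a with ⟨h1, h2⟩ | ⟨h1, h2⟩ | ⟨h1, h2, h3⟩
  · rw [h2, h1, h.w]
  · rw [h2, h1, h.w]
  · rw [h3]

/-- Transport of `Ok` along an isomorphism given by the swap. -/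
theorem ok_swap {r r' : AS} (hok : Ok (tset T N) r)
    (hS : ∀ a, a ∈ r.S ↔ sg u v a ∈ r'.S) (hF : r.F = r'.F) (ht : r.t = r'.t) (hb : r.b = r'.b)
    (hrel : ∀ a ∈ r.S, ∀ b ∈ r.S, (r'.rel (sg u v a) (sg u v b) ↔ r.rel a b))
    (hw : ∀ a ∈ r.S, r.w a = r'.w (sg u v a)) : Ok (tset T N) r' := by
  obtain ⟨hbig, hok⟩ := hok
  refine ⟨?_, ?_⟩
  · unfold Big at hbig ⊢
    have : r.S.card = r'.S.card := by
      refine Finset.card_bij' (fun a _ => sg u v a) (fun a _ => sg u v a) ?_ ?_ ?_ ?_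
      · intro a ha; exact (hS a).1 ha
      · intro a ha; rw [hS, sg_sg]; exact ha
      · intro a _; exact sg_sg u v a
      · intro a _; exact sg_sg u v a
    rw [← this, ← hF, ← ht]
    exact hbig
  · intro ι _ j B hRW
    refine hok ι j B (hRW.iso r (sg u v) ?_ ?_ ?_ ?_ ?_ hF.le ht hb.ge)
    · intro a ha; exact (hS a).1 ha
    · intro a _ b _ hab; exact sg_inj.1 hab
    · intro c hc; exact ⟨sg u v c, (hS _).2 (by rw [sg_sg]; exact hc), sg_sg u v c⟩
    · exact hrel
    · intro a ha; exact (hw a ha).le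

theorem add_sg {R R' : ℕ → ℕ → Prop} {x y a b : ℕ} (h1 : R' (sg u v a) (sg u v b) ↔ R a b)
    (h2 : R' (sg u v a) (sg u v x) ↔ R a x) (h3 : R' (sg u v y) (sg u v b) ↔ R y b) :
    add R' (sg u v x) (sg u v y) (sg u v a) (sg u v b) ↔ add R x y a b := by
  unfold add
  rw [h1, h2, h3, sg_inj, sg_inj]

theorem Tw.ok_rq (h : Tw e u v) (hS : SoE e) {x y : ℕ} (hx : x < e.m) (hy : y < e.m)
    (hok : Ok (tset T N) (e.dec.rq x y)) :
    Ok (tset T N) (e.dec.rq (sg u v x) (sg u v y)) := by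
  have hm := hS.m14
  refine ok_swap (u := u) (v := v) hok ?_ rfl rfl rfl ?_ ?_
  · intro a
    show a ∈ range e.m ↔ sg u v a ∈ range e.m
    rw [mem_range, mem_range, h.lt_m]
  · intro a ha b hb
    change a ∈ range e.m at ha
    change b ∈ range e.m at hb
    rw [mem_range] at ha hb
    refine add_sg ?_ ?_ ?_
    all_goals
      show crel e.U _ _ = true ↔ crel e.U _ _ = true
      rw [h.rel hS (by omega) (by omega)]
  · intro a _
    exact (h.wt a).symm

theorem Tw.iso_sg (h : Tw e u v) (hS : SoE e) {a b : ℕ} (ha : a < 16) (hb : b < 16) :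
    iso e.dec.rel e.m (sg u v a) (sg u v b) ↔ iso e.dec.rel e.m a b := by
  unfold iso
  have h1 : ∀ c, sg u v c = e.m ↔ c = e.m := by
    intro c
    have := h.um
    have := h.vm
    rcases sg_cases u v c with ⟨h1, h2⟩ | ⟨h1, h2⟩ | ⟨h1, h2, h3⟩ <;> omega
  have h2 : e.dec.rel (sg u v a) (sg u v b) ↔ e.dec.rel a b := by
    show crel e.U _ _ = true ↔ crel e.U _ _ = true
    rw [h.rel hS ha hb]
  rw [h2]
  simp only [ne_eq, h1]

theorem Tw.ok_n1 (h : Tw e u v) (hS : SoE e) {q : ℕ} (hq : q < e.m)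
    (hok : Ok (tset T N) (e.dec.n1 e.m q)) : Ok (tset T N) (e.dec.n1 e.m (sg u v q)) := by
  have hm := hS.m14
  refine ok_swap (u := u) (v := v) hok ?_ rfl rfl rfl ?_ ?_
  · intro a
    show a ∈ insert e.m (range e.m) ↔ sg u v a ∈ insert e.m (range e.m)
    rw [mem_insert, mem_insert, mem_range, mem_range, h.lt_m]
    have := h.um
    have := h.vm
    rcases sg_cases u v a with ⟨h1, h2⟩ | ⟨h1, h2⟩ | ⟨h1, h2, h3⟩ <;> omega
  · intro a ha b hb
    change a ∈ insert e.m (range e.m) at ha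
    change b ∈ insert e.m (range e.m) at hb
    rw [mem_insert, mem_range] at ha hb
    show add (iso e.dec.rel e.m) e.m (sg u v q) (sg u v a) (sg u v b) ↔
      add (iso e.dec.rel e.m) e.m q a b
    have h0 := add_sg (u := u) (v := v) (R := iso e.dec.rel e.m) (R' := iso e.dec.rel e.m)
      (x := e.m) (y := q) (a := a) (b := b) (h.iso_sg hS (by omega) (by omega))
      (h.iso_sg hS (by omega) (by omega)) (h.iso_sg hS (by omega) (by omega))
    rw [h.fix le_rfl] at h0
    exact h0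
  · intro a ha
    show Function.update e.dec.w e.m 0 a = Function.update e.dec.w e.m 0 (sg u v a)
    by_cases h2 : a = e.m
    · subst h2
      rw [h.fix le_rfl]
    · have h3 : sg u v a ≠ e.m := by
        have := h.um
        have := h.vm
        rcases sg_cases u v a with ⟨h1, h2⟩ | ⟨h1, h2⟩ | ⟨h1, h2, h3⟩ <;> omega
      rw [Function.update_of_ne h2, Function.update_of_ne h3]
      exact (h.wt a).symm

theorem Tw.ok_n2 (h : Tw e u v) (hS : SoE e) {q : ℕ} (hq : q < e.m)
    (hok : Ok (tset T N) (e.dec.n2 e.m q)) : Ok (tset T N) (e.dec.n2 e.m (sg u v q)) := by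
  have hm := hS.m14
  refine ok_swap (u := u) (v := v) hok ?_ rfl rfl rfl ?_ ?_
  · intro a
    show a ∈ insert e.m (range e.m) ↔ sg u v a ∈ insert e.m (range e.m)
    rw [mem_insert, mem_insert, mem_range, mem_range, h.lt_m]
    have := h.um
    have := h.vm
    rcases sg_cases u v a with ⟨h1, h2⟩ | ⟨h1, h2⟩ | ⟨h1, h2, h3⟩ <;> omega
  · intro a ha b hb
    change a ∈ insert e.m (range e.m) at ha
    change b ∈ insert e.m (range e.m) at hb
    rw [mem_insert, mem_range] at ha hb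
    show add (iso e.dec.rel e.m) (sg u v q) e.m (sg u v a) (sg u v b) ↔
      add (iso e.dec.rel e.m) q e.m a b
    have h0 := add_sg (u := u) (v := v) (R := iso e.dec.rel e.m) (R' := iso e.dec.rel e.m)
      (x := q) (y := e.m) (a := a) (b := b) (h.iso_sg hS (by omega) (by omega))
      (h.iso_sg hS (by omega) (by omega)) (h.iso_sg hS (by omega) (by omega))
    rw [h.fix le_rfl] at h0
    exact h0
  · intro a ha
    show Function.update e.dec.w e.m 0 a = Function.update e.dec.w e.m 0 (sg u v a)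
    by_cases h2 : a = e.m
    · subst h2
      rw [h.fix le_rfl]
    · have h3 : sg u v a ≠ e.m := by
        have := h.um
        have := h.vm
        rcases sg_cases u v a with ⟨h1, h2⟩ | ⟨h1, h2⟩ | ⟨h1, h2, h3⟩ <;> omega
      rw [Function.update_of_ne h2, Function.update_of_ne h3]
      exact (h.wt a).symm

theorem Tw.ok_l1 (h : Tw e u v) (hS : SoE e) {q : ℕ}
    (hok : Ok (tset T N) (e.dec.l1 q)) : Ok (tset T N) (e.dec.l1 (sg u v q)) := by
  have hm := hS.m14
  refine ok_swap (u := u) (v := v) hok ?_ rfl rfl rfl ?_ ?_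
  · intro a
    show a ∈ range e.m ↔ sg u v a ∈ range e.m
    rw [mem_range, mem_range, h.lt_m]
  · intro a ha b hb
    change a ∈ range e.m at ha
    change b ∈ range e.m at hb
    rw [mem_range] at ha hb
    show crel e.U _ _ = true ↔ crel e.U _ _ = true
    rw [h.rel hS (by omega) (by omega)]
  · intro a _
    show Function.update e.dec.w q (e.dec.w q + 1) a =
      Function.update e.dec.w (sg u v q) (e.dec.w (sg u v q) + 1) (sg u v a)
    by_cases h2 : a = q
    · subst h2
      rw [Function.update_self, Function.update_self]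
      congr 1
      exact (h.wt a).symm
    · rw [Function.update_of_ne h2, Function.update_of_ne (fun h3 => h2 (sg_inj.1 h3))]
      exact (h.wt a).symm

theorem Tw.ok_l2 (h : Tw e u v) (hS : SoE e) {q : ℕ} (hq : q < e.m)
    (hok : Ok (tset T N) (e.dec.l2 q)) : Ok (tset T N) (e.dec.l2 (sg u v q)) := by
  have hm := hS.m14
  have hi0 : ∀ p i, i ∈ (e.dec.l2 p).S ↔ i ∈ range e.m ∧ ¬ (i = p ∨ crel e.U i p = true) := by
    classical
    intro p i
    unfold AS.l2
    exact mem_filter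
  refine ok_swap (u := u) (v := v) hok ?_ rfl rfl rfl ?_ ?_
  · intro a
    rw [hi0, hi0, mem_range, mem_range, h.lt_m, sg_inj]
    constructor
    · rintro ⟨h1, h2⟩
      rw [h.rel hS (by omega) (by omega)]
      exact ⟨h1, h2⟩
    · rintro ⟨h1, h2⟩
      rw [h.rel hS (by omega) (by omega)] at h2
      exact ⟨h1, h2⟩
  · intro a ha b hb
    rw [hi0, mem_range] at ha hb
    show crel e.U _ _ = true ↔ crel e.U _ _ = true
    rw [h.rel hS (by omega) (by omega)]
  · intro a _
    exact (h.wt a).symm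

theorem twM_sound {U W : ℕ} : ∀ n i, (twM U W n).testBit i = true → i < n ∧
    rowU U i = rowU U (i + 1) ∧ colU U i = colU U (i + 1) ∧ cw W i = cw W (i + 1) := by
  intro n
  induction n with
  | zero =>
    intro i h
    change (0 : ℕ).testBit i = true at h
    rw [Nat.zero_testBit] at h
    exact absurd h (by simp)
  | succ n ih =>
    intro i h
    change ((twM U W n) ||| (Bool.rec (motive := fun _ => ℕ) 0
      (Bool.rec (motive := fun _ => ℕ) 0
        (Bool.rec (motive := fun _ => ℕ) 0 (Nat.shiftLeft 1 n)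
          (Nat.beq (nib W n) (nib W (n + 1))))
        (Nat.beq (colU U n) (colU U (n + 1))))
      (Nat.beq (rowU U n) (rowU U (n + 1))))).testBit i = true at h
    rw [Nat.testBit_or, Bool.or_eq_true] at h
    rcases h with h | h
    · obtain ⟨h1, h2⟩ := ih i h
      exact ⟨by omega, h2⟩
    · cases h1 : Nat.beq (rowU U n) (rowU U (n + 1)) with
      | false => rw [h1] at h; simp at h
      | true =>
        cases h2 : Nat.beq (colU U n) (colU U (n + 1)) with
        | false => rw [h1, h2] at h; simp at h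
        | true =>
          cases h3 : Nat.beq (nib W n) (nib W (n + 1)) with
          | false => rw [h1, h2, h3] at h; simp at h
          | true =>
            rw [h1, h2, h3] at h
            change (Nat.shiftLeft 1 n).testBit i = true at h
            rw [testBit_pow1, decide_eq_true_iff] at h
            subst h
            exact ⟨by omega, beq_iff.1 h1, beq_iff.1 h2, beq_iff.1 h3⟩

theorem tw_of {e : EN} (hS : SoE e) {i : ℕ} (h : bitN (twM e.U e.W (Nat.pred e.m)) i = true) :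
    Tw e i (i + 1) := by
  rw [bitN_eq] at h
  obtain ⟨h1, h2, h3, h4⟩ := twM_sound _ _ h
  have hm := hS.m14
  have h5 : Nat.pred e.m = e.m - 1 := rfl
  rw [h5] at h1
  refine ⟨by omega, by omega, ?_, ?_, h4⟩
  · intro a ha
    have e1 := rowU_testBit e.U i a
    have e2 := rowU_testBit e.U (i + 1) a
    rw [h2] at e1
    rw [e1] at e2
    simpa [ha] using e2
  · intro a ha
    rw [← colU_testBit16 ha, ← colU_testBit16 ha, h3]

end

end Pool.Agent.Sel
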