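import Mathlib

/-!
# Upper bound for selection (Hadian-Sobel), for decision trees

`V_t(n) ≤ n - t + (t-1) k` whenever `2 ≤ t ≤ n` and `n + 2 - t ≤ 2^k`.
The tree is a knockout tree on `n + 2 - t` elements with `t - 2` elements in reserve.
-/

namespace Pool.Agent.H8.Sel

open Finset

/-- Binary decision trees whose inner nodes are comparisons `y i < y j` and whose
leaves are outputs. -/
inductive DT (n : ℕ) : Type
  | out (i : Fin n) : DT n
  | cmp (i j : Fin n) (lt gt : DT n) : DT n

namespace DT

variable {n : ℕ}

/-- All comparisons are between distinct indices. -/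
def Valid : DT n → Prop
  | out _ => True
  | cmp i j l r => i ≠ j ∧ l.Valid ∧ r.Valid

/-- Worst case number of comparisons. -/
def depth : DT n → ℕ
  | out _ => 0
  | cmp _ _ l r => max l.depth r.depth + 1

/-- The output on the input `y`. -/
noncomputable def eval (y : Fin n → ℝ) : DT n → Fin n
  | out i => i
  | cmp i j l r => open Classical in if y i < y j then l.eval y else r.eval y

end DT

variable {n : ℕ}

/-- If the input satisfies `P`, then `b` more comparisons suffice to find the index of the
`t`-th largest entry. -/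
def Can (t : ℕ) (P : (Fin n → ℝ) → Prop) (b : ℕ) : Prop :=
  ∃ T : DT n, T.Valid ∧ T.depth ≤ b ∧ ∀ y : Fin n → ℝ, Function.Injective y → P y →
    (univ.filter (fun x => y (T.eval y) < y x)).card + 1 = t

theorem Can.mono {t : ℕ} {P Q : (Fin n → ℝ) → Prop} {b b' : ℕ} (h : Can t Q b)
    (hPQ : ∀ y, P y → Q y) (hb : b ≤ b') : Can t P b' := by
  obtain ⟨T, h1, h2, h3⟩ := h
  exact ⟨T, h1, h2.trans hb, fun y hy hP => h3 y hy (hPQ y hP)⟩

theorem Can.out {t : ℕ} {P : (Fin n → ℝ) → Prop} (i : Fin n)
    (h : ∀ y : Fin n → ℝ, Function.Injective y → P y →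
      (univ.filter (fun x => y i < y x)).card + 1 = t) : Can t P 0 :=
  ⟨DT.out i, trivial, le_refl _, h⟩

theorem Can.cmp {t : ℕ} {P : (Fin n → ℝ) → Prop} {b : ℕ} {i j : Fin n} (hij : i ≠ j)
    (h1 : Can t (fun y => P y ∧ y i < y j) b) (h2 : Can t (fun y => P y ∧ y j < y i) b) :
    Can t P (b + 1) := by
  obtain ⟨T1, a1, b1, c1⟩ := h1
  obtain ⟨T2, a2, b2, c2⟩ := h2
  refine ⟨DT.cmp i j T1 T2, ⟨hij, a1, a2⟩, ?_, ?_⟩
  · simp only [DT.depth]
    omega
  · intro y hy hP
    by_cases hlt : y i < y j
    · simp only [DT.eval, hlt, if_true]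
      exact c1 y hy ⟨hP, hlt⟩
    · have hne : y i ≠ y j := fun h => hij (hy h)
      have hgt : y j < y i := lt_of_le_of_ne (not_lt.1 hlt) (Ne.symm hne)
      simp only [DT.eval, hlt, if_false]
      exact c2 y hy ⟨hP, hgt⟩

/-- Knockout trees. -/
inductive TT (n : ℕ) : Type
  | leaf (a : Fin n) : TT n
  | node (l r : TT n) : TT n

namespace TT

/-- The winner. -/
def root : TT n → Fin n
  | leaf a => a
  | node l _ => l.root

/-- The players. -/
def elems : TT n → Multiset (Fin n)
  | leaf a => {a}
  | node l r => l.elems + r.elems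

/-- The height. -/
def ht : TT n → ℕ
  | leaf _ => 0
  | node l r => max l.ht r.ht + 1

/-- All recorded results are true for `y`. -/
def WF (y : Fin n → ℝ) : TT n → Prop
  | leaf _ => True
  | node l r => l.WF y ∧ r.WF y ∧ y r.root < y l.root

theorem root_mem (T : TT n) : T.root ∈ T.elems := by
  induction T with
  | leaf a => simp [root, elems]
  | node l r ihl _ => simp only [root, elems, Multiset.mem_add]; exact Or.inl ihl

theorem le_root {y : Fin n → ℝ} {T : TT n} (h : T.WF y) : ∀ a ∈ T.elems, y a ≤ y T.root := by
  induction T with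
  | leaf a => intro b hb; simp only [elems, Multiset.mem_singleton] at hb; rw [hb]; rfl
  | node l r ihl ihr =>
    intro b hb
    obtain ⟨h1, h2, h3⟩ := h
    simp only [elems, Multiset.mem_add] at hb
    rcases hb with hb | hb
    · exact ihl h1 b hb
    · exact (ihr h2 b hb).trans h3.le

end TT

theorem build_can {t : ℕ} (k : ℕ) : ∀ (L : List (Fin n)) (P : (Fin n → ℝ) → Prop) (b : ℕ),
    1 ≤ L.length → L.length ≤ 2 ^ k → L.Nodup →
    (∀ T : TT n, T.elems = (L : Multiset (Fin n)) → T.ht ≤ k →
      Can t (fun y => P y ∧ T.WF y) b) →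
    Can t P (b + (L.length - 1)) := by
  induction k with
  | zero =>
    intro L P b h1 h2 hnd h
    have hl : L.length = 1 := by
      simp at h2
      omega
    obtain ⟨a, rfl⟩ := List.length_eq_one_iff.1 hl
    have := h (TT.leaf a) (by simp [TT.elems]) (by simp [TT.ht])
    refine this.mono (fun y hy => ⟨hy, trivial⟩) (by simp)
  | succ k ih =>
    intro L P b h1 h2 hnd h
    by_cases hl : L.length = 1
    · obtain ⟨a, rfl⟩ := List.length_eq_one_iff.1 hl
      have := h (TT.leaf a) (by simp [TT.elems]) (by simp [TT.ht])
      refine this.mono (fun y hy => ⟨hy, trivial⟩) (by simp)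
    · set m := L.length / 2 with hm
      have hpow : 2 ^ (k + 1) = 2 * 2 ^ k := by ring
      have hsplit : L.take m ++ L.drop m = L := List.take_append_drop m L
      have hl1 : (L.take m).length = m := by
        rw [List.length_take]; omega
      have hl2 : (L.drop m).length = L.length - m := by
        rw [List.length_drop]
      have hnd' : (L.take m ++ L.drop m).Nodup := by rw [hsplit]; exact hnd
      have hnd1 : (L.take m).Nodup := (List.nodup_append'.1 hnd').1
      have hnd2 : (L.drop m).Nodup := (List.nodup_append'.1 hnd').2.1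
      have hdisj : List.Disjoint (L.take m) (L.drop m) := (List.nodup_append'.1 hnd').2.2
      have key : Can t P ((b + 1 + ((L.drop m).length - 1)) + ((L.take m).length - 1)) := by
        refine ih (L.take m) P _ (by omega) (by omega) hnd1 ?_
        intro T1 he1 hh1
        refine ih (L.drop m) _ _ (by omega) (by omega) hnd2 ?_
        intro T2 he2 hh2
        have hne : T1.root ≠ T2.root := by
          intro he
          have m1 : T1.root ∈ L.take m := by
            have := T1.root_mem
            rw [he1] at this
            exact this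
          have m2 : T2.root ∈ L.drop m := by
            have := T2.root_mem
            rw [he2] at this
            exact this
          rw [he] at m1
          exact hdisj m1 m2
        refine Can.cmp hne ?_ ?_
        · refine (h (TT.node T2 T1) ?_ ?_).mono ?_ le_rfl
          · simp only [TT.elems, he1, he2]
            rw [add_comm, Multiset.coe_add, hsplit]
          · simp only [TT.ht]; omega
          · rintro y ⟨⟨⟨hP, w1⟩, w2⟩, hc⟩
            exact ⟨hP, w2, w1, hc⟩
        · refine (h (TT.node T1 T2) ?_ ?_).mono ?_ le_rfl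
          · simp only [TT.elems, he1, he2]
            rw [Multiset.coe_add, hsplit]
          · simp only [TT.ht]; omega
          · rintro y ⟨⟨⟨hP, w1⟩, w2⟩, hc⟩
            exact ⟨hP, w1, w2, hc⟩
      refine key.mono (fun y hy => hy) ?_
      omega

theorem replace_can {t : ℕ} (T : TT n) : ∀ (P : (Fin n → ℝ) → Prop) (b k : ℕ) (r : Fin n),
    (r ::ₘ T.elems).Nodup → T.ht ≤ k →
    (∀ T' : TT n, T'.elems = r ::ₘ (T.elems.erase T.root) → T'.ht ≤ k →
      Can t (fun y => P y ∧ T'.WF y) b) →
    Can t (fun y => P y ∧ T.WF y) (b + k) := by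
  induction T with
  | leaf a =>
    intro P b k r hnd hh h
    refine (h (TT.leaf r) ?_ (by simp [TT.ht])).mono ?_ (Nat.le_add_right _ _)
    · simp [TT.elems, TT.root]
    · rintro y ⟨hP, _⟩
      exact ⟨hP, trivial⟩
  | node l s ihl _ =>
    intro P b k r hnd hh h
    have hht : max l.ht s.ht + 1 ≤ k := hh
    obtain ⟨k', rfl⟩ : ∃ k', k = k' + 1 := ⟨k - 1, by omega⟩
    have hnd2 : (r ::ₘ (l.elems + s.elems)).Nodup := hnd
    have hnd3 : (r ::ₘ l.elems).Nodup := by
      refine Multiset.nodup_of_le ?_ hnd2
      exact Multiset.cons_le_cons r (Multiset.le_add_right _ _)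
    have key : Can t (fun y => (P y ∧ s.WF y) ∧ l.WF y) ((b + 1) + k') := by
      refine ihl _ (b + 1) k' r hnd3 (by omega) ?_
      intro l' he hh'
      have hall : (l'.elems + s.elems).Nodup := by
        rw [he]
        refine Multiset.nodup_of_le ?_ hnd2
        rw [Multiset.cons_add]
        refine Multiset.cons_le_cons r ?_
        exact Multiset.add_le_add_right (Multiset.erase_le _ _)
      have hne : l'.root ≠ s.root := by
        intro hroot
        have := Multiset.nodup_add.1 hall
        exact Multiset.disjoint_left.1 this.2.2 l'.root_mem (hroot ▸ s.root_mem)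
      have hel : (l.elems + s.elems).erase l.root = l.elems.erase l.root + s.elems :=
        Multiset.erase_add_left_pos _ l.root_mem
      refine Can.cmp hne ?_ ?_
      · refine (h (TT.node s l') ?_ ?_).mono ?_ le_rfl
        · simp only [TT.elems, TT.root, he, hel]
          rw [add_comm, Multiset.cons_add]
        · simp only [TT.ht]; omega
        · rintro y ⟨⟨⟨hP, ws⟩, wl⟩, hc⟩
          exact ⟨hP, ws, wl, hc⟩
      · refine (h (TT.node l' s) ?_ ?_).mono ?_ le_rfl
        · simp only [TT.elems, TT.root, he, hel]
          rw [Multiset.cons_add]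
        · simp only [TT.ht]; omega
        · rintro y ⟨⟨⟨hP, ws⟩, wl⟩, hc⟩
          exact ⟨hP, wl, ws, hc⟩
    refine key.mono ?_ (by omega)
    rintro y ⟨hP, w1, w2, _⟩
    exact ⟨⟨hP, w2⟩, w1⟩

theorem remove_can {t : ℕ} (T : TT n) : ∀ (P : (Fin n → ℝ) → Prop) (b k : ℕ),
    T.elems.Nodup → T.ht ≤ k → 2 ≤ T.elems.card →
    (∀ T' : TT n, T'.elems = T.elems.erase T.root → T'.ht ≤ k →
      Can t (fun y => P y ∧ T'.WF y) b) →
    Can t (fun y => P y ∧ T.WF y) (b + (k - 1)) := by
  induction T with
  | leaf a =>
    intro P b k hnd hh hc h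
    simp [TT.elems] at hc
  | node l s ihl _ =>
    intro P b k hnd hh hc h
    have hht : max l.ht s.ht + 1 ≤ k := hh
    obtain ⟨k', rfl⟩ : ∃ k', k = k' + 1 := ⟨k - 1, by omega⟩
    have hnd2 : (l.elems + s.elems).Nodup := hnd
    have hel : (l.elems + s.elems).erase l.root = l.elems.erase l.root + s.elems :=
      Multiset.erase_add_left_pos _ l.root_mem
    cases l with
    | leaf a =>
      refine (h s ?_ (by omega)).mono ?_ (Nat.le_add_right _ _)
      · simp [TT.elems, TT.root]
      · rintro y ⟨hP, _, w2, _⟩
        exact ⟨hP, w2⟩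
    | node l1 l2 =>
      have hk1 : 1 ≤ k' := by
        simp only [TT.ht] at hht
        omega
      have hcard : 2 ≤ (TT.node l1 l2).elems.card := by
        simp only [TT.elems, Multiset.card_add]
        have h1 : 0 < l1.elems.card := Multiset.card_pos.2 (fun h0 => by
          have := l1.root_mem; rw [h0] at this; simp at this)
        have h2 : 0 < l2.elems.card := Multiset.card_pos.2 (fun h0 => by
          have := l2.root_mem; rw [h0] at this; simp at this)
        omega
      have key : Can t (fun y => (P y ∧ s.WF y) ∧ (TT.node l1 l2).WF y) ((b + 1) + (k' - 1)) := by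
        refine ihl _ (b + 1) k' (Multiset.nodup_add.1 hnd2).1 (by omega) hcard ?_
        intro l' he hh'
        have hall : (l'.elems + s.elems).Nodup := by
          rw [he]
          refine Multiset.nodup_of_le ?_ hnd2
          exact Multiset.add_le_add_right (Multiset.erase_le _ _)
        have hne : l'.root ≠ s.root := by
          intro hroot
          have := Multiset.nodup_add.1 hall
          exact Multiset.disjoint_left.1 this.2.2 l'.root_mem (hroot ▸ s.root_mem)
        refine Can.cmp hne ?_ ?_
        · refine (h (TT.node s l') ?_ ?_).mono ?_ le_rfl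
          · show s.elems + l'.elems =
              ((TT.node l1 l2).elems + s.elems).erase (TT.node l1 l2).root
            rw [he, hel, add_comm]
          · simp only [TT.ht] at hh' ⊢; omega
          · rintro y ⟨⟨⟨hP, ws⟩, wl⟩, hc⟩
            exact ⟨hP, ws, wl, hc⟩
        · refine (h (TT.node l' s) ?_ ?_).mono ?_ le_rfl
          · show l'.elems + s.elems =
              ((TT.node l1 l2).elems + s.elems).erase (TT.node l1 l2).root
            rw [he, hel]
          · simp only [TT.ht] at hh' ⊢; omega
          · rintro y ⟨⟨⟨hP, ws⟩, wl⟩, hc⟩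
            exact ⟨hP, wl, ws, hc⟩
      refine key.mono ?_ (by omega)
      rintro y ⟨hP, w1, w2, _⟩
      exact ⟨⟨hP, w2⟩, w1⟩

/-- `w` has at least `m` smaller entries. -/
def Big (m : ℕ) (y : Fin n → ℝ) (w : Fin n) : Prop :=
  m ≤ (univ.filter (fun x => y x < y w)).card

theorem big_root {m : ℕ} {y : Fin n → ℝ} (hy : Function.Injective y) {T : TT n}
    (hnd : T.elems.Nodup) (hc : T.elems.card = m + 1) (hw : T.WF y) : Big m y T.root := by
  have hsub : (⟨T.elems, hnd⟩ : Finset (Fin n)).erase T.root ⊆
      univ.filter (fun x => y x < y T.root) := by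
    intro x hx
    rw [Finset.mem_erase] at hx
    have hxe : x ∈ T.elems := hx.2
    have hle := TT.le_root hw x hxe
    simp only [Finset.mem_filter, Finset.mem_univ, true_and]
    exact lt_of_le_of_ne hle (fun h => hx.1 (hy h))
  have hcard := Finset.card_le_card hsub
  rw [Finset.card_erase_of_mem (show T.root ∈ (⟨T.elems, hnd⟩ : Finset (Fin n)) from T.root_mem)]
    at hcard
  have h2 : (⟨T.elems, hnd⟩ : Finset (Fin n)).card = m + 1 := hc
  rw [h2] at hcard
  simpa [Big] using hcard

theorem rank_final {t m : ℕ} {y : Fin n → ℝ} (hy : Function.Injective y) {T : TT n}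
    {W : Multiset (Fin n)} (hall : T.elems + W = (univ : Finset (Fin n)).val)
    (hT : T.elems.card = m) (hW : W.card + 1 = t) (hw : T.WF y) (hbig : ∀ w ∈ W, Big m y w) :
    (univ.filter (fun x => y T.root < y x)).card + 1 = t := by
  have hnd : (T.elems + W).Nodup := by rw [hall]; exact (univ : Finset (Fin n)).nodup
  obtain ⟨hndT, hndW, hdis⟩ := Multiset.nodup_add.1 hnd
  have hTW : ∀ x : Fin n, x ∈ T.elems ∨ x ∈ W := by
    intro x
    have : x ∈ T.elems + W := by rw [hall]; exact Finset.mem_univ x
    exact Multiset.mem_add.1 this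
  have hset : univ.filter (fun x => y T.root < y x) = (⟨W, hndW⟩ : Finset (Fin n)) := by
    ext x
    simp only [Finset.mem_filter, Finset.mem_univ, true_and]
    constructor
    · intro hx
      rcases hTW x with h | h
      · exact absurd hx (not_lt.2 (TT.le_root hw x h))
      · exact h
    · intro hx
      by_contra hcon
      have hxW : x ∈ W := hx
      have hxr : x ≠ T.root := fun h =>
        Multiset.disjoint_left.1 hdis T.root_mem (h ▸ hxW)
      have hlt : y x < y T.root := lt_of_le_of_ne (not_lt.1 hcon) (fun h => hxr (hy h))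
      have hne : (⟨W, hndW⟩ : Finset (Fin n)).Nonempty := ⟨x, hx⟩
      obtain ⟨w0, hw0, hmin⟩ := Finset.exists_min_image (⟨W, hndW⟩ : Finset (Fin n)) y hne
      have hw0lt : y w0 < y T.root := (hmin x hx).trans_lt hlt
      have hsub : univ.filter (fun z => y z < y w0) ⊆
          (⟨T.elems, hndT⟩ : Finset (Fin n)).erase T.root := by
        intro z hz
        simp only [Finset.mem_filter, Finset.mem_univ, true_and] at hz
        rw [Finset.mem_erase]
        refine ⟨fun h => ?_, ?_⟩
        · rw [h] at hz
          exact absurd hz (not_lt.2 hw0lt.le)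
        · rcases hTW z with h | h
          · exact h
          · exact absurd hz (not_lt.2 (hmin z h))
      have hcard := Finset.card_le_card hsub
      rw [Finset.card_erase_of_mem
        (show T.root ∈ (⟨T.elems, hndT⟩ : Finset (Fin n)) from T.root_mem)] at hcard
      have h2 : (⟨T.elems, hndT⟩ : Finset (Fin n)).card = m := hT
      have h3 : m ≤ (univ.filter (fun z => y z < y w0)).card := hbig w0 hw0
      have h4 : 0 < m := by
        rw [← hT]
        exact Multiset.card_pos.2 (fun h0 => by
          have := T.root_mem; rw [h0] at this; simp at this)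
      omega
  rw [hset]
  exact hW

theorem loop_can {t m k : ℕ} (hm : 1 ≤ m) : ∀ (rs : List (Fin n)) (T : TT n)
    (W : Multiset (Fin n)),
    T.elems + (W + (rs : Multiset (Fin n))) = (univ : Finset (Fin n)).val →
    T.elems.card = m + 1 → W.card + rs.length + 2 = t → T.ht ≤ k →
    Can t (fun y => (Function.Injective y ∧ ∀ w ∈ W, Big m y w) ∧ T.WF y)
      (rs.length * k + (k - 1)) := by
  intro rs
  induction rs with
  | nil =>
    intro T W hall hT hW hk
    have hnd : (T.elems + (W + (([] : List (Fin n)) : Multiset (Fin n)))).Nodup := by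
      rw [hall]; exact (univ : Finset (Fin n)).nodup
    have hndT : T.elems.Nodup := (Multiset.nodup_add.1 hnd).1
    have key : Can t (fun y => (Function.Injective y ∧ (∀ w ∈ T.root ::ₘ W, Big m y w)) ∧ T.WF y)
        (0 + (k - 1)) := by
      refine remove_can T _ 0 k hndT hk (by omega) ?_
      intro T' he _
      refine Can.out T'.root ?_
      rintro y hy ⟨⟨_, hb⟩, hw⟩
      refine rank_final hy (W := T.root ::ₘ W) ?_ (m := m) ?_ ?_ hw hb
      · rw [he]
        have hc : T.root ::ₘ T.elems.erase T.root = T.elems := Multiset.cons_erase T.root_mem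
        have h1 : T.elems.erase T.root + T.root ::ₘ W = T.elems + W := by
          rw [Multiset.add_cons, ← Multiset.cons_add, hc]
        rw [h1, ← hall]
        simp
      · rw [he, Multiset.card_erase_of_mem T.root_mem, hT]
        rfl
      · simp at hW ⊢
        omega
    refine key.mono ?_ (by simp)
    rintro y ⟨⟨hy, hb⟩, hw⟩
    refine ⟨⟨hy, ?_⟩, hw⟩
    intro w hww
    rcases Multiset.mem_cons.1 hww with h | h
    · rw [h]; exact big_root hy hndT hT hw
    · exact hb w h
  | cons r rs ih =>
    intro T W hall hT hW hk
    have hnd : (T.elems + (W + ((r :: rs : List (Fin n)) : Multiset (Fin n)))).Nodup := by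
      rw [hall]; exact (univ : Finset (Fin n)).nodup
    have hndT : T.elems.Nodup := (Multiset.nodup_add.1 hnd).1
    have hrT : (r ::ₘ T.elems).Nodup := by
      rw [Multiset.nodup_cons]
      refine ⟨fun h => ?_, hndT⟩
      refine Multiset.disjoint_left.1 (Multiset.nodup_add.1 hnd).2.2 h ?_
      simp
    have key : Can t (fun y => (Function.Injective y ∧ (∀ w ∈ T.root ::ₘ W, Big m y w)) ∧ T.WF y)
        ((rs.length * k + (k - 1)) + k) := by
      refine replace_can T _ _ k r hrT hk ?_
      intro T' he hh
      refine (ih T' (T.root ::ₘ W) ?_ ?_ ?_ hh).mono ?_ le_rfl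
      · rw [he, ← hall]
        have hc : T.root ::ₘ T.elems.erase T.root = T.elems := Multiset.cons_erase T.root_mem
        have e1 : (((r :: rs : List (Fin n))) : Multiset (Fin n)) = r ::ₘ (rs : Multiset (Fin n)) :=
          rfl
        rw [e1]
        conv_rhs => rw [← hc]
        simp only [Multiset.cons_add, Multiset.add_cons]
        rw [Multiset.cons_swap]
      · rw [he, Multiset.card_cons, Multiset.card_erase_of_mem T.root_mem, hT]
        rfl
      · simp at hW ⊢
        omega
      · rintro y h
        exact h
    refine key.mono ?_ ?_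
    · rintro y ⟨⟨hy, hb⟩, hw⟩
      refine ⟨⟨hy, ?_⟩, hw⟩
      intro w hww
      rcases Multiset.mem_cons.1 hww with h | h
      · rw [h]; exact big_root hy hndT hT hw
      · exact hb w h
    · simp only [List.length_cons]
      have : (rs.length + 1) * k = rs.length * k + k := by ring
      omega

/-- **Hadian-Sobel**: `n - t + (t-1) k` comparisons suffice to find the `t`-th largest of `n`
distinct reals if `2 ≤ t ≤ n` and `n + 2 - t ≤ 2 ^ k`. -/
theorem hadian_sobel {n t k : ℕ} (ht : 2 ≤ t) (htn : t ≤ n) (hk : n + 2 ≤ 2 ^ k + t) :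
    Can (n := n) t (fun _ => True) (n - t + (t - 1) * k) := by
  set m := n + 1 - t with hm
  have hk1 : 1 ≤ k := by
    rcases Nat.eq_zero_or_pos k with h | h
    · subst h; simp at hk; omega
    · exact h
  set L := (List.finRange n).take (m + 1) with hL
  set rs := (List.finRange n).drop (m + 1) with hrs
  have hlen : (List.finRange n).length = n := List.length_finRange
  have hLl : L.length = m + 1 := by rw [hL, List.length_take, hlen]; omega
  have hrl : rs.length = t - 2 := by rw [hrs, List.length_drop, hlen]; omega
  have happ : L ++ rs = List.finRange n := List.take_append_drop _ _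
  have hndL : L.Nodup := by
    have : (L ++ rs).Nodup := by rw [happ]; exact List.nodup_finRange n
    exact (List.nodup_append'.1 this).1
  have key : Can (n := n) t (fun _ => True)
      ((rs.length * k + (k - 1)) + (L.length - 1)) := by
    have h := build_can (t := t) k L (fun y => Function.Injective y) (rs.length * k + (k - 1))
      (by omega) (by omega) hndL (by
        intro T he hh
        refine (loop_can (t := t) (m := m) (k := k) (by omega) rs T 0 ?_ ?_ ?_ hh).mono ?_ le_rfl
        · rw [he, zero_add, Multiset.coe_add, happ]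
          simp [Fin.univ_def]
        · rw [he]; simpa using hLl
        · rw [hrl]; simp; omega
        · rintro y ⟨hy, hw⟩
          exact ⟨⟨hy, by simp⟩, hw⟩)
    obtain ⟨T, h1, h2, h3⟩ := h
    exact ⟨T, h1, h2, fun y hy _ => h3 y hy hy⟩
  refine key.mono (fun y hy => hy) ?_
  rw [hrl, hLl]
  have h1 : (t - 1) * k = (t - 2) * k + k := by
    have : t - 1 = (t - 2) + 1 := by omega
    rw [this]; ring
  omega

end Pool.Agent.H8.Sel
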