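import Pool.Agent.H24.Sel.Tree
import Pool.Agent.H8.Sel.Upper

/-!
# Upper bound for `V t n` (Hadian-Sobel)
-/

namespace Pool.Agent.H8.Sel

open Finset Pool.Agent.Sel

variable {n : ℕ}

/-- Translation of the trees. -/
def DT.toC : (T : DT n) → T.Valid → CTree (Fin n)
  | DT.out i, _ => CTree.out i
  | DT.cmp i j l r, h => CTree.cmp i j h.1 (l.toC h.2.1) (r.toC h.2.2)

theorem DT.run_toC (y : Fin n → ℝ) : ∀ (T : DT n) (h : T.Valid), (T.toC h).run y = T.eval y
  | DT.out i, _ => rfl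
  | DT.cmp i j l r, h => by
    by_cases hlt : y i < y j
    · simp only [DT.toC, CTree.run, DT.eval, hlt, if_true]
      exact DT.run_toC y l h.2.1
    · simp only [DT.toC, CTree.run, DT.eval, hlt, if_false]
      exact DT.run_toC y r h.2.2

theorem DT.cost_toC (y : Fin n → ℝ) : ∀ (T : DT n) (h : T.Valid), (T.toC h).cost y ≤ T.depth
  | DT.out i, _ => le_rfl
  | DT.cmp i j l r, h => by
    have h1 := DT.cost_toC y l h.2.1
    have h2 := DT.cost_toC y r h.2.2
    by_cases hlt : y i < y j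
    · simp only [DT.toC, CTree.cost, DT.depth, hlt, if_true]
      omega
    · simp only [DT.toC, CTree.cost, DT.depth, hlt, if_false]
      omega

theorem V_le_of_can {t b : ℕ} (h : Can (n := n) t (fun _ => True) b) : V t n ≤ b := by
  obtain ⟨T, h1, h2, h3⟩ := h
  refine Nat.sInf_le ⟨T.toC h1, ?_, ?_⟩
  · intro y hy
    rw [DT.run_toC]
    exact h3 y hy trivial
  · intro y _
    exact (DT.cost_toC y T h1).trans h2

/-- **Hadian-Sobel**: `V_t(n) ≤ n - t + (t-1) k` if `2 ≤ t ≤ n` and `n + 2 - t ≤ 2 ^ k`. -/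
theorem V_upper {t n k : ℕ} (ht : 2 ≤ t) (htn : t ≤ n) (hk : n + 2 ≤ 2 ^ k + t) :
    V t n ≤ n - t + (t - 1) * k :=
  V_le_of_can (hadian_sobel ht htn hk)

end Pool.Agent.H8.Sel
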