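import Pool.Agent.H8.Sel.Pack

/-!
# The profile is the sum of the contributions of a set of up-sets
-/

set_option linter.unusedSectionVars false

namespace Pool.Agent.Sel

open Finset

/-- Two levels. -/
def pk2 (a : ℕ → ℕ → ℕ) : ℕ := pk 512 16 (fun x => pk 32 16 (a x))

/-- Lanes of one up-set. -/
noncomputable def bet (S : Finset ℕ) (rel : ℕ → ℕ → Prop) (Q : Finset ℕ) (x y : ℕ) : ℕ :=
  if x < 14 then
    if y < 14 then (2 * ind Q x + ind (rt S rel Q) x) * ind Q y
    else if y = 14 then vf S rel Q x else ind Q x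
  else if x = 14 ∧ y = 0 then 1 else 0

theorem vf_le {S : Finset ℕ} {rel : ℕ → ℕ → Prop} {Q : Finset ℕ} {x : ℕ} : vf S rel Q x ≤ 2 := by
  by_cases h : x ∈ nr S rel Q
  · rw [vf_of_nr h]
  · unfold vf
    rw [ind_neg h]
    have := ind_le (rt S rel Q) x
    omega

theorem bet_le {S : Finset ℕ} {rel : ℕ → ℕ → Prop} {Q : Finset ℕ} {x y : ℕ} :
    bet S rel Q x y ≤ 2 := by
  unfold bet
  split_ifs
  · have h1 : 2 * ind Q x + ind (rt S rel Q) x ≤ 2 := by
      by_cases h : x ∈ Q
      · rw [ind_pos h, ind_neg (fun h2 => (mem_rt.1 h2).2.1 h)]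
      · rw [ind_neg h]
        have := ind_le (rt S rel Q) x
        omega
    calc (2 * ind Q x + ind (rt S rel Q) x) * ind Q y ≤ 2 * 1 := Nat.mul_le_mul h1 (ind_le _ _)
      _ = 2 := rfl
  · exact vf_le
  · have := ind_le Q x
    omega
  · norm_num
  · norm_num

/-- Contribution. -/
noncomputable def ctb (S : Finset ℕ) (rel : ℕ → ℕ → Prop) (w : ℕ → ℕ) (Q : Finset ℕ) : ℕ :=
  2 ^ ex S rel w Q * (2 ^ (8192 * Q.card) * pk2 (bet S rel Q) + 2 ^ 32768)

theorem pk_zero {s n : ℕ} {a : ℕ → ℕ} (h : ∀ i < n, a i = 0) : pk s n a = 0 := by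
  unfold pk
  exact sum_eq_zero fun i hi => by rw [h i (mem_range.1 hi), zero_mul]

theorem bet14 (S : Finset ℕ) (rel : ℕ → ℕ → Prop) (Q : Finset ℕ) :
    pk 32 16 (bet S rel Q 14) = 1 := by
  unfold pk
  rw [sum_range_succ']
  rw [sum_eq_zero (fun i _ => by
    have : bet S rel Q 14 (i + 1) = 0 := by simp [bet]
    rw [this, zero_mul])]
  simp [bet]

theorem bet15 (S : Finset ℕ) (rel : ℕ → ℕ → Prop) (Q : Finset ℕ) :
    pk 32 16 (bet S rel Q 15) = 0 := pk_zero fun i _ => by simp [bet]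

theorem bet_row {S : Finset ℕ} {rel : ℕ → ℕ → Prop} {Q : Finset ℕ} (hQ : Q ⊆ range 14) {x : ℕ}
    (hx : x < 14) : pk 32 16 (bet S rel Q x) =
      (2 * ind Q x + ind (rt S rel Q) x) * colm Q + vf S rel Q x * 2 ^ 448 + ind Q x * 2 ^ 480 := by
  rw [pk_succ, pk_succ, colm_eq hQ, pk_smul]
  have h1 : bet S rel Q x 14 = vf S rel Q x := by simp [bet, hx]
  have h2 : bet S rel Q x 15 = ind Q x := by simp [bet, hx]
  have h3 : pk 32 14 (bet S rel Q x) =
      pk 32 14 (fun i => (2 * ind Q x + ind (rt S rel Q) x) * ind Q i) :=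
    pk_congr fun i hi => by simp [bet, hx, hi]
  rw [h1, h2, h3]

theorem pk_comb (s n : ℕ) (q r u : ℕ → ℕ) (c p p' z : ℕ) :
    pk s n (fun i => (2 * q i + r i) * c + (2 * u i + r i) * p + q i * p') + z =
    ((pk s n q + pk s n q + pk s n r) * c + (pk s n u + pk s n u + pk s n r) * p) +
      (pk s n q * p' + z) := by
  have h : pk s n (fun i => (2 * q i + r i) * c + (2 * u i + r i) * p + q i * p') =
      (pk s n q + pk s n q + pk s n r) * c + (pk s n u + pk s n u + pk s n r) * p +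
        pk s n q * p' := by
    rw [pk_add, pk_add, pk_add, pk_add, mul_comm _ c, pk_smul, mul_comm _ p, pk_smul,
      mul_comm _ p', pk_smul, pk_add, pk_add]
    exact pk_congr fun i _ => by ring
  rw [h]
  ring

theorem contr_eq {S : Finset ℕ} {rel : ℕ → ℕ → Prop} {Q : Finset ℕ} (hS : S ⊆ range 14)
    (hQ : Q ⊆ range 14) (e cp : ℕ) :
    contr (rowm Q) (colm Q) (rowm (nr S rel Q)) (rowm (rt S rel Q)) e cp =
      2 ^ e * (2 ^ cp * pk2 (bet S rel Q) + 2 ^ 32768) := by
  have hnr : nr S rel Q ⊆ range 14 := fun x hx => hS (mem_nr.1 hx).1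
  have hrt : rt S rel Q ⊆ range 14 := fun x hx => hS (mem_rt.1 hx).1
  have h0 : contr (rowm Q) (colm Q) (rowm (nr S rel Q)) (rowm (rt S rel Q)) e cp =
      (((((rowm Q + rowm Q + rowm (rt S rel Q)) * colm Q +
        (rowm (nr S rel Q) + rowm (nr S rel Q) + rowm (rt S rel Q)) <<< 448) +
        (rowm Q <<< 480 + 1 <<< 7168)) <<< cp) + 1 <<< 32768) <<< e := rfl
  rw [h0]
  simp only [Nat.shiftLeft_eq]
  have h1 : pk2 (bet S rel Q) = ((rowm Q + rowm Q + rowm (rt S rel Q)) * colm Q +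
        (rowm (nr S rel Q) + rowm (nr S rel Q) + rowm (rt S rel Q)) * 2 ^ 448) +
        (rowm Q * 2 ^ 480 + 1 * 2 ^ 7168) := by
    unfold pk2
    rw [pk_succ, pk_succ, bet14, bet15, pk_congr (fun i hi => bet_row hQ hi), zero_mul, add_zero]
    unfold vf
    have e1 : 512 * 14 = 7168 := by norm_num
    rw [e1, rowm_eq hQ, rowm_eq hnr, rowm_eq hrt]
    exact pk_comb _ _ _ _ _ _ _ _ _
  rw [h1]
  generalize ((rowm Q + rowm Q + rowm (rt S rel Q)) * colm Q +
        (rowm (nr S rel Q) + rowm (nr S rel Q) + rowm (rt S rel Q)) * 2 ^ 448) +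
        (rowm Q * 2 ^ 480 + 1 * 2 ^ 7168) = P
  generalize (2 : ℕ) ^ 32768 = p
  ring

theorem pk_mod {s n j : ℕ} {a : ℕ → ℕ} (hj : j ≤ n) (h : ∀ i < j, a i < 2 ^ s) :
    pk s n a % 2 ^ (s * j) = pk s j a := by
  rcases eq_or_lt_of_le hj with rfl | hj
  · exact Nat.mod_eq_of_lt (pk_lt h)
  · obtain ⟨r, hr⟩ := pk_split (a := a) (s := s) hj
    rw [hr, Nat.add_mul_mod_self_left, Nat.mod_eq_of_lt (pk_lt h)]

/-- Facts about the relation of an entry. -/
structure RelOK (m U : ℕ) : Prop where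
  m14 : m ≤ 14
  lt : ∀ a b, b < 16 → crel U a b = true → a < m ∧ b < m
  irr : ∀ a < 16, crel U a a = false
  tr : ∀ a < 16, ∀ b < 16, ∀ c < 16, crel U a b = true → crel U b c = true → crel U a c = true

section

variable {m U W : ℕ}

/-- the relation -/
def rl0 (U a b : ℕ) : Prop := crel U a b = true

/-- Up-sets of the entry. -/
def UpS (m U : ℕ) (T : Finset ℕ) : Prop := T ⊆ range m ∧ ∀ a ∈ T, ∀ c ∈ range m, rl0 U a c → c ∈ T

theorem range_sub (hR : RelOK m U) : range m ⊆ range 14 := range_subset_range.2 hR.m14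

theorem NR_eq (hR : RelOK m U) {T : Finset ℕ} (hT : UpS m U T) :
    nroots (wide U m) (msk (range m \ T)) = rowm (nr (range m) (rl0 U) T) := by
  have hsub : range m \ T ⊆ range 14 := sdiff_subset.trans (range_sub hR)
  rw [nroots_eq hR.m14 (msk_lt hsub)]
  congr 1
  ext x
  rw [mem_filter, mem_nr, mem_rt]
  have key : rowU U x &&& msk (range m \ T) ≠ 0 ↔ ∃ z ∈ range m, z ∉ T ∧ rl0 U x z := by
    constructor
    · intro h
      by_contra h2
      push Not at h2
      apply h
      refine Nat.eq_of_testBit_eq fun i => ?_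
      rw [Nat.zero_testBit, Nat.testBit_and, msk_testBit hsub, rowU_testBit, ← Bool.not_eq_true]
      intro h3
      simp only [Bool.and_eq_true, decide_eq_true_iff, mem_sdiff] at h3
      exact h2 i h3.2.1 h3.2.2 h3.1.2
    · rintro ⟨z, hz, hzT, hxz⟩ h
      have h2 : (rowU U x &&& msk (range m \ T)).testBit z = false := by rw [h, Nat.zero_testBit]
      have hm := hR.m14
      have hz' := mem_range.1 hz
      have hz16 : z < 16 := by omega
      change crel U x z = true at hxz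
      rw [Nat.testBit_and, msk_testBit hsub, rowU_testBit, hxz] at h2
      simp [hz16, mem_sdiff.2 ⟨hz, hzT⟩] at h2
  rw [key]
  constructor
  · rintro ⟨h1, z, hz, hzT, hxz⟩
    refine ⟨h1, fun hxT => hzT (hT.2 x hxT z hz hxz), ?_⟩
    rintro ⟨-, -, h3⟩
    exact h3 z hz hzT hxz
  · rintro ⟨h1, h2, h3⟩
    refine ⟨h1, ?_⟩
    by_contra h4
    push Not at h4
    exact h3 ⟨h1, h2, h4⟩

theorem SR_eq (hR : RelOK m U) :
    Nat.mod rep14 (Nat.shiftLeft 1 (Nat.mul 512 m)) = rowm (range m) := by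
  have h : Nat.mod rep14 (Nat.shiftLeft 1 (Nat.mul 512 m)) = rep14 % 2 ^ (512 * m) := by
    rw [shl_eq, Nat.one_shiftLeft]; rfl
  rw [h, rep14_eq, pk_mod hR.m14 (fun _ _ => Nat.one_lt_two_pow (by norm_num)),
    rowm_eq (Finset.Subset.refl _)]
  exact pk_congr fun i hi => by rw [ind_pos (mem_range.2 hi)]

theorem RR_eq {T : Finset ℕ} (hT : T ⊆ range m) :
    Nat.sub (Nat.sub (rowm (range m)) (rowm (nr (range m) (rl0 U) T))) (rowm T) =
      rowm (rt (range m) (rl0 U) T) := by
  have h : rowm (range m) = rowm (nr (range m) (rl0 U) T) + rowm T +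
      rowm (rt (range m) (rl0 U) T) := by
    have hrt : rt (range m) (rl0 U) T ⊆ range m := fun x hx => (mem_rt.1 hx).1
    have hnr : nr (range m) (rl0 U) T ⊆ range m := fun x hx => (mem_nr.1 hx).1
    rw [rowm_eq hT, rowm_eq hrt, rowm_eq hnr, rowm_eq (Finset.Subset.refl _), pk_add, pk_add]
    refine pk_congr fun i hi => ?_
    rw [ind_pos (mem_range.2 hi)]
    rcases cases3 (rel := rl0 U) (Q := T) (mem_range.2 hi) with h | h | h
    · rw [ind_pos h, ind_neg (fun h2 => (mem_nr.1 h2).2.1 h),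
        ind_neg (fun h2 => (mem_rt.1 h2).2.1 h)]
    · rw [ind_pos h, ind_neg (fun h2 => (mem_nr.1 h2).2.2 h), ind_neg (mem_rt.1 h).2.1]
    · rw [ind_pos h, ind_neg (mem_nr.1 h).2.1, ind_neg (mem_nr.1 h).2.2]
  rw [h]
  show rowm (nr (range m) (rl0 U) T) + rowm T + rowm (rt (range m) (rl0 U) T) -
    rowm (nr (range m) (rl0 U) T) - rowm T = _
  omega

theorem msk_sub {T : Finset ℕ} {n : ℕ} (hn : n ∈ range m \ T) :
    Nat.sub (msk (range m \ T)) (Nat.shiftLeft 1 n) = msk (range m \ insert n T) := by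
  have h : range m \ insert n T = (range m \ T).erase n := by
    ext x
    simp only [mem_sdiff, mem_insert, mem_erase, not_or]
    tauto
  have h2 : msk (range m \ T) = 2 ^ n + msk ((range m \ T).erase n) := by
    unfold msk
    rw [add_sum_erase _ _ hn]
  rw [h, h2, shl_eq, Nat.one_shiftLeft]
  show 2 ^ n + msk ((range m \ T).erase n) - 2 ^ n = _
  omega

theorem rowm_insert {T : Finset ℕ} {n : ℕ} (hn : n ∉ T) :
    Nat.add (rowm T) (Nat.shiftLeft 1 (Nat.mul 512 n)) = rowm (insert n T) := by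
  unfold rowm
  rw [sum_insert hn, shl_eq, Nat.one_shiftLeft, add_comm]
  rfl

theorem colm_insert {T : Finset ℕ} {n : ℕ} (hn : n ∉ T) :
    Nat.add (colm T) (Nat.shiftLeft 1 (Nat.mul 32 n)) = colm (insert n T) := by
  unfold colm
  rw [sum_insert hn, shl_eq, Nat.one_shiftLeft, add_comm]
  rfl

theorem up_insert {T : Finset ℕ} {n : ℕ} (hT : UpS m U T) (hn : n ∈ rt (range m) (rl0 U) T) :
    UpS m U (insert n T) := by
  obtain ⟨h1, h2, h3⟩ := mem_rt.1 hn
  refine ⟨insert_subset h1 hT.1, ?_⟩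
  intro a ha c hc hac
  rw [mem_insert] at ha ⊢
  by_contra h4
  rw [not_or] at h4
  rcases ha with rfl | ha
  · exact h3 c hc h4.2 hac
  · exact h4.2 (hT.2 a ha c hc hac)

/-- Abbreviation of the contribution for entries. -/
noncomputable def ctr (m U W : ℕ) (Q : Finset ℕ) : ℕ := ctb (range m) (rl0 U) (cw W) Q

/-- Value of a visit of `T`. -/
noncomputable def vis (m U W r : ℕ) (T : Finset ℕ) (lim acc : ℕ) : ℕ :=
  visit (wide U m) W (rowm (range m)) r (msk (range m \ T)) (rowm T) (colm T) (∑ x ∈ T, cw W x)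
    (8192 * T.card) lim acc

theorem own_eq (hR : RelOK m U) {T : Finset ℕ} (hT : UpS m U T) :
    (fun NR => (fun RR => contr (rowm T) (colm T) NR RR (Nat.add (∑ x ∈ T, cw W x) (cntR RR))
      (8192 * T.card)) (Nat.sub (Nat.sub (rowm (range m)) NR) (rowm T)))
      (nroots (wide U m) (msk (range m \ T))) = ctr m U W T := by
  have hrt : rt (range m) (rl0 U) T ⊆ range m := fun x hx => (mem_rt.1 hx).1
  simp only [NR_eq hR hT, RR_eq hT.1, cntR_eq hrt hR.m14]
  rw [contr_eq (range_sub hR) (hT.1.trans (range_sub hR))]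
  rfl

theorem vis_zero (hR : RelOK m U) {T : Finset ℕ} (hT : UpS m U T) (lim acc : ℕ) :
    vis m U W 0 T lim acc = ctr m U W T + acc := by
  rw [← own_eq hR hT]
  rfl

/-- the loop -/
noncomputable def lp (m U W r : ℕ) (T : Finset ℕ) (n acc : ℕ) : ℕ :=
  cloop W (rowm (rt (range m) (rl0 U) T)) (msk (range m \ T)) (rowm T) (colm T) (∑ x ∈ T, cw W x)
    (8192 * T.card) (visit (wide U m) W (rowm (range m)) r) n acc

theorem vis_succ (hR : RelOK m U) {T : Finset ℕ} (hT : UpS m U T) (r lim acc : ℕ) :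
    vis m U W (r + 1) T lim acc = lp m U W r T lim (ctr m U W T + acc) := by
  have h : vis m U W (r + 1) T lim acc = (fun NR => (fun RR =>
        cloop W RR (msk (range m \ T)) (rowm T) (colm T) (∑ x ∈ T, cw W x) (8192 * T.card)
          (visit (wide U m) W (rowm (range m)) r) lim
          (Nat.add (contr (rowm T) (colm T) NR RR (Nat.add (∑ x ∈ T, cw W x) (cntR RR))
            (8192 * T.card)) acc))
          (Nat.sub (Nat.sub (rowm (range m)) NR) (rowm T)))
          (nroots (wide U m) (msk (range m \ T))) := rfl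
  rw [h]
  unfold lp
  rw [← own_eq (W := W) hR hT]
  simp only [NR_eq hR hT, RR_eq hT.1]
  rfl

theorem lp_succ {T : Finset ℕ} (hT : T ⊆ range m) (r n acc : ℕ) :
    lp m U W r T (n + 1) acc = if n ∈ rt (range m) (rl0 U) T then
      lp m U W r T n (vis m U W r (insert n T) n acc) else lp m U W r T n acc := by
  have hrt : rt (range m) (rl0 U) T ⊆ range m := fun x hx => (mem_rt.1 hx).1
  have h : lp m U W r T (n + 1) acc = Bool.rec (motive := fun _ => ℕ)
      (lp m U W r T n acc)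
      (lp m U W r T n (visit (wide U m) W (rowm (range m)) r
          (Nat.sub (msk (range m \ T)) (Nat.shiftLeft 1 n))
          (Nat.add (rowm T) (Nat.shiftLeft 1 (Nat.mul 512 n)))
          (Nat.add (colm T) (Nat.shiftLeft 1 (Nat.mul 32 n)))
          (Nat.add (∑ x ∈ T, cw W x) (nib W n)) (Nat.add (8192 * T.card) 8192) n acc))
      (bitN (rowm (rt (range m) (rl0 U) T)) (512 * n)) := rfl
  rw [h, bitN_eq, rowm_testBit hrt]
  by_cases hn : n ∈ rt (range m) (rl0 U) T
  · obtain ⟨h1, h2, h3⟩ := mem_rt.1 hn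
    rw [if_pos hn]
    simp only [hn, decide_true]
    rw [msk_sub (mem_sdiff.2 ⟨h1, h2⟩), rowm_insert h2, colm_insert h2]
    unfold vis
    rw [sum_insert h2, card_insert_of_notMem h2]
    have e1 : Nat.add (∑ x ∈ T, cw W x) (nib W n) = cw W n + ∑ x ∈ T, cw W x := by
      rw [add_comm]; rfl
    have e2 : Nat.add (8192 * T.card) 8192 = 8192 * (T.card + 1) := rfl
    rw [e1, e2]
  · rw [if_neg hn]
    simp only [hn, decide_false]

/-- specification of a visit with `r` further elements -/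
theorem vis_spec (hR : RelOK m U) : ∀ (r : ℕ) (T : Finset ℕ) (lim acc : ℕ), UpS m U T →
    ∃ A : Finset (Finset ℕ), (∀ Q ∈ A, T ⊆ Q ∧ UpS m U Q ∧ Q.card ≤ T.card + r ∧
      ∀ x ∈ Q, x ∉ T → x < lim) ∧
      vis m U W r T lim acc = acc + ∑ Q ∈ A, ctr m U W Q := by
  intro r
  induction r with
  | zero =>
    intro T lim acc hT
    refine ⟨{T}, ?_, ?_⟩
    · intro Q hQ
      rw [mem_singleton] at hQ
      subst hQ
      exact ⟨Finset.Subset.refl _, hT, le_rfl, fun x h1 h2 => absurd h1 h2⟩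
    · rw [vis_zero hR hT, sum_singleton, add_comm]
  | succ r ih =>
    intro T lim acc hT
    have loop : ∀ (n acc : ℕ), ∃ A : Finset (Finset ℕ), (∀ Q ∈ A, T ⊆ Q ∧ Q ≠ T ∧ UpS m U Q ∧
        Q.card ≤ T.card + (r + 1) ∧ ∀ x ∈ Q, x ∉ T → x < n) ∧
        lp m U W r T n acc = acc + ∑ Q ∈ A, ctr m U W Q := by
      intro n
      induction n with
      | zero =>
        intro acc
        exact ⟨∅, fun Q hQ => absurd hQ (notMem_empty Q), by rw [sum_empty]; rfl⟩
      | succ n ihn =>
        intro acc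
        rw [lp_succ hT.1]
        by_cases hn : n ∈ rt (range m) (rl0 U) T
        · rw [if_pos hn]
          obtain ⟨h1, h2, h3⟩ := mem_rt.1 hn
          obtain ⟨A1, hA1, e1⟩ := ih (insert n T) n acc (up_insert hT hn)
          obtain ⟨A2, hA2, e2⟩ := ihn (vis m U W r (insert n T) n acc)
          refine ⟨A1 ∪ A2, ?_, ?_⟩
          · intro Q hQ
            rcases mem_union.1 hQ with hQ | hQ
            · obtain ⟨c1, c2, c3, c4⟩ := hA1 Q hQ
              rw [card_insert_of_notMem h2] at c3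
              refine ⟨(subset_insert n T).trans c1, ?_, c2, by omega, ?_⟩
              · rintro rfl
                exact h2 (c1 (mem_insert_self n _))
              · intro x hx hxT
                by_cases hxn : x = n
                · omega
                · have := c4 x hx (by rw [mem_insert, not_or]; exact ⟨hxn, hxT⟩)
                  omega
            · obtain ⟨c1, c2, c3, c4, c5⟩ := hA2 Q hQ
              exact ⟨c1, c2, c3, c4, fun x hx hxT => lt_trans (c5 x hx hxT) (by omega)⟩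
          · have hdisj : Disjoint A1 A2 := by
              rw [disjoint_left]
              intro Q hQ1 hQ2
              have c1 := (hA1 Q hQ1).1 (mem_insert_self n T)
              have := (hA2 Q hQ2).2.2.2.2 n c1 h2
              omega
            rw [sum_union hdisj, e2, e1]
            ring
        · rw [if_neg hn]
          obtain ⟨A2, hA2, e2⟩ := ihn acc
          refine ⟨A2, ?_, e2⟩
          intro Q hQ
          obtain ⟨c1, c2, c3, c4, c5⟩ := hA2 Q hQ
          exact ⟨c1, c2, c3, c4, fun x hx hxT => lt_trans (c5 x hx hxT) (by omega)⟩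
    rw [vis_succ hR hT]
    obtain ⟨A, hA, e1⟩ := loop lim (ctr m U W T + acc)
    have hTA : T ∉ A := fun h => (hA T h).2.1 rfl
    refine ⟨insert T A, ?_, ?_⟩
    · intro Q hQ
      rcases mem_insert.1 hQ with rfl | hQ
      · exact ⟨Finset.Subset.refl _, hT, by omega, fun x h1 h2 => absurd h1 h2⟩
      · obtain ⟨c1, c2, c3, c4, c5⟩ := hA Q hQ
        exact ⟨c1, c3, c4, c5⟩
    · rw [sum_insert hTA, e1]
      ring

/-- **The profile.** -/
theorem profile_spec (hR : RelOK m U) {t : ℕ} (ht : 1 ≤ t) : ∃ A : Finset (Finset ℕ),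
    (∀ Q ∈ A, Q ⊆ range m ∧ PUp t (range m) (rl0 U) Q) ∧
      profile m U W t = ∑ Q ∈ A, ctr m U W Q := by
  obtain ⟨A, hA, h⟩ := vis_spec (W := W) hR (t - 1) ∅ m 0
    ⟨empty_subset _, fun a ha => absurd ha (notMem_empty a)⟩
  refine ⟨A, ?_, ?_⟩
  · intro Q hQ
    obtain ⟨-, c2, c3, -⟩ := hA Q hQ
    rw [card_empty] at c3
    exact ⟨c2.1, by omega, fun a ha c hc hac => c2.2 a ha c hc hac⟩
  · rw [zero_add] at h
    rw [← h]
    unfold profile vis
    rw [SR_eq hR, sdiff_empty, msk_range, shl_eq, Nat.one_shiftLeft, card_empty, sum_empty, mul_zero]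
    rfl

end

end Pool.Agent.Sel
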